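import Pool.Agent.W2helper14.RB.Gen
import Pool.Agent.H373R2.T7.Crt

set_option autoImplicit false

/-!
The number of the admissible classes modulo `q` (from the starting file `Pool.Agent.W93.PP3`), and the local
factors of the pair `X`, `X + d` in the random sieve model.
-/

namespace Pool.Agent.W2helper14.RB

open Finset
open Pool.Agent.H373R2.T7 (crt_card nuB)

/-- the number of admissible classes -/
def Cnt (q h : ℕ) : ℕ := ((range q).filter (fun A => Nat.Coprime A q ∧ Nat.Coprime (A + h) q)).card

lemma per_card (P : ℕ → Prop) [DecidablePred P] (r : ℕ) (hP : ∀ b, P (b + r) ↔ P b) (m : ℕ) :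
    ((range (m * r)).filter P).card = m * ((range r).filter P).card := by
  induction m with
  | zero => simp
  | succ m ih =>
    have h1 : range ((m + 1) * r) = range (m * r) ∪ (range r).map (addRightEmbedding (m * r)) := by
      ext x
      simp only [mem_range, mem_union, mem_map, addRightEmbedding_apply]
      constructor
      · intro h
        by_cases h2 : x < m * r
        · exact Or.inl h2
        · right
          refine ⟨x - m * r, ?_, by omega⟩
          have : (m + 1) * r = m * r + r := by ring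
          omega
      · rintro (h | ⟨y, hy, rfl⟩)
        · have : (m + 1) * r = m * r + r := by ring
          omega
        · have : (m + 1) * r = m * r + r := by ring
          omega
    have hdis : Disjoint (range (m * r)) ((range r).map (addRightEmbedding (m * r))) := by
      rw [disjoint_left]
      intro x hx hy
      rw [mem_range] at hx
      rw [mem_map] at hy
      obtain ⟨y, _, rfl⟩ := hy
      simp only [addRightEmbedding_apply] at hx
      omega
    have hP2 : ∀ (j b : ℕ), P (b + j * r) ↔ P b := by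
      intro j
      induction j with
      | zero => intro b; simp
      | succ j ihj =>
        intro b
        have : b + (j + 1) * r = (b + j * r) + r := by ring
        rw [this, hP, ihj]
    rw [h1, filter_union, card_union_of_disjoint (disjoint_filter_filter hdis), ih, filter_map, card_map]
    have h2 : (range r).filter (P ∘ (addRightEmbedding (m * r))) = (range r).filter P := by
      apply filter_congr
      intro x _
      simp only [Function.comp, addRightEmbedding_apply]
      exact hP2 m x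
    rw [h2]
    ring

lemma cnt_prime (p h : ℕ) (hp : p.Prime) :
    (((range p).filter (fun r => ¬ p ∣ r ∧ ¬ p ∣ r + h)).card : ℝ) = (p - 1) * (if p ∣ h then 1 else (1 - 1 / ((p : ℝ) - 1))) := by
  have hp2 := hp.two_le
  have hp2r : (2 : ℝ) ≤ p := by exact_mod_cast hp2
  obtain ⟨t, ht⟩ : ∃ t, t = h % p := ⟨_, rfl⟩
  have htp : t < p := by rw [ht]; exact Nat.mod_lt _ hp.pos
  have hdt : ∀ r, p ∣ r + h ↔ p ∣ r + t := by
    intro r
    have e : r + h = (r + t) + p * (h / p) := by
      have := Nat.mod_add_div h p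
      rw [ht]; omega
    rw [e]
    exact (Nat.dvd_add_iff_left (dvd_mul_right _ _)).symm
  by_cases h0 : p ∣ h
  · rw [if_pos h0, mul_one]
    have ht0 : t = 0 := by rw [ht]; exact Nat.mod_eq_zero_of_dvd h0
    have h1 : (range p).filter (fun r => ¬ p ∣ r ∧ ¬ p ∣ r + h) = Ico 1 p := by
      ext r
      rw [mem_filter, mem_range, mem_Ico, hdt r, ht0, add_zero]
      constructor
      · rintro ⟨h1, h2, _⟩
        refine ⟨?_, h1⟩
        rcases Nat.eq_zero_or_pos r with h3 | h3
        · exact absurd (h3 ▸ dvd_zero _) h2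
        · exact h3
      · rintro ⟨h1, h2⟩
        have h3 : ¬ p ∣ r := fun h4 => by
          have := Nat.le_of_dvd (by omega) h4
          omega
        exact ⟨h2, h3, h3⟩
    rw [h1, Nat.card_Ico, Nat.cast_sub hp.one_le]
    push_cast
    ring
  · rw [if_neg h0]
    have ht0 : 0 < t := by
      rcases Nat.eq_zero_or_pos t with h3 | h3
      · exact absurd (Nat.dvd_of_mod_eq_zero (by rw [← ht]; exact h3)) h0
      · exact h3
    have h1 : (range p).filter (fun r => ¬ p ∣ r ∧ ¬ p ∣ r + h) = (Ico 1 p).erase (p - t) := by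
      ext r
      rw [mem_filter, mem_range, mem_erase, mem_Ico, hdt r]
      constructor
      · rintro ⟨h1, h2, h4⟩
        refine ⟨?_, ?_, h1⟩
        · intro h5
          apply h4
          rw [h5]
          have : p - t + t = p := by omega
          rw [this]
        · rcases Nat.eq_zero_or_pos r with h3 | h3
          · exact absurd (h3 ▸ dvd_zero _) h2
          · exact h3
      · rintro ⟨h1, h2, h3⟩
        refine ⟨h3, fun h4 => ?_, fun h4 => ?_⟩
        · have := Nat.le_of_dvd (by omega) h4
          omega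
        · obtain ⟨j, hj⟩ := h4
          have hj1 : j = 1 := by
            have h5 : 0 < p * j := by omega
            have h6 : 0 < j := Nat.pos_of_mul_pos_left h5 |> fun _ => by
              rcases Nat.eq_zero_or_pos j with h7 | h7
              · rw [h7] at h5; omega
              · exact h7
            have h7 : p * j < p * 2 := by omega
            have h8 := Nat.lt_of_mul_lt_mul_left h7
            omega
          rw [hj1, mul_one] at hj
          omega
    rw [h1, card_erase_of_mem (by rw [mem_Ico]; omega), Nat.card_Ico, Nat.sub_sub, Nat.cast_sub (by omega)]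
    push_cast
    have : (p : ℝ) - 1 ≠ 0 := by linarith
    field_simp
    ring

lemma cnt_eq (q h : ℕ) (hq : 1 ≤ q) :
    (Cnt q h : ℝ) = (Nat.totient q : ℝ) * ∏ p ∈ q.primeFactors, (if p ∣ h then 1 else (1 - 1 / ((p : ℝ) - 1))) := by
  classical
  obtain ⟨R, hR⟩ : ∃ R, R = ∏ p ∈ q.primeFactors, p := ⟨_, rfl⟩
  have hSp : ∀ p ∈ q.primeFactors, p.Prime := fun p hp => Nat.prime_of_mem_primeFactors hp
  have hRq : R ∣ q := by rw [hR]; exact Nat.prod_primeFactors_dvd q
  obtain ⟨m, hm⟩ := hRq
  have hR1 : 1 ≤ R := by rw [hR]; exact Nat.pos_of_ne_zero (prod_ne_zero_iff.2 fun p hp => (hSp p hp).ne_zero)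
  have hcop : ∀ x : ℕ, Nat.Coprime x q ↔ ∀ p ∈ q.primeFactors, ¬ p ∣ x := by
    intro x
    constructor
    · intro h1 p hp h2
      have h3 := Nat.dvd_gcd h2 (Nat.dvd_of_mem_primeFactors hp)
      rw [h1] at h3
      exact (hSp p hp).one_lt.ne' (Nat.dvd_one.1 h3)
    · intro h1
      by_contra hne
      obtain ⟨p, hp, hpx, hpq⟩ := Nat.Prime.not_coprime_iff_dvd.1 hne
      exact h1 p (Nat.mem_primeFactors.2 ⟨hp, hpq, by omega⟩) hpx
  have e1 : Cnt q h = ((range (m * R)).filter (fun b => ∀ p ∈ q.primeFactors, ¬ p ∣ b ∧ ¬ p ∣ b + h)).card := by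
    unfold Cnt
    have h1 : m * R = q := by rw [hm]; ring
    rw [h1]
    congr 1
    apply filter_congr
    intro x _
    rw [hcop x, hcop (x + h)]
    constructor
    · rintro ⟨h2, h3⟩ p hp
      exact ⟨h2 p hp, h3 p hp⟩
    · intro h2
      exact ⟨fun p hp => (h2 p hp).1, fun p hp => (h2 p hp).2⟩
  have hper : ∀ b, (∀ p ∈ q.primeFactors, ¬ p ∣ (b + R) ∧ ¬ p ∣ (b + R) + h) ↔ (∀ p ∈ q.primeFactors, ¬ p ∣ b ∧ ¬ p ∣ b + h) := by
    intro b
    have hh : ∀ p ∈ q.primeFactors, ((p ∣ b + R ↔ p ∣ b) ∧ (p ∣ b + R + h ↔ p ∣ b + h)) := by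
      intro p hp
      have hpR : p ∣ R := by rw [hR]; exact dvd_prod_of_mem _ hp
      refine ⟨(Nat.dvd_add_iff_left hpR).symm, ?_⟩
      have : b + R + h = b + h + R := by ring
      rw [this]
      exact (Nat.dvd_add_iff_left hpR).symm
    constructor
    · intro h1 p hp
      obtain ⟨h2, h3⟩ := hh p hp
      rw [← h2, ← h3]
      exact h1 p hp
    · intro h1 p hp
      obtain ⟨h2, h3⟩ := hh p hp
      rw [h2, h3]
      exact h1 p hp
  rw [e1, per_card _ R hper m]
  have e2 : ((range R).filter (fun b => ∀ p ∈ q.primeFactors, ¬ p ∣ b ∧ ¬ p ∣ b + h)).card =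
      ∏ p ∈ q.primeFactors, ((range p).filter (fun r => ¬ p ∣ r ∧ ¬ p ∣ r + h)).card := by
    have h1 := crt_card (fun p b => ¬ p ∣ b ∧ ¬ p ∣ b + h) q.primeFactors hSp
    rw [← h1, ← hR]
    congr 1
    apply filter_congr
    intro b _
    have h2 : ∀ p : ℕ, (p ∣ b ↔ p ∣ b % p) := by
      intro p
      rw [Nat.dvd_iff_mod_eq_zero, Nat.dvd_iff_mod_eq_zero, Nat.mod_mod]
    have h3 : ∀ p : ℕ, (p ∣ b + h ↔ p ∣ b % p + h) := by
      intro p
      have e : b + h = (b % p + h) + p * (b / p) := by
        have := Nat.mod_add_div b p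
        omega
      rw [e]
      exact (Nat.dvd_add_iff_left (dvd_mul_right _ _)).symm
    constructor
    · intro h p hp
      obtain ⟨h4, h5⟩ := h p hp
      exact ⟨fun h6 => h4 ((h2 p).2 h6), fun h6 => h5 ((h3 p).2 h6)⟩
    · intro h p hp
      obtain ⟨h4, h5⟩ := h p hp
      exact ⟨fun h6 => h4 ((h2 p).1 h6), fun h6 => h5 ((h3 p).1 h6)⟩
  rw [e2]
  push_cast
  rw [prod_congr rfl (fun p hp => cnt_prime p h (hSp p hp)), prod_mul_distrib]
  have h1 := Nat.totient_mul_prod_primeFactors q
  rw [← hR] at h1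
  have h2 : (Nat.totient q : ℝ) * R = q * ∏ p ∈ q.primeFactors, ((p : ℝ) - 1) := by
    have h3 : ((Nat.totient q * R : ℕ) : ℝ) = ((q * ∏ p ∈ q.primeFactors, (p - 1) : ℕ) : ℝ) := by rw [h1]
    push_cast at h3
    rw [h3]
    congr 1
    apply prod_congr rfl
    intro p hp
    rw [Nat.cast_sub (hSp p hp).one_le]
    push_cast
    ring
  have h4 : (q : ℝ) = R * m := by rw [hm]; push_cast; ring
  have hRr : (R : ℝ) ≠ 0 := by
    have : (1 : ℝ) ≤ R := by exact_mod_cast hR1
    linarith
  have h5 : (Nat.totient q : ℝ) = m * ∏ p ∈ q.primeFactors, ((p : ℝ) - 1) := by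
    rw [h4] at h2
    apply mul_right_cancel₀ hRr
    rw [h2]
    ring
  rw [h5]
  ring


/-- the number of the admissible classes as a product -/
lemma cnt_eq2 (q h : ℕ) (hq : 1 ≤ q) :
    (Cnt q h : ℝ) = q * ∏ p ∈ q.primeFactors, (1 - ((if p ∣ h then 1 else 2 : ℕ) : ℝ) / p) := by
  have h1 : (Nat.totient q : ℝ) = q * ∏ p ∈ q.primeFactors, (1 - (p : ℝ)⁻¹) := by
    have h2 := congrArg (fun r : ℚ => (r : ℝ)) (Nat.totient_eq_mul_prod_factors q)
    push_cast at h2
    exact h2
  rw [cnt_eq q h hq, h1, mul_assoc, ← prod_mul_distrib]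
  congr 1
  refine prod_congr rfl fun p hp => ?_
  have hpp := Nat.prime_of_mem_primeFactors hp
  have hp2 : (2 : ℝ) ≤ p := by exact_mod_cast hpp.two_le
  have h3 : (p : ℝ) ≠ 0 := by linarith
  have h4 : (p : ℝ) - 1 ≠ 0 := by linarith
  split_ifs
  · push_cast
    field_simp
  · push_cast
    field_simp
    ring

/-- the system `X`, `X + d` -/
noncomputable def fd (d : ℕ) : Fin 2 → Polynomial ℤ :=
  ![Polynomial.X, Polynomial.X + Polynomial.C (d : ℤ)]

lemma fd_zero (d : ℕ) (n : ℤ) : (fd d 0).eval n = n := by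
  simp [fd]

lemma fd_one (d : ℕ) (n : ℤ) : (fd d 1).eval n = n + d := by
  simp [fd]

lemma fd_inj {d : ℕ} (hd : 0 < d) : Function.Injective (fd d) := by
  have h : fd d 0 ≠ fd d 1 := by
    intro h
    have := congrArg (fun f : Polynomial ℤ => f.eval 0) h
    simp only [fd_zero, fd_one] at this
    omega
  intro i j hij
  fin_cases i <;> fin_cases j
  · rfl
  · exact absurd hij h
  · exact absurd hij.symm h
  · rfl

lemma fd_deg (d : ℕ) (i : Fin 2) : 0 < (fd d i).natDegree ∧ 0 < (fd d i).leadingCoeff := by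
  fin_cases i
  · show 0 < (Polynomial.X : Polynomial ℤ).natDegree ∧ 0 < (Polynomial.X : Polynomial ℤ).leadingCoeff
    rw [Polynomial.natDegree_X, Polynomial.leadingCoeff_X]
    norm_num
  · show 0 < (Polynomial.X + Polynomial.C (d : ℤ)).natDegree ∧
      0 < (Polynomial.X + Polynomial.C (d : ℤ)).leadingCoeff
    rw [Polynomial.natDegree_X_add_C, Polynomial.leadingCoeff_X_add_C]
    norm_num

/-- the number of the bad classes of the pair -/
lemma nu_fd (d : ℕ) (a : (p : Nat.Primes) → ZMod (p : ℕ)) (p : Nat.Primes) :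
    nu (fd d) a p = if (p : ℕ) ∣ d then 1 else 2 := by
  classical
  unfold nu
  have h1 : (range (p : ℕ)).filter (fun m : ℕ => ∃ i, (((fd d i).eval (m : ℤ) : ℤ) : ZMod (p : ℕ)) = a p) =
      ({a p, a p - (d : ZMod (p : ℕ))} : Finset (ZMod (p : ℕ))).image ZMod.val := by
    ext m
    rw [mem_filter, mem_range, mem_image, Fin.exists_fin_two, fd_zero, fd_one]
    push_cast
    constructor
    · rintro ⟨h1, h2 | h2⟩
      · refine ⟨a p, by simp, ?_⟩
        rw [← h2, ZMod.val_natCast, Nat.mod_eq_of_lt h1]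
      · refine ⟨a p - d, by simp, ?_⟩
        rw [← h2, add_sub_cancel_right, ZMod.val_natCast, Nat.mod_eq_of_lt h1]
    · rintro ⟨c, hc, rfl⟩
      refine ⟨ZMod.val_lt c, ?_⟩
      rw [ZMod.natCast_val, ZMod.cast_id', id]
      rw [mem_insert, mem_singleton] at hc
      rcases hc with rfl | rfl
      · exact Or.inl rfl
      · right
        ring
  have h2 := congrArg Finset.card h1
  rw [card_image_of_injective _ (ZMod.val_injective _)] at h2
  refine Eq.trans ?_ (h2.trans ?_)
  · congr
  split_ifs with h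
  · have h3 : ((d : ℕ) : ZMod (p : ℕ)) = 0 := (ZMod.natCast_eq_zero_iff d (p : ℕ)).mpr h
    rw [h3, sub_zero, pair_eq_singleton, card_singleton]
  · apply card_pair
    intro h4
    apply h
    rw [← ZMod.natCast_eq_zero_iff]
    linear_combination h4

end Pool.Agent.W2helper14.RB
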