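import Pool.Agent.W2helper14.RB.Ap1

set_option autoImplicit false

/-!
The singular series of the pair `X`, `X + d`, `d` even: it is the constant of Hardy and Littlewood.
-/

namespace Pool.Agent.W2helper14.RB

open Finset Filter Topology

/-- the twin prime constant -/
noncomputable def C2 : ℝ := ∏' p : {p : ℕ // p.Prime ∧ 2 < p}, (1 - 1 / (((p : ℕ) : ℝ) - 1) ^ 2)

/-- the product over the odd primes dividing `d` -/
noncomputable def oddP (d : ℕ) : ℝ :=
  ∏ p ∈ d.primeFactors.filter (fun p => 2 < p), (((p : ℝ) - 1) / ((p : ℝ) - 2))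

lemma summable_sq : Summable (fun p : {p : ℕ // p.Prime ∧ 2 < p} => -(1 / (((p : ℕ) : ℝ) - 1) ^ 2)) := by
  have h1 : Summable (fun n : ℕ => 1 / ((n : ℝ) - 1) ^ 2) := by
    rw [← summable_nat_add_iff 1]
    have h2 : Summable (fun n : ℕ => 1 / (n : ℝ) ^ 2) := Real.summable_one_div_nat_pow.2 (by norm_num)
    refine h2.congr fun n => ?_
    push_cast
    rw [add_sub_cancel_right]
  exact (h1.comp_injective Subtype.val_injective).neg

lemma C2_tendsto : Tendsto (fun z : ℕ => ∏ p ∈ (Icc 3 z).filter Nat.Prime, (1 - 1 / ((p : ℝ) - 1) ^ 2))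
    atTop (𝓝 C2) := by
  classical
  have h1 : Multipliable (fun p : {p : ℕ // p.Prime ∧ 2 < p} => 1 - 1 / (((p : ℕ) : ℝ) - 1) ^ 2) := by
    have := Real.multipliable_one_add_of_summable summable_sq
    refine this.congr fun p => ?_
    ring
  have h2 : Tendsto (fun s : Finset {p : ℕ // p.Prime ∧ 2 < p} => ∏ p ∈ s, (1 - 1 / (((p : ℕ) : ℝ) - 1) ^ 2))
      atTop (𝓝 C2) := h1.hasProd
  have h3 : Tendsto (fun z : ℕ => (Icc 3 z).subtype (fun p => p.Prime ∧ 2 < p)) atTop atTop := by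
    apply tendsto_atTop_finset_of_monotone
    · intro y z hyz p hp
      rw [mem_subtype, mem_Icc] at hp ⊢
      exact ⟨hp.1, hp.2.trans hyz⟩
    · intro p
      refine ⟨p, ?_⟩
      rw [mem_subtype, mem_Icc]
      exact ⟨p.2.2, le_rfl⟩
  refine (h2.comp h3).congr fun z => ?_
  simp only [Function.comp_apply]
  rw [prod_subtype_eq_prod_filter (s := Icc 3 z) (p := fun p => p.Prime ∧ 2 < p)
    (f := fun p : ℕ => (1 - 1 / ((p : ℝ) - 1) ^ 2))]
  refine prod_congr ?_ fun _ _ => rfl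
  ext p
  rw [mem_filter, mem_filter, mem_Icc]
  constructor
  · rintro ⟨h, h', _⟩
    exact ⟨h, h'⟩
  · rintro ⟨h, h'⟩
    exact ⟨h, h', by omega⟩

/-- the local factor -/
noncomputable def FFd (d p : ℕ) : ℝ := (1 - ((if p ∣ d then 1 else 2 : ℕ) : ℝ) / p) / (1 - 1 / (p : ℝ)) ^ 2

lemma series_fd (d : ℕ) (a : (p : Nat.Primes) → ZMod (p : ℕ)) (z : ℕ) :
    series (fd d) a z = ∏ p ∈ (Icc 1 z).filter Nat.Prime, FFd d p := by
  unfold series primes
  rw [← prod_subtype_eq_prod_filter (s := Icc 1 z) (p := Nat.Prime) (f := fun p : ℕ => FFd d p)]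
  refine prod_congr rfl fun p _ => ?_
  rw [nu_fd]
  rfl

lemma FFd_two {d : ℕ} (hd : 2 ∣ d) : FFd d 2 = 2 := by
  unfold FFd
  rw [if_pos hd]
  norm_num

lemma FFd_odd (d p : ℕ) (hp : 3 ≤ p) :
    FFd d p = (1 - 1 / ((p : ℝ) - 1) ^ 2) * (if p ∣ d then ((p : ℝ) - 1) / ((p : ℝ) - 2) else 1) := by
  have hp3 : (3 : ℝ) ≤ p := by exact_mod_cast hp
  have h0 : (p : ℝ) ≠ 0 := by linarith
  have h1 : (p : ℝ) - 1 ≠ 0 := by linarith
  have h2 : (p : ℝ) - 2 ≠ 0 := by linarith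
  unfold FFd
  split_ifs
  · push_cast
    field_simp
    ring
  · push_cast
    field_simp
    ring

/-- the partial products -/
lemma series_fd_eq {d : ℕ} (hd : 2 ∣ d) (hd0 : 0 < d) (a : (p : Nat.Primes) → ZMod (p : ℕ)) {z : ℕ} (hz : d ≤ z) :
    series (fd d) a z = 2 * oddP d * ∏ p ∈ (Icc 3 z).filter Nat.Prime, (1 - 1 / ((p : ℝ) - 1) ^ 2) := by
  have hd2 : 2 ≤ d := Nat.le_of_dvd hd0 hd
  rw [series_fd]
  have h1 : (Icc 1 z).filter Nat.Prime = insert 2 ((Icc 3 z).filter Nat.Prime) := by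
    ext p
    rw [mem_filter, mem_insert, mem_filter, mem_Icc, mem_Icc]
    constructor
    · rintro ⟨⟨-, h2⟩, h3⟩
      have := h3.two_le
      rcases Nat.eq_or_lt_of_le this with h | h
      · exact Or.inl h.symm
      · exact Or.inr ⟨⟨h, h2⟩, h3⟩
    · rintro (rfl | ⟨⟨h1, h2⟩, h3⟩)
      · exact ⟨⟨by norm_num, by omega⟩, Nat.prime_two⟩
      · exact ⟨⟨by omega, h2⟩, h3⟩
  rw [h1, prod_insert (by simp), FFd_two hd]
  have h2 : ∏ p ∈ (Icc 3 z).filter Nat.Prime, FFd d p =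
      ∏ p ∈ (Icc 3 z).filter Nat.Prime, ((1 - 1 / ((p : ℝ) - 1) ^ 2) *
        (if p ∣ d then ((p : ℝ) - 1) / ((p : ℝ) - 2) else 1)) := by
    refine prod_congr rfl fun p hp => ?_
    rw [mem_filter, mem_Icc] at hp
    exact FFd_odd d p hp.1.1
  rw [h2, prod_mul_distrib]
  have h3 : ∏ p ∈ (Icc 3 z).filter Nat.Prime, (if p ∣ d then ((p : ℝ) - 1) / ((p : ℝ) - 2) else 1) = oddP d := by
    rw [← prod_filter]
    unfold oddP
    refine prod_congr ?_ fun _ _ => rfl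
    ext p
    rw [mem_filter, mem_filter, mem_filter, mem_Icc, Nat.mem_primeFactors]
    constructor
    · rintro ⟨⟨⟨h1, h2⟩, h3⟩, h4⟩
      exact ⟨⟨h3, h4, by omega⟩, by omega⟩
    · rintro ⟨⟨h1, h2, h3⟩, h4⟩
      have := Nat.le_of_dvd hd0 h2
      exact ⟨⟨⟨by omega, by omega⟩, h1⟩, h2⟩
  rw [h3]
  ring

/-- the singular series -/
lemma series_fd_tendsto {d : ℕ} (hd : 2 ∣ d) (hd0 : 0 < d) (a : (p : Nat.Primes) → ZMod (p : ℕ)) :
    Tendsto (series (fd d) a) atTop (𝓝 (2 * oddP d * C2)) := by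
  refine (C2_tendsto.const_mul (2 * oddP d)).congr' ?_
  filter_upwards [eventually_ge_atTop d] with z hz
  exact (series_fd_eq hd hd0 a hz).symm

end Pool.Agent.W2helper14.RB
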