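import Pool.Agent.W2helper14.RB.Ap2

set_option autoImplicit false

/-!
The main term of the pair `X`, `X + d` and the logarithmic integral.
-/

namespace Pool.Agent.W2helper14.RB

open Finset Filter Topology MeasureTheory

/-- the integral `Li_2(x)` -/
noncomputable def Li2 (x : ℝ) : ℝ := ∫ t in (2 : ℝ)..x, 1 / (Real.log t) ^ 2

lemma log8' : (2 : ℝ) ≤ Real.log 8 := by
  have h : Real.log 8 = 3 * Real.log 2 := by
    rw [show (8 : ℝ) = 2 ^ 3 by norm_num, Real.log_pow]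
    norm_num
  have := Real.log_two_gt_d9
  linarith

lemma mainTerm_fd (d x : ℕ) : mainTerm (fd d) x =
    ∑ n ∈ Icc 8 x, 1 / (Real.log n * Real.log ((n : ℝ) + d)) := by
  classical
  unfold mainTerm
  refine sum_congr ?_ fun n _ => ?_
  · ext n
    rw [mem_filter, mem_Icc, mem_Icc, Fin.forall_fin_two, fd_zero, fd_one]
    constructor
    · rintro ⟨⟨-, h1⟩, h2, -⟩
      exact ⟨by exact_mod_cast h2, h1⟩
    · rintro ⟨h1, h2⟩
      have : (8 : ℤ) ≤ n := by exact_mod_cast h1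
      exact ⟨⟨by omega, h2⟩, this, by omega⟩
  · rw [Fin.prod_univ_two, fd_zero, fd_one]
    push_cast
    rw [div_mul_div_comm, one_mul]

lemma shift_close (d n : ℕ) (hn : 8 ≤ n) :
    |1 / (Real.log n * Real.log ((n : ℝ) + d)) - 1 / Real.log n ^ 2| ≤ (d : ℝ) / n := by
  have hn8 : (8 : ℝ) ≤ n := by exact_mod_cast hn
  have hn0 : (0 : ℝ) < n := by linarith
  have hd0 : (0 : ℝ) ≤ d := Nat.cast_nonneg _
  have hL : 2 ≤ Real.log n := log8'.trans (Real.log_le_log (by norm_num) hn8)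
  have hM : Real.log n ≤ Real.log ((n : ℝ) + d) := Real.log_le_log hn0 (by linarith)
  have hdiff : Real.log ((n : ℝ) + d) - Real.log n ≤ d / n := by
    rw [← Real.log_div (by positivity) hn0.ne']
    have h1 := Real.log_le_sub_one_of_pos (show 0 < ((n : ℝ) + d) / n by positivity)
    refine h1.trans (le_of_eq ?_)
    field_simp
    ring
  set L := Real.log n with hLd
  set M := Real.log ((n : ℝ) + d) with hMd
  have hL0 : 0 < L := by linarith
  have hM0 : 0 < M := by linarith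
  have e : 1 / (L * M) - 1 / L ^ 2 = -((M - L) / (L ^ 2 * M)) := by
    field_simp
    ring
  have h2 : 0 ≤ M - L := by linarith
  rw [e, abs_neg, abs_of_nonneg (by positivity)]
  refine le_trans (div_le_self h2 ?_) hdiff
  have : 1 ≤ L ^ 2 := by nlinarith
  nlinarith

lemma sum_inv_le (x : ℕ) : ∑ n ∈ Icc 8 x, (1 : ℝ) / n ≤ 1 + Real.log x := by
  have h1 : ∑ n ∈ Icc 8 x, (1 : ℝ) / n ≤ ∑ n ∈ Icc 1 x, (1 : ℝ) / n := by
    apply sum_le_sum_of_subset_of_nonneg
    · exact Icc_subset_Icc (by norm_num) le_rfl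
    · intro i _ _
      positivity
  refine h1.trans ?_
  have h2 := harmonic_le_one_add_log x
  have h3 : ((harmonic x : ℚ) : ℝ) = ∑ n ∈ Icc 1 x, (1 : ℝ) / n := by
    rw [harmonic_eq_sum_Icc]
    push_cast
    exact sum_congr rfl fun n _ => by rw [one_div]
  rw [← h3]
  exact h2

lemma anti_f : AntitoneOn (fun t : ℝ => 1 / Real.log t ^ 2) (Set.Ici 2) := by
  intro s hs t ht hst
  have hs2 : (2 : ℝ) ≤ s := hs
  have h1 : 0 < Real.log s := Real.log_pos (by linarith)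
  have h2 : Real.log s ≤ Real.log t := Real.log_le_log (by linarith) hst
  exact one_div_le_one_div_of_le (by positivity) (pow_le_pow_left₀ h1.le h2 2)

lemma f_le {t : ℝ} (ht : 2 ≤ t) : 0 ≤ 1 / Real.log t ^ 2 ∧ 1 / Real.log t ^ 2 ≤ 4 := by
  have h1 : Real.log 2 ≤ Real.log t := Real.log_le_log (by norm_num) ht
  have h2 := Real.log_two_gt_d9
  have h3 : 0 < Real.log t := by linarith
  refine ⟨by positivity, ?_⟩
  rw [div_le_iff₀ (by positivity)]
  nlinarith

lemma f_int {a b : ℝ} (ha : 2 ≤ a) (hab : a ≤ b) :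
    IntervalIntegrable (fun t : ℝ => 1 / Real.log t ^ 2) volume a b := by
  apply AntitoneOn.intervalIntegrable
  apply anti_f.mono
  rw [Set.uIcc_of_le hab]
  intro t ht
  exact ha.trans ht.1

lemma int_bound {a b : ℝ} (ha : 2 ≤ a) (hab : a ≤ b) :
    0 ≤ ∫ t in a..b, 1 / Real.log t ^ 2 ∧ ∫ t in a..b, 1 / Real.log t ^ 2 ≤ 4 * (b - a) := by
  constructor
  · apply intervalIntegral.integral_nonneg hab
    intro t ht
    exact (f_le (ha.trans ht.1)).1
  · have h1 := intervalIntegral.integral_mono_on (g := fun _ => (4 : ℝ)) hab (f_int ha hab)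
      intervalIntegrable_const (fun t ht => (f_le (ha.trans ht.1)).2)
    rw [intervalIntegral.integral_const, smul_eq_mul] at h1
    linarith

lemma sum_close (x : ℕ) (hx : 8 ≤ x) :
    |∑ n ∈ Icc 8 x, 1 / Real.log n ^ 2 - Li2 x| ≤ 28 := by
  obtain ⟨N, rfl⟩ : ∃ N, x = 8 + N := ⟨x - 8, by omega⟩
  have hanti : AntitoneOn (fun t : ℝ => 1 / Real.log t ^ 2) (Set.Icc (8 : ℝ) (8 + (N : ℕ))) := by
    apply anti_f.mono
    intro t ht
    have := ht.1
    show (2 : ℝ) ≤ t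
    linarith
  have h1 := hanti.sum_le_integral
  have h2 := hanti.integral_le_sum
  have hsplit : Li2 ((8 + N : ℕ) : ℝ) = (∫ t in (2 : ℝ)..8, 1 / Real.log t ^ 2) +
      ∫ t in (8 : ℝ)..(8 + (N : ℕ)), 1 / Real.log t ^ 2 := by
    unfold Li2
    push_cast
    have hN : (0 : ℝ) ≤ N := Nat.cast_nonneg _
    exact (intervalIntegral.integral_add_adjacent_intervals (f_int le_rfl (by norm_num))
      (f_int (by norm_num) (by linarith))).symm
  have h3 := int_bound (a := 2) (b := 8) le_rfl (by norm_num)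
  have hS : ∑ n ∈ Icc 8 (8 + N), 1 / Real.log (n : ℕ) ^ 2 =
      1 / Real.log 8 ^ 2 + ∑ i ∈ range N, 1 / Real.log (8 + ((i + 1 : ℕ) : ℝ)) ^ 2 := by
    have e1 : Icc 8 (8 + N) = Ico 8 (8 + (N + 1)) := by
      ext n; rw [mem_Icc, mem_Ico]; omega
    rw [e1, sum_Ico_eq_sum_range, show 8 + (N + 1) - 8 = N + 1 by omega, sum_range_succ']
    push_cast
    rw [add_comm]
    try simp
  have hS2 : ∑ n ∈ Icc 8 (8 + N), 1 / Real.log (n : ℕ) ^ 2 =
      ∑ i ∈ range N, 1 / Real.log (8 + ((i : ℕ) : ℝ)) ^ 2 + 1 / Real.log (8 + (N : ℝ)) ^ 2 := by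
    have e1 : Icc 8 (8 + N) = Ico 8 (8 + (N + 1)) := by
      ext n; rw [mem_Icc, mem_Ico]; omega
    rw [e1, sum_Ico_eq_sum_range, show 8 + (N + 1) - 8 = N + 1 by omega, sum_range_succ]
    push_cast
    rfl
  have h4 := f_le (t := 8) (by norm_num)
  have h5 := f_le (t := 8 + (N : ℝ)) (by have : (0 : ℝ) ≤ N := Nat.cast_nonneg _; linarith)
  rw [hsplit, abs_le]
  constructor
  · rw [hS2]
    linarith [h3.2]
  · rw [hS]
    linarith [h3.1]

/-- the main term of the pair is the logarithmic integral -/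
lemma main_close (d : ℕ) : ∃ K : ℝ, 0 ≤ K ∧ ∀ x : ℕ, 3 ≤ x → |mainTerm (fd d) x - Li2 x| ≤ K * (x : ℝ) ^ (1 / 2 : ℝ) := by
  have hd0 : (0 : ℝ) ≤ d := Nat.cast_nonneg _
  refine ⟨60 + 3 * d, by positivity, fun x hx => ?_⟩
  have hx1 : (1 : ℝ) ≤ x := by exact_mod_cast (by omega : 1 ≤ x)
  have hr1 : (1 : ℝ) ≤ (x : ℝ) ^ (1 / 2 : ℝ) := Real.one_le_rpow hx1 (by norm_num)
  rcases Nat.lt_or_ge x 8 with h | h
  · have h1 : mainTerm (fd d) x = 0 := by
      rw [mainTerm_fd, Icc_eq_empty (by omega), sum_empty]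
    have h2 := int_bound (a := 2) (b := x) le_rfl (by exact_mod_cast (by omega : 2 ≤ x))
    have h3 : (x : ℝ) ≤ 8 := by exact_mod_cast h.le
    have h4 : Li2 x = ∫ t in (2 : ℝ)..x, 1 / Real.log t ^ 2 := rfl
    rw [h1, zero_sub, abs_neg, h4, abs_of_nonneg h2.1]
    nlinarith [h2.2]
  · have h1 := sum_close x h
    have h2 : |mainTerm (fd d) x - ∑ n ∈ Icc 8 x, 1 / Real.log n ^ 2| ≤ d * (1 + Real.log x) := by
      rw [mainTerm_fd, ← sum_sub_distrib]
      refine (abs_sum_le_sum_abs _ _).trans ?_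
      calc ∑ n ∈ Icc 8 x, |1 / (Real.log n * Real.log ((n : ℝ) + d)) - 1 / Real.log n ^ 2|
          ≤ ∑ n ∈ Icc 8 x, (d : ℝ) * (1 / n) := by
            refine sum_le_sum fun n hn => ?_
            rw [mul_one_div]
            exact shift_close d n (mem_Icc.mp hn).1
        _ = d * ∑ n ∈ Icc 8 x, (1 : ℝ) / n := by rw [mul_sum]
        _ ≤ d * (1 + Real.log x) := mul_le_mul_of_nonneg_left (sum_inv_le x) hd0
    have h3 : Real.log x ≤ 2 * (x : ℝ) ^ (1 / 2 : ℝ) := by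
      have h4 := Real.log_le_rpow_div (x := (x : ℝ)) (by linarith) (show (0 : ℝ) < 1 / 2 by norm_num)
      linarith
    have h5 := abs_sub_le (mainTerm (fd d) x) (∑ n ∈ Icc 8 x, 1 / Real.log n ^ 2) (Li2 x)
    have h6 : (d : ℝ) * (1 + Real.log x) ≤ d * (3 * (x : ℝ) ^ (1 / 2 : ℝ)) :=
      mul_le_mul_of_nonneg_left (by linarith) hd0
    nlinarith

end Pool.Agent.W2helper14.RB
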