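import Pool.Agent.W2helper14.RB.Ap3

set_option autoImplicit false

/-!
Pairs in progressions in the random sieve model: the assembly.
-/

namespace Pool.Agent.W2helper14.RB

open Finset Filter Topology MeasureTheory Polynomial
open Pool.Agent.H373R2.T7 (nuB)
open Pool.Agent.W2helper64.BH (Hit AllR PP HH)

/-- the number of `1 ≤ n ≤ x` in a residue class all of whose values lie in the random set -/
noncomputable def cq {g : ℕ} (f : Fin g → ℤ[X]) (a : (p : Nat.Primes) → ZMod (p : ℕ)) (q b x : ℕ) : ℕ :=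
  (@Finset.filter ℕ (fun n => n % q = b % q ∧ AllR f a n) (Classical.decPred _) (Icc 1 x)).card

/-- the (expected) number of the admissible classes -/
noncomputable def pq {g : ℕ} (f : Fin g → ℤ[X]) (a : (p : Nat.Primes) → ZMod (p : ℕ)) (q : ℕ) : ℝ :=
  q * ∏ p ∈ q.primeFactors, (1 - (nuB (Hit f a) p : ℝ) / p)

/-- the engine -/
def ModStm (a : (p : Nat.Primes) → ZMod (p : ℕ)) : Prop :=
  ∀ (g : ℕ) (f : Fin g → ℤ[X]), Function.Injective f → (∀ i, 0 < (f i).natDegree) →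
    (∀ i, 0 < (f i).leadingCoeff) →
      ∃ S : ℝ, 0 ≤ S ∧ Tendsto (fun z : ℕ => PP f a z / Pool.Agent.W2helper64.RS.V z ^ g) atTop (𝓝 S) ∧
        (0 < S ↔ ∀ p : Nat.Primes, nuB (Hit f a) (p : ℕ) < (p : ℕ)) ∧
        ∀ (B : ℕ) (ε : ℝ), 0 < ε → ∃ K : ℝ, ∀ x : ℕ, 1 ≤ x → ∀ q : ℕ, 1 ≤ q → (q : ℝ) ≤ Real.log x ^ B →
          ∀ b : ℕ, (∀ p ∈ q.primeFactors, ¬ Hit f a p b) →
            |(cq f a q b x : ℝ) - S / pq f a q * HH f x| ≤ K * (x : ℝ) ^ (1 / 2 + ε)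

/-- the number of `p` with `p, p + d ∈ R`, `p + d ≤ x` and `p ≡ b` modulo `q` -/
noncomputable def prs (a : (p : Nat.Primes) → ZMod (p : ℕ)) (d : ℕ) (x : ℝ) (b q : ℕ) : ℕ :=
  {p : ℕ | p ∈ R a ∧ p + d ∈ R a ∧ (p : ℝ) + d ≤ x ∧ p ≡ b [MOD q]}.ncard

lemma log_three : (1.039 : ℝ) ≤ Real.log 3 := by
  have h1 : Real.log 8 ≤ Real.log 9 := Real.log_le_log (by norm_num) (by norm_num)
  have h2 : Real.log 8 = 3 * Real.log 2 := by
    rw [show (8 : ℝ) = 2 ^ 3 by norm_num, Real.log_pow]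
    norm_num
  have h3 : Real.log 9 = 2 * Real.log 3 := by
    rw [show (9 : ℝ) = 3 ^ 2 by norm_num, Real.log_pow]
    norm_num
  have := Real.log_two_gt_d9
  linarith

lemma log_floor {x : ℝ} (hx : 3 ≤ x) : 1 ≤ Real.log x ∧ Real.log x ≤ Real.log (⌊x⌋₊ : ℝ) ^ 12 := by
  have hx0 : 0 < x := by linarith
  set n := ⌊x⌋₊ with hn
  have hn3 : 3 ≤ n := Nat.le_floor (by exact_mod_cast hx)
  have hn3r : (3 : ℝ) ≤ n := by exact_mod_cast hn3
  have hn0 : (0 : ℝ) < n := by linarith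
  have hL : 1.039 ≤ Real.log n := log_three.trans (Real.log_le_log (by norm_num) hn3r)
  have h3x : (1.039 : ℝ) ≤ Real.log x := log_three.trans (Real.log_le_log (by norm_num) hx)
  have h1 : Real.log x ≤ Real.log ((n : ℝ) + 1) := Real.log_le_log hx0 (Nat.lt_floor_add_one x).le
  have h2 : Real.log ((n : ℝ) + 1) - Real.log n ≤ 1 / n := by
    rw [← Real.log_div (by positivity) hn0.ne']
    have h1 := Real.log_le_sub_one_of_pos (show 0 < ((n : ℝ) + 1) / n by positivity)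
    refine h1.trans (le_of_eq ?_)
    field_simp
    ring
  have h3 : (1 : ℝ) / n ≤ 1 / 3 := one_div_le_one_div_of_le (by norm_num) hn3r
  refine ⟨by linarith, ?_⟩
  set L := Real.log n
  have h4 : 1 + (11 : ℕ) * (L - 1) ≤ (1 + (L - 1)) ^ 11 := one_add_mul_le_pow (by linarith) 11
  push_cast at h4
  have h5 : (1 + (L - 1)) ^ 11 = L ^ 11 := by congr 1; ring
  rw [h5] at h4
  have h6 : L * 1.42 ≤ L * L ^ 11 := mul_le_mul_of_nonneg_left (by linarith) (by linarith)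
  have h7 : L ^ 12 = L * L ^ 11 := by ring
  rw [h7]
  linarith

lemma pq_fd (d : ℕ) (a : (p : Nat.Primes) → ZMod (p : ℕ)) (q : ℕ) (hq : 1 ≤ q) :
    pq (fd d) a q = Cnt q d := by
  rw [cnt_eq2 q d hq]
  unfold pq
  congr 1
  refine prod_congr rfl fun p hp => ?_
  have hpp := Nat.prime_of_mem_primeFactors hp
  have h1 := Pool.Agent.W2helper64.BH.nuB_eq (fd d) a ⟨p, hpp⟩
  have h2 := nu_fd d a ⟨p, hpp⟩
  have h3 : Pool.Agent.W2helper64.BH.nuR (fd d) p (a ⟨p, hpp⟩) = nu (fd d) a ⟨p, hpp⟩ := by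
    unfold nu Pool.Agent.W2helper64.BH.nuR
    congr 1
    ext m
    rw [Pool.Agent.W2helper64.RK.mf', Pool.Agent.W2helper64.RK.mf', Pool.Agent.W2helper64.BH.mem_Im]
  have h4 : nuB (Hit (fd d) a) p = if p ∣ d then 1 else 2 := by
    refine Eq.trans h1 ?_
    rw [h3, h2]
  rw [h4]

lemma allR_fd (d : ℕ) (a : (p : Nat.Primes) → ZMod (p : ℕ)) (n : ℕ) :
    AllR (fd d) a n ↔ n ∈ R a ∧ n + d ∈ R a := by
  unfold AllR
  rw [Fin.forall_fin_two, fd_zero, fd_one]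
  constructor
  · rintro ⟨⟨r, hr, h1⟩, s, hs, h2⟩
    have e1 : r = n := by exact_mod_cast h1
    have e2 : s = n + d := by exact_mod_cast h2
    subst e1
    subst e2
    exact ⟨hr, hs⟩
  · rintro ⟨h1, h2⟩
    exact ⟨⟨n, h1, rfl⟩, n + d, h2, by push_cast; ring⟩

lemma R_ge {a : (p : Nat.Primes) → ZMod (p : ℕ)} {n : ℕ} (h : n ∈ R a) : 1 ≤ n := by
  have h1 : (1 : ℝ) ≤ Real.exp 2 := Real.one_le_exp (by norm_num)
  exact_mod_cast h1.trans h.1

lemma prs_close (a : (p : Nat.Primes) → ZMod (p : ℕ)) (d : ℕ) {x : ℝ} (hx : 0 ≤ x) (b q : ℕ) :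
    |(prs a d x b q : ℝ) - cq (fd d) a q b ⌊x⌋₊| ≤ d := by
  classical
  set n := ⌊x⌋₊ with hn
  set T := @Finset.filter ℕ (fun m => m % q = b % q ∧ AllR (fd d) a m) (Classical.decPred _) (Icc 1 n) with hT
  set A := T.filter (fun m => m + d ≤ n) with hA
  set A' := T.filter (fun m => ¬ m + d ≤ n) with hA'
  have h1 : {p : ℕ | p ∈ R a ∧ p + d ∈ R a ∧ (p : ℝ) + d ≤ x ∧ p ≡ b [MOD q]} = (A : Set ℕ) := by
    ext p
    rw [Finset.mem_coe, hA, Finset.mem_filter, hT, Pool.Agent.W2helper64.RK.mf', allR_fd, mem_Icc]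
    have hiff : (p : ℝ) + d ≤ x ↔ p + d ≤ n := by
      rw [hn, Nat.le_floor_iff hx]
      push_cast
      rfl
    show (p ∈ R a ∧ p + d ∈ R a ∧ (p : ℝ) + d ≤ x ∧ p ≡ b [MOD q]) ↔ _
    rw [hiff]
    constructor
    · rintro ⟨h1, h2, h3, h4⟩
      exact ⟨⟨⟨R_ge h1, by omega⟩, h4, h1, h2⟩, h3⟩
    · rintro ⟨⟨⟨-, -⟩, h4, h1, h2⟩, h3⟩
      exact ⟨h1, h2, h3, h4⟩
  have h2 : prs a d x b q = A.card := by
    unfold prs
    rw [h1, Set.ncard_coe_finset]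
  have h3 : cq (fd d) a q b n = A.card + A'.card := by
    unfold cq
    rw [← hT]
    exact (card_filter_add_card_filter_not _).symm
  have h4 : A'.card ≤ d := by
    have h5 : A' ⊆ Ioc (n - d) n := by
      intro m hm
      rw [hA', Finset.mem_filter, hT, Pool.Agent.W2helper64.RK.mf', mem_Icc] at hm
      rw [mem_Ioc]
      omega
    refine (card_le_card h5).trans ?_
    rw [Nat.card_Ioc]
    omega
  rw [h2, h3]
  push_cast
  have h5 : ((A'.card : ℕ) : ℝ) ≤ d := by exact_mod_cast h4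
  have h6 : (0 : ℝ) ≤ ((A'.card : ℕ) : ℝ) := Nat.cast_nonneg _
  rw [abs_le]
  constructor <;> linarith

theorem ap_of (a : (p : Nat.Primes) → ZMod (p : ℕ)) (h : ModStm a) : ∀ d : ℕ, 0 < d → Even d →
    ∀ B ε : ℝ, 0 < ε → ∃ K : ℝ, ∀ x : ℝ, 3 ≤ x → ∀ q b : ℕ, 0 < q → (q : ℝ) ≤ Real.log x ^ B →
      (∀ w : Nat.Primes, (w : ℕ) ∣ q → (b : ZMod (w : ℕ)) ≠ a w ∧ ((b + d : ℕ) : ZMod (w : ℕ)) ≠ a w) →
      |(prs a d x b q : ℝ) - 2 / (Cnt q d : ℝ) * oddP d * C2 * Li2 x| ≤ K * x ^ (1 / 2 + ε) := by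
  intro d hd hev B ε hε
  obtain ⟨S, hS0, hS1, -, hS3⟩ := h 2 (fd d) (fd_inj hd) (fun i => (fd_deg d i).1) (fun i => (fd_deg d i).2)
  have hS : S = 2 * oddP d * C2 := by
    refine tendsto_nhds_unique hS1 ?_
    refine (series_fd_tendsto hev.two_dvd hd a).congr fun z => ?_
    rw [series_eq]
  set N : ℕ := ⌈B⌉₊ with hN
  obtain ⟨K1, hK1⟩ := hS3 (12 * N) ε hε
  obtain ⟨K2, hK20, hK2⟩ := main_close d
  refine ⟨d + |K1| + S * (K2 + 4), fun x hx q b hq hqB hadm => ?_⟩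
  have hx0 : 0 < x := by linarith
  set n := ⌊x⌋₊ with hn
  have hn3 : 3 ≤ n := Nat.le_floor (by exact_mod_cast hx)
  have hnx : (n : ℝ) ≤ x := Nat.floor_le hx0.le
  have hnx1 : x < (n : ℝ) + 1 := Nat.lt_floor_add_one x
  have hn3r : (3 : ℝ) ≤ n := by exact_mod_cast hn3
  obtain ⟨hl1, hl2⟩ := log_floor hx
  have hqn : (q : ℝ) ≤ Real.log n ^ (12 * N) := by
    calc (q : ℝ) ≤ Real.log x ^ B := hqB
      _ ≤ Real.log x ^ (N : ℝ) := Real.rpow_le_rpow_of_exponent_le hl1 (Nat.le_ceil B)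
      _ = Real.log x ^ N := Real.rpow_natCast _ _
      _ ≤ (Real.log n ^ 12) ^ N := pow_le_pow_left₀ (by linarith) hl2 N
      _ = Real.log n ^ (12 * N) := by rw [← pow_mul]
  have h1 := hK1 n (by omega) q hq hqn b (by
    intro p hp ⟨hpp, i, hi⟩
    obtain ⟨e1, e2⟩ := hadm ⟨p, hpp⟩ (Nat.dvd_of_mem_primeFactors hp)
    fin_cases i
    · apply e1
      rw [← hi]
      show _ = ((((fd d) 0).eval (b : ℤ) : ℤ) : ZMod p)
      rw [fd_zero]
      push_cast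
      rfl
    · apply e2
      rw [← hi]
      show _ = ((((fd d) 1).eval (b : ℤ) : ℤ) : ZMod p)
      rw [fd_one]
      push_cast
      rfl)
  have hHH : HH (fd d) n = mainTerm (fd d) n := by
    unfold mainTerm HH
    refine Finset.sum_congr ?_ fun _ _ => rfl
    ext m
    rw [Pool.Agent.W2helper64.RK.mf', Pool.Agent.W2helper64.RK.mf']
  rw [pq_fd d a q hq, hHH] at h1
  have h2 := hK2 n hn3
  have h3 := prs_close a d hx0.le b q
  rw [← hn] at h3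
  have h4 : |Li2 n - Li2 x| ≤ 4 := by
    have h5 := int_bound (a := n) (b := x) (by linarith) hnx
    have h6 : Li2 x = Li2 n + ∫ t in (n : ℝ)..x, 1 / Real.log t ^ 2 := by
      unfold Li2
      exact (intervalIntegral.integral_add_adjacent_intervals (f_int le_rfl (by linarith))
        (f_int (by linarith) hnx)).symm
    rw [h6, sub_add_cancel_left, abs_neg, abs_of_nonneg h5.1]
    linarith [h5.2]
  have hc0 : 0 ≤ S / (Cnt q d : ℝ) := div_nonneg hS0 (Nat.cast_nonneg _)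
  have hc1 : S / (Cnt q d : ℝ) ≤ S := by
    rcases Nat.eq_zero_or_pos (Cnt q d) with h5 | h5
    · rw [h5, Nat.cast_zero, div_zero]
      exact hS0
    · exact div_le_self hS0 (by exact_mod_cast h5)
  have hM : 2 / (Cnt q d : ℝ) * oddP d * C2 * Li2 x = S / (Cnt q d : ℝ) * Li2 x := by
    rw [hS]
    ring
  rw [hM]
  have hr1 : (1 : ℝ) ≤ x ^ (1 / 2 + ε) := Real.one_le_rpow (by linarith) (by linarith)
  have hr2 : (n : ℝ) ^ (1 / 2 + ε) ≤ x ^ (1 / 2 + ε) := Real.rpow_le_rpow (Nat.cast_nonneg _) hnx (by linarith)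
  have hr3 : (n : ℝ) ^ (1 / 2 : ℝ) ≤ x ^ (1 / 2 + ε) :=
    (Real.rpow_le_rpow (Nat.cast_nonneg _) hnx (by norm_num)).trans
      (Real.rpow_le_rpow_of_exponent_le (by linarith) (by linarith))
  have hr0 : 0 ≤ (n : ℝ) ^ (1 / 2 + ε) := Real.rpow_nonneg (Nat.cast_nonneg _) _
  have e1 : |(cq (fd d) a q b n : ℝ) - S / (Cnt q d : ℝ) * mainTerm (fd d) n| ≤ |K1| * x ^ (1 / 2 + ε) := by
    refine h1.trans ((mul_le_mul_of_nonneg_right (le_abs_self K1) hr0).trans ?_)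
    exact mul_le_mul_of_nonneg_left hr2 (abs_nonneg _)
  have e2 : |S / (Cnt q d : ℝ) * mainTerm (fd d) n - S / (Cnt q d : ℝ) * Li2 x| ≤
      S * (K2 + 4) * x ^ (1 / 2 + ε) := by
    rw [← mul_sub, abs_mul, abs_of_nonneg hc0, mul_assoc]
    have h5 := abs_sub_le (mainTerm (fd d) n) (Li2 n) (Li2 x)
    have h6 : |mainTerm (fd d) n - Li2 x| ≤ (K2 + 4) * x ^ (1 / 2 + ε) := by
      have h7 : K2 * (n : ℝ) ^ (1 / 2 : ℝ) ≤ K2 * x ^ (1 / 2 + ε) := mul_le_mul_of_nonneg_left hr3 hK20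
      nlinarith
    exact mul_le_mul hc1 h6 (abs_nonneg _) hS0
  have e3 : (d : ℝ) ≤ d * x ^ (1 / 2 + ε) := le_mul_of_one_le_right (Nat.cast_nonneg _) hr1
  have e4 := abs_sub_le (prs a d x b q : ℝ) (cq (fd d) a q b n) (S / (Cnt q d : ℝ) * Li2 x)
  have e5 := abs_sub_le (cq (fd d) a q b n : ℝ) (S / (Cnt q d : ℝ) * mainTerm (fd d) n)
    (S / (Cnt q d : ℝ) * Li2 x)
  calc |(prs a d x b q : ℝ) - S / (Cnt q d : ℝ) * Li2 x| ≤ d + (|K1| * x ^ (1 / 2 + ε) +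
        S * (K2 + 4) * x ^ (1 / 2 + ε)) := by linarith
    _ ≤ (d + |K1| + S * (K2 + 4)) * x ^ (1 / 2 + ε) := by linarith

end Pool.Agent.W2helper14.RB
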