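import Pool.Agent.W2helper64.BQ.Md2
import Pool.Agent.W2helper14.RB.Ap4

set_option autoImplicit false

/-!
Pairs in progressions in the random sieve model, almost surely (engine of helper64, `W2helper64.BQ.Md1`).
-/

namespace Pool.Agent.W2helper14.RB

open MeasureTheory Filter

theorem ap_ae : ∀ᵐ a ∂law, ∀ d : ℕ, 0 < d → Even d →
    ∀ B ε : ℝ, 0 < ε → ∃ K : ℝ, ∀ x : ℝ, 3 ≤ x → ∀ q b : ℕ, 0 < q → (q : ℝ) ≤ Real.log x ^ B →
      (∀ w : Nat.Primes, (w : ℕ) ∣ q → (b : ZMod (w : ℕ)) ≠ a w ∧ ((b + d : ℕ) : ZMod (w : ℕ)) ≠ a w) →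
      |(prs a d x b q : ℝ) - 2 / (Cnt q d : ℝ) * oddP d * C2 * Li2 x| ≤ K * x ^ (1 / 2 + ε) := by
  show ∀ᵐ a ∂Pool.Agent.W2helper64.RS.law, _
  filter_upwards [Pool.Agent.W2helper64.BQ.ae_mod] with a ha
  exact ap_of a ha

end Pool.Agent.W2helper14.RB
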