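import Pool.Agent.W2helper14.RB.Lin

set_option autoImplicit false

/-!
Sums of terms of the size `κ / log ^ 2 n`.
-/

namespace Pool.Agent.W2helper14.RB

open Filter MeasureTheory Polynomial Topology Asymptotics

/-- the terms `1 / log ^ 2 i` -/
noncomputable def gl (i : ℕ) : ℝ := 1 / Real.log i ^ 2

/-- the comparison function `n / log ^ 2 n` -/
noncomputable def Hl (n : ℕ) : ℝ := n / Real.log n ^ 2

theorem gl_nonneg (i : ℕ) : 0 ≤ gl i := by unfold gl; positivity

theorem Hl_diff : (fun n : ℕ => (Hl (n + 1) - Hl n) - gl n) =o[atTop] gl := by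
  have hlog : Tendsto (fun n : ℕ => Real.log ((n : ℝ) + 1)) atTop atTop := by
    refine Real.tendsto_log_atTop.comp ?_
    exact tendsto_atTop_add_const_right _ _ tendsto_natCast_atTop_atTop
  rw [isLittleO_iff]
  intro c hc
  filter_upwards [hlog.eventually (eventually_ge_atTop (4 / c)), eventually_ge_atTop 3] with n h1 h3
  have hn : (3 : ℝ) ≤ n := by exact_mod_cast h3
  have hL : 0 < Real.log (n : ℝ) := Real.log_pos (by linarith)
  have hL1 : Real.log (n : ℝ) ≤ Real.log ((n : ℝ) + 1) := Real.log_le_log (by linarith) (by linarith)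
  have hL2 : 0 < Real.log ((n : ℝ) + 1) := by linarith
  have hd : Real.log ((n : ℝ) + 1) - Real.log n ≤ 1 / n := by
    rw [← Real.log_div (by positivity) (by positivity)]
    refine (Real.log_le_sub_one_of_pos (by positivity)).trans (le_of_eq ?_)
    field_simp
    ring
  unfold Hl gl
  push_cast
  set u := Real.log (n : ℝ) with hu
  set v := Real.log ((n : ℝ) + 1) with hv
  have e1 : ((n : ℝ) + 1) / v ^ 2 - n / u ^ 2 - 1 / u ^ 2 = -(((n : ℝ) + 1) * (v - u) * (v + u) / (v ^ 2 * u ^ 2)) := by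
    field_simp
    ring
  rw [e1, norm_neg, Real.norm_of_nonneg (by
    have : 0 ≤ v - u := by linarith
    positivity), Real.norm_of_nonneg (by positivity)]
  have h4 : ((n : ℝ) + 1) * (v - u) ≤ 2 := by
    calc ((n : ℝ) + 1) * (v - u) ≤ ((n : ℝ) + 1) * (1 / n) := by gcongr
      _ ≤ 2 := by
        rw [mul_one_div, div_le_iff₀ (by linarith)]
        linarith
  have h5 : v + u ≤ 2 * v := by linarith
  calc ((n : ℝ) + 1) * (v - u) * (v + u) / (v ^ 2 * u ^ 2) ≤ 2 * (2 * v) / (v ^ 2 * u ^ 2) := by gcongr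
    _ = 4 / v * (1 / u ^ 2) := by field_simp; norm_num
    _ ≤ c * (1 / u ^ 2) := by
        gcongr
        rw [div_le_iff₀ hL2]
        rw [div_le_iff₀ hc] at h1
        linarith

theorem sum_gl_atTop : Tendsto (fun n : ℕ => ∑ i ∈ Finset.range n, gl i) atTop atTop := by
  rw [← not_summable_iff_tendsto_nat_atTop_of_nonneg gl_nonneg]
  intro h
  apply Real.not_summable_one_div_natCast
  refine summable_of_isBigO_nat h ?_
  refine IsBigO.of_bound 1 ?_
  filter_upwards [Pool.Agent.W2helper64.BH.ev_pow 2, eventually_ge_atTop 3] with n h1 h3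
  have hn : (3 : ℝ) ≤ n := by exact_mod_cast h3
  have hL : 0 < Real.log (n : ℝ) := Real.log_pos (by linarith)
  unfold gl
  rw [one_mul, Real.norm_of_nonneg (by positivity), Real.norm_of_nonneg (by positivity)]
  exact one_div_le_one_div_of_le (by positivity) h1

theorem sum_gl : (fun n : ℕ => ∑ i ∈ Finset.range n, gl i) ~[atTop] Hl := by
  have h := Hl_diff.sum_range (fun i => gl_nonneg i) sum_gl_atTop
  have h2 : (fun n : ℕ => Hl n - ∑ i ∈ Finset.range n, gl i) =o[atTop] fun n : ℕ => ∑ i ∈ Finset.range n, gl i := by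
    refine h.congr_left fun n => ?_
    rw [Finset.sum_sub_distrib, Finset.sum_range_sub]
    unfold Hl
    simp
  exact (show Hl ~[atTop] _ from h2).symm

theorem sum_asymp (t : ℕ → ℝ) (κ : ℝ) (h : Tendsto (fun i : ℕ => t i * Real.log i ^ 2) atTop (𝓝 κ)) :
    Tendsto (fun n : ℕ => (∑ i ∈ Finset.range n, t i) * Real.log n ^ 2 / n) atTop (𝓝 κ) := by
  have h1 : (fun i : ℕ => t i - κ * gl i) =o[atTop] gl := by
    rw [isLittleO_iff]
    intro c hc
    filter_upwards [h.eventually (Metric.ball_mem_nhds κ hc), eventually_ge_atTop 3] with n h1 h3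
    have hn : (3 : ℝ) ≤ n := by exact_mod_cast h3
    have hL : 0 < Real.log (n : ℝ) := Real.log_pos (by linarith)
    rw [Real.dist_eq] at h1
    unfold gl
    rw [Real.norm_eq_abs, Real.norm_of_nonneg (by positivity)]
    have e : t n - κ * (1 / Real.log n ^ 2) = (t n * Real.log n ^ 2 - κ) * (1 / Real.log n ^ 2) := by
      field_simp
    rw [e, abs_mul, abs_of_nonneg (show (0 : ℝ) ≤ 1 / Real.log n ^ 2 by positivity)]
    gcongr
  have h2 := h1.sum_range (fun i => gl_nonneg i) sum_gl_atTop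
  have h3 : Tendsto (fun n : ℕ => (∑ i ∈ Finset.range n, (t i - κ * gl i)) / (∑ i ∈ Finset.range n, gl i)) atTop (𝓝 0) :=
    h2.tendsto_div_nhds_zero
  have hev : ∀ᶠ n : ℕ in atTop, (∑ i ∈ Finset.range n, gl i) ≠ 0 := by
    filter_upwards [sum_gl_atTop.eventually (eventually_gt_atTop 0)] with n hn
    exact hn.ne'
  have h4 : Tendsto (fun n : ℕ => (∑ i ∈ Finset.range n, t i) / (∑ i ∈ Finset.range n, gl i)) atTop (𝓝 κ) := by
    have h5 := h3.add_const κ
    rw [zero_add] at h5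
    refine h5.congr' ?_
    filter_upwards [hev] with n hn
    rw [Finset.sum_sub_distrib, ← Finset.mul_sum]
    field_simp
    ring
  have hHev : ∀ᶠ n : ℕ in atTop, Hl n ≠ 0 := by
    filter_upwards [eventually_ge_atTop 3] with n h3
    have hn : (3 : ℝ) ≤ n := by exact_mod_cast h3
    have hL : 0 < Real.log (n : ℝ) := Real.log_pos (by linarith)
    unfold Hl
    positivity
  have h6 : Tendsto (fun n : ℕ => (∑ i ∈ Finset.range n, gl i) / Hl n) atTop (𝓝 1) :=
    (isEquivalent_iff_tendsto_one hHev).mp sum_gl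
  have h7 := h4.mul h6
  rw [mul_one] at h7
  refine h7.congr' ?_
  filter_upwards [hev, hHev] with n hn hH
  rw [div_mul_div_cancel₀ hn]
  unfold Hl
  rw [div_div_eq_mul_div]

/-- the terms of the main term -/
noncomputable def tm {g : ℕ} (f : Fin g → ℤ[X]) (n : ℕ) : ℝ := ∏ i, (1 / Real.log (((f i).eval (n : ℤ) : ℤ) : ℝ))

theorem main_asymp {g : ℕ} (f : Fin g → ℤ[X]) (hbig : ∀ᶠ n : ℕ in atTop, ∀ i, 8 ≤ (f i).eval (n : ℤ)) (κ : ℝ)
    (h : Tendsto (fun n : ℕ => tm f n * Real.log n ^ 2) atTop (𝓝 κ)) :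
    Tendsto (fun N : ℕ => mainTerm f N * Real.log N ^ 2 / N) atTop (𝓝 κ) := by
  classical
  set t : ℕ → ℝ := fun n => if 1 ≤ n ∧ ∀ i, 8 ≤ (f i).eval (n : ℤ) then tm f n else 0 with ht
  have h1 : Tendsto (fun i : ℕ => t i * Real.log i ^ 2) atTop (𝓝 κ) := by
    refine h.congr' ?_
    filter_upwards [hbig, eventually_ge_atTop 1] with n hn hn1
    rw [ht]
    simp only
    rw [if_pos ⟨hn1, hn⟩]
  have h2 := sum_asymp t κ h1
  have h3 : Tendsto (fun n : ℕ => t n * Real.log n ^ 2 / n) atTop (𝓝 0) :=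
    h1.div_atTop tendsto_natCast_atTop_atTop
  have h4 := h2.add h3
  rw [add_zero] at h4
  refine h4.congr fun N => ?_
  have h5 : mainTerm f N = ∑ i ∈ Finset.range (N + 1), t i := by
    unfold mainTerm
    rw [ht, ← Finset.sum_filter]
    have : (Finset.filter (fun n : ℕ => ∀ i, 8 ≤ (f i).eval (n : ℤ)) (Finset.Icc 1 N)) =
        (Finset.filter (fun n : ℕ => 1 ≤ n ∧ ∀ i, 8 ≤ (f i).eval (n : ℤ)) (Finset.range (N + 1))) := by
      ext n
      simp only [Finset.mem_filter, Finset.mem_Icc, Finset.mem_range]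
      constructor
      · rintro ⟨⟨h1, h2⟩, h3⟩
        exact ⟨by omega, h1, h3⟩
      · rintro ⟨h1, h2, h3⟩
        exact ⟨⟨h2, by omega⟩, h3⟩
    refine Finset.sum_congr ?_ fun n _ => rfl
    rw [← this]
  rw [h5, Finset.sum_range_succ]
  ring

/-- the asymptotic formula for the number of solutions of a system with main term `κ N / log ^ 2 N` -/
theorem count_asymp {g : ℕ} (f : Fin g → ℤ[X]) (a : (p : Nat.Primes) → ZMod (p : ℕ)) (S κ : ℝ)
    (hm : Tendsto (fun N : ℕ => mainTerm f N * Real.log N ^ 2 / N) atTop (𝓝 κ))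
    (hO : (fun x : ℕ => (count f a x : ℝ) - S * mainTerm f x) =O[atTop] fun x : ℕ => (x : ℝ) ^ (3 / 4 : ℝ)) :
    Tendsto (fun N : ℕ => (count f a N : ℝ) * Real.log N ^ 2 / N) atTop (𝓝 (S * κ)) := by
  have h1 : Tendsto (fun N : ℕ => ((count f a N : ℝ) - S * mainTerm f N) * Real.log N ^ 2 / N) atTop (𝓝 0) := by
    obtain ⟨C, hC, h2⟩ := hO.exists_pos
    rw [IsBigOWith] at h2
    have hz : Tendsto (fun N : ℕ => C * (N : ℝ) ^ (-(1 / 8 : ℝ))) atTop (𝓝 0) := by
      have := ((tendsto_rpow_neg_atTop (show (0 : ℝ) < 1 / 8 by norm_num)).comp tendsto_natCast_atTop_atTop).const_mul C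
      rw [mul_zero] at this
      exact this
    refine squeeze_zero_norm' ?_ hz
    filter_upwards [h2, Pool.Agent.W2helper64.BH.ev_pow (8 * 2), eventually_ge_atTop 3] with N e1 e2 e3
    have hN : (3 : ℝ) ≤ N := by exact_mod_cast e3
    have hN0 : (0 : ℝ) < N := by linarith
    have hL : 0 < Real.log (N : ℝ) := Real.log_pos (by linarith)
    have h4 : Real.log N ^ 2 ≤ (N : ℝ) ^ (1 / 8 : ℝ) := by
      have h5 : (Real.log N ^ 2) ^ (8 : ℕ) ≤ (N : ℝ) := by
        rw [← pow_mul, mul_comm]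
        exact e2
      have h6 := Real.rpow_le_rpow (by positivity) h5 (by norm_num : (0 : ℝ) ≤ 1 / 8)
      rwa [← Real.rpow_natCast (Real.log N ^ 2) 8, ← Real.rpow_mul (by positivity),
        show ((8 : ℕ) : ℝ) * (1 / 8) = 1 by norm_num, Real.rpow_one] at h6
    rw [Real.norm_eq_abs, abs_div, abs_mul, abs_of_nonneg (show (0 : ℝ) ≤ Real.log N ^ 2 by positivity),
      abs_of_nonneg hN0.le]
    rw [Real.norm_eq_abs, Real.norm_of_nonneg (by positivity)] at e1
    calc |(count f a N : ℝ) - S * mainTerm f N| * Real.log N ^ 2 / N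
        ≤ C * (N : ℝ) ^ (3 / 4 : ℝ) * (N : ℝ) ^ (1 / 8 : ℝ) / N := by gcongr
      _ = C * (N : ℝ) ^ (-(1 / 8 : ℝ)) := by
          rw [mul_assoc, ← Real.rpow_add hN0, mul_div_assoc]
          congr 1
          nth_rw 2 [← Real.rpow_one (N : ℝ)]
          rw [← Real.rpow_sub hN0]
          norm_num
  have h2 := h1.add (hm.const_mul S)
  rw [zero_add] at h2
  refine h2.congr fun N => ?_
  ring

end Pool.Agent.W2helper14.RB
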