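import Pool.Agent.W2helper14.RB.Lin

set_option autoImplicit false

/-!
Differences of consecutive cubes in the random sieve set.
-/

namespace Pool.Agent.W2helper14.RB

open Filter MeasureTheory Polynomial Topology

/-- the system consisting of `3 X ^ 2 + 3 X + 1` -/
noncomputable def cub : Fin 1 → ℤ[X] := fun _ => C 3 * X ^ 2 + C 3 * X + C 1

theorem cub_eval (i : Fin 1) (z : ℤ) : (cub i).eval z = 3 * z ^ 2 + 3 * z + 1 := by
  simp [cub]

theorem cub_deg (i : Fin 1) : (cub i).natDegree = 2 ∧ (cub i).leadingCoeff = 3 := by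
  unfold cub
  exact ⟨natDegree_quadratic (by norm_num), leadingCoeff_quadratic (by norm_num)⟩

theorem cub_facts (i : Fin 1) : 0 < (cub i).natDegree ∧ 0 < (cub i).leadingCoeff := by
  rw [(cub_deg i).1, (cub_deg i).2]
  norm_num

theorem cub_inj : Function.Injective cub := fun _ _ _ => Subsingleton.elim _ _

/-- the number of `1 ≤ k ≤ N` with `(k + 1) ^ 3 - k ^ 3 ∈ R` -/
noncomputable def cubans (a : (p : Nat.Primes) → ZMod (p : ℕ)) (N : ℕ) : ℕ :=
  {k : ℕ | 1 ≤ k ∧ k ≤ N ∧ (k + 1) ^ 3 - k ^ 3 ∈ R a}.ncard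

theorem nat_cub (k : ℕ) : (k + 1) ^ 3 - k ^ 3 = 3 * k ^ 2 + 3 * k + 1 := by
  have : (k + 1) ^ 3 = k ^ 3 + (3 * k ^ 2 + 3 * k + 1) := by ring
  omega

theorem cubans_eq (a : (p : Nat.Primes) → ZMod (p : ℕ)) (N : ℕ) : cubans a N = count cub a N := by
  classical
  unfold cubans count
  rw [← Set.ncard_coe_finset]
  congr 1
  ext k
  simp only [Set.mem_ofPred_eq, Finset.coe_filter, Finset.mem_Icc, cub_eval, nat_cub]
  rw [and_assoc]
  refine and_congr_right fun _ => and_congr_right fun _ => ?_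
  constructor
  · intro h _
    exact ⟨_, h, by push_cast; ring⟩
  · intro h
    obtain ⟨r, hr, he⟩ := h 0
    have : r = 3 * k ^ 2 + 3 * k + 1 := by
      have : (r : ℤ) = ((3 * k ^ 2 + 3 * k + 1 : ℕ) : ℤ) := by rw [he]; push_cast; ring
      exact_mod_cast this
    rwa [← this]

/-- the sum of `1 / log ((k + 1) ^ 3 - k ^ 3)` over `2 ≤ k ≤ N` -/
noncomputable def mainC (N : ℕ) : ℝ := ∑ k ∈ Finset.Icc 2 N, 1 / Real.log ((k + 1) ^ 3 - k ^ 3 : ℝ)

theorem mainC_eq (N : ℕ) : mainC N = mainTerm cub N := by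
  classical
  unfold mainC mainTerm
  have hset : (Finset.filter (fun n : ℕ => ∀ i, 8 ≤ (cub i).eval (n : ℤ)) (Finset.Icc 1 N)) = Finset.Icc 2 N := by
    ext n
    simp only [Finset.mem_filter, Finset.mem_Icc, cub_eval]
    constructor
    · rintro ⟨⟨h1, h2⟩, h3⟩
      refine ⟨?_, h2⟩
      by_contra hcon
      have : n = 1 := by omega
      subst this
      have := h3 0
      norm_num at this
    · rintro ⟨h1, h2⟩
      refine ⟨⟨by omega, h2⟩, fun _ => ?_⟩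
      have : (2 : ℤ) ≤ n := by exact_mod_cast h1
      nlinarith
  refine Finset.sum_congr ?_ fun n _ => ?_
  · rw [← hset]
  · rw [Fin.prod_univ_one, cub_eval]
    congr 2
    push_cast
    ring

theorem nu_cub (a : (p : Nat.Primes) → ZMod (p : ℕ)) (p : Nat.Primes) :
    nu cub a p = ((Finset.range (p : ℕ)).filter fun m : ℕ =>
      (3 * (m : ZMod (p : ℕ)) ^ 2 + 3 * (m : ZMod (p : ℕ)) + 1 : ZMod (p : ℕ)) = a p).card := by
  unfold nu
  congr 1
  ext m
  rw [Pool.Agent.W2helper64.RK.mf', Pool.Agent.W2helper64.RK.mf']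
  refine and_congr_right fun _ => ?_
  constructor
  · rintro ⟨i, hi⟩
    rw [cub_eval] at hi
    push_cast at hi
    exact hi
  · intro h
    refine ⟨0, ?_⟩
    rw [cub_eval]
    push_cast
    exact h

theorem nu_cub_two (a : (p : Nat.Primes) → ZMod (p : ℕ)) :
    nu cub a ⟨2, Nat.prime_two⟩ = if a ⟨2, Nat.prime_two⟩ = 0 then 0 else 2 := by
  rw [nu_cub]
  have key : ∀ c : ZMod 2, ((Finset.range 2).filter fun m : ℕ => (3 * (m : ZMod 2) ^ 2 + 3 * (m : ZMod 2) + 1 : ZMod 2) = c).card =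
      if c = 0 then 0 else 2 := by
    decide
  exact key (a ⟨2, Nat.prime_two⟩)

theorem nu_cub_three (a : (p : Nat.Primes) → ZMod (p : ℕ)) :
    nu cub a ⟨3, Nat.prime_three⟩ = if a ⟨3, Nat.prime_three⟩ = 1 then 3 else 0 := by
  rw [nu_cub]
  have key : ∀ c : ZMod 3, ((Finset.range 3).filter fun m : ℕ => (3 * (m : ZMod 3) ^ 2 + 3 * (m : ZMod 3) + 1 : ZMod 3) = c).card =
      if c = 1 then 3 else 0 := by
    decide
  exact key (a ⟨3, Nat.prime_three⟩)

theorem unit6 (p : Nat.Primes) (hp : 5 ≤ (p : ℕ)) : (6 : ZMod (p : ℕ)) ≠ 0 := by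
  intro h
  have h1 : ((6 : ℕ) : ZMod (p : ℕ)) = 0 := by exact_mod_cast h
  rw [ZMod.natCast_eq_zero_iff] at h1
  have h2 : (p : ℕ) ≤ 6 := Nat.le_of_dvd (by norm_num) h1
  have hpp := p.2
  obtain ⟨q, hq⟩ := p
  simp only at hp h1 h2 hpp
  interval_cases q
  · omega
  · exact absurd hpp (by norm_num)

theorem nu_cub_big (a : (p : Nat.Primes) → ZMod (p : ℕ)) (p : Nat.Primes) (hp : 5 ≤ (p : ℕ)) :
    (nu cub a p : ℤ) = quadraticChar (ZMod (p : ℕ)) (12 * a p - 3) + 1 := by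
  classical
  have hchar : ringChar (ZMod (p : ℕ)) ≠ 2 := by
    rw [ZMod.ringChar_zmod_n]
    omega
  have h6 := unit6 p hp
  have h := quadraticChar_card_sqrts hchar (12 * a p - 3)
  rw [← h, nu_cub]
  congr 1
  have : NeZero (p : ℕ) := ⟨p.2.ne_zero⟩
  have h12 : (12 : ZMod (p : ℕ)) ≠ 0 := by
    have e : (12 : ZMod (p : ℕ)) = 2 * 6 := by norm_num
    have h2 : (2 : ZMod (p : ℕ)) ≠ 0 := by
      intro h2
      apply h6
      linear_combination 3 * h2
    rw [e]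
    exact mul_ne_zero h2 h6
  refine Finset.card_bij (fun m _ => (6 * ((m : ℕ) : ZMod (p : ℕ)) + 3)) ?_ ?_ ?_
  · intro m hm
    rw [Finset.mem_filter] at hm
    rw [Set.mem_toFinset]
    show (6 * ((m : ℕ) : ZMod (p : ℕ)) + 3) ^ 2 = 12 * a p - 3
    rw [← hm.2]
    ring
  · intro m hm l hl hml
    rw [Finset.mem_filter, Finset.mem_range] at hm hl
    have h1 : (m : ZMod (p : ℕ)) = l := by
      apply mul_left_cancel₀ h6
      linear_combination hml
    rw [ZMod.natCast_eq_natCast_iff] at h1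
    have h3 : m % (p : ℕ) = l % (p : ℕ) := h1
    rwa [Nat.mod_eq_of_lt hm.1, Nat.mod_eq_of_lt hl.1] at h3
  · intro x hx
    rw [Set.mem_toFinset] at hx
    have hx' : x ^ 2 = 12 * a p - 3 := hx
    set t : ZMod (p : ℕ) := (x - 3) / 6 with ht
    have htx : 6 * t + 3 = x := by
      rw [ht]
      field_simp
      ring
    have htv : ((t.val : ℕ) : ZMod (p : ℕ)) = t := by
      rw [ZMod.natCast_val, ZMod.cast_id', id]
    refine ⟨t.val, ?_, by rw [htv, htx]⟩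
    rw [Finset.mem_filter, Finset.mem_range]
    refine ⟨ZMod.val_lt t, ?_⟩
    rw [htv]
    apply mul_left_cancel₀ h12
    rw [← htx] at hx'
    linear_combination hx'

/-- the product over the primes `5 ≤ w ≤ z` -/
noncomputable def productC (a : (p : Nat.Primes) → ZMod (p : ℕ)) (z : ℕ) : ℝ :=
  ∏ w ∈ primes 5 z, (1 - ((quadraticChar (ZMod (w : ℕ)) (12 * a w - 3) : ℤ) : ℝ) / ((w : ℕ) - 1))

theorem series_cub (a : (p : Nat.Primes) → ZMod (p : ℕ)) (h2 : a ⟨2, Nat.prime_two⟩ = 0)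
    (h3 : a ⟨3, Nat.prime_three⟩ ≠ 1) (z : ℕ) (hz : 3 ≤ z) : series cub a z = 3 * productC a z := by
  classical
  unfold series productC
  have hmem : ∀ (m : ℕ) (p : Nat.Primes), p ∈ primes m z ↔ m ≤ (p : ℕ) ∧ (p : ℕ) ≤ z := by
    intro m p
    have h : p ∈ primes m z ↔ (p : ℕ) ∈ Finset.Icc m z := Finset.mem_subtype
    rw [h, Finset.mem_Icc]
  set q2 : Nat.Primes := ⟨2, Nat.prime_two⟩ with hq2
  set q3 : Nat.Primes := ⟨3, Nat.prime_three⟩ with hq3
  have hins : primes 1 z = insert q2 (insert q3 (primes 5 z)) := by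
    ext p
    rw [Finset.mem_insert, Finset.mem_insert, hmem, hmem]
    have h2 : 2 ≤ (p : ℕ) := p.2.two_le
    constructor
    · rintro ⟨-, h4⟩
      by_cases e2 : (p : ℕ) = 2
      · exact Or.inl (Subtype.ext e2)
      by_cases e3 : (p : ℕ) = 3
      · exact Or.inr (Or.inl (Subtype.ext e3))
      by_cases e4 : (p : ℕ) = 4
      · have := p.2
        rw [e4] at this
        exact absurd this (by norm_num)
      exact Or.inr (Or.inr ⟨by omega, h4⟩)
    · rintro (rfl | rfl | h4)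
      · exact ⟨by norm_num, by show 2 ≤ z; omega⟩
      · exact ⟨by norm_num, hz⟩
      · exact ⟨by omega, h4.2⟩
  have hnot3 : q3 ∉ primes 5 z := by
    rw [hmem]
    intro h
    have : (5 : ℕ) ≤ 3 := h.1
    omega
  have hnot2 : q2 ∉ insert q3 (primes 5 z) := by
    rw [Finset.mem_insert, hmem]
    rintro (h | h)
    · have : (2 : ℕ) = 3 := congrArg Subtype.val h
      omega
    · have : (5 : ℕ) ≤ 2 := h.1
      omega
  rw [hins, Finset.prod_insert hnot2, Finset.prod_insert hnot3, nu_cub_two, nu_cub_three, if_pos h2, if_neg h3]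
  have e2 : (1 - ((0 : ℕ) : ℝ) / ((q2 : ℕ) : ℝ)) / (1 - 1 / ((q2 : ℕ) : ℝ)) ^ 1 = 2 := by
    have : ((q2 : ℕ) : ℝ) = 2 := by
      rw [hq2]
      norm_num
    rw [this]
    norm_num
  have e3 : (1 - ((0 : ℕ) : ℝ) / ((q3 : ℕ) : ℝ)) / (1 - 1 / ((q3 : ℕ) : ℝ)) ^ 1 = 3 / 2 := by
    have : ((q3 : ℕ) : ℝ) = 3 := by
      rw [hq3]
      norm_num
    rw [this]
    norm_num
  rw [e2, e3, ← mul_assoc, show (2 : ℝ) * (3 / 2) = 3 by norm_num]
  congr 1
  refine Finset.prod_congr rfl fun p hp => ?_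
  rw [hmem] at hp
  have hbig := nu_cub_big a p hp.1
  have hp3 : (5 : ℝ) ≤ ((p : ℕ) : ℝ) := by exact_mod_cast hp.1
  have hν : (nu cub a p : ℝ) = ((quadraticChar (ZMod (p : ℕ)) (12 * a p - 3) : ℤ) : ℝ) + 1 := by
    exact_mod_cast hbig
  rw [hν]
  have h1 : ((p : ℕ) : ℝ) ≠ 0 := by linarith
  have h2 : ((p : ℕ) : ℝ) - 1 ≠ 0 := by linarith
  field_simp
  ring

theorem V_pos' (y : ℕ) : 0 < V y := Pool.Agent.W2helper64.BH.V_pos y

/-- elements of `R` avoid the class `a w` from some point on -/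
theorem R_avoid (a : (p : Nat.Primes) → ZMod (p : ℕ)) (w : Nat.Primes) :
    ∃ M : ℕ, ∀ r : ℕ, r ∈ R a → M < r → ((r : ℕ) : ZMod (w : ℕ)) ≠ a w := by
  set T : ℝ := 1 / V (w : ℕ) with hT
  refine ⟨⌈Real.exp T⌉₊, ?_⟩
  intro r hr hMr
  apply hr.2 w
  have h3 : Real.exp T ≤ r := (Nat.le_ceil _).trans (by exact_mod_cast hMr.le)
  have h4 : T ≤ Real.log r := by
    rw [Real.le_log_iff_exp_le (lt_of_lt_of_le (Real.exp_pos T) h3)]
    exact h3
  have h5 := V_pos' (w : ℕ)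
  calc (1 : ℝ) = V (w : ℕ) * T := by rw [hT]; field_simp
    _ ≤ V (w : ℕ) * Real.log r := by gcongr

/-- the set of the `k ≥ 1` with `(k + 1) ^ 3 - k ^ 3 ∈ R` -/
def cubSet (a : (p : Nat.Primes) → ZMod (p : ℕ)) : Set ℕ := {k | 1 ≤ k ∧ (k + 1) ^ 3 - k ^ 3 ∈ R a}

theorem cub_finite (a : (p : Nat.Primes) → ZMod (p : ℕ))
    (h : ¬ (a ⟨2, Nat.prime_two⟩ = 0 ∧ a ⟨3, Nat.prime_three⟩ ≠ 1)) : (cubSet a).Finite := by
  have hbig : ∀ k : ℕ, k ≤ (k + 1) ^ 3 - k ^ 3 := by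
    intro k
    rw [nat_cub]
    nlinarith
  have main : ∀ w : Nat.Primes, (∀ k : ℕ, (((k + 1) ^ 3 - k ^ 3 : ℕ) : ZMod (w : ℕ)) = a w) → (cubSet a).Finite := by
    intro w hw
    obtain ⟨M, hM⟩ := R_avoid a w
    refine (Set.finite_Iic M).subset ?_
    rintro k ⟨-, hk⟩
    by_contra hcon
    rw [Set.mem_Iic, not_le] at hcon
    exact hM _ hk (lt_of_lt_of_le hcon (hbig k)) (hw k)
  by_cases h2 : a ⟨2, Nat.prime_two⟩ = 0
  · have h3 : a ⟨3, Nat.prime_three⟩ = 1 := by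
      by_contra h3
      exact h ⟨h2, h3⟩
    refine main ⟨3, Nat.prime_three⟩ fun k => ?_
    rw [h3, nat_cub]
    show (((3 * k ^ 2 + 3 * k + 1 : ℕ)) : ZMod 3) = 1
    push_cast
    have : (3 : ZMod 3) = 0 := by decide
    rw [this]
    ring
  · refine main ⟨2, Nat.prime_two⟩ fun k => ?_
    rw [nat_cub]
    have key : ∀ c : ZMod 2, c ≠ 0 → c = 1 := by decide
    have e : a ⟨2, Nat.prime_two⟩ = 1 := key _ h2
    rw [e]
    show (((3 * k ^ 2 + 3 * k + 1 : ℕ)) : ZMod 2) = 1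
    push_cast
    have : ∀ x : ZMod 2, 3 * x ^ 2 + 3 * x + 1 = 1 := by decide
    exact this _

theorem cub_ae : ∀ᵐ a ∂law,
    ((cubSet a).Infinite ↔ a ⟨2, Nat.prime_two⟩ = 0 ∧ a ⟨3, Nat.prime_three⟩ ≠ 1) ∧
    (a ⟨2, Nat.prime_two⟩ = 0 → a ⟨3, Nat.prime_three⟩ ≠ 1 →
      ∃ h : ℝ, 0 < h ∧ Tendsto (productC a) atTop (𝓝 h) ∧ ∀ ε : ℝ, 0 < ε →
        (fun N : ℕ => (cubans a N : ℝ) - 3 * h * mainC N) =O[atTop] fun N : ℕ => (N : ℝ) ^ (1 / 2 + ε)) := by
  filter_upwards [general] with a ha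
  obtain ⟨S, hS0, hS1, hS2, -, hS3⟩ := ha 1 cub cub_inj cub_facts
  have hdeg : ∀ i, 2 ≤ (cub i).natDegree := fun i => by rw [(cub_deg i).1]
  have key : a ⟨2, Nat.prime_two⟩ = 0 → a ⟨3, Nat.prime_three⟩ ≠ 1 → 0 < S := by
    intro h2 h3
    rw [hS2]
    intro p
    rw [← nu_lt_iff]
    by_cases hp2 : (p : ℕ) = 2
    · obtain rfl : p = ⟨2, Nat.prime_two⟩ := Subtype.ext hp2
      rw [nu_cub_two, if_pos h2]
      norm_num
    by_cases hp3 : (p : ℕ) = 3
    · obtain rfl : p = ⟨3, Nat.prime_three⟩ := Subtype.ext hp3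
      rw [nu_cub_three, if_neg h3]
      norm_num
    have hp4 : (p : ℕ) ≠ 4 := by
      intro h4
      have := p.2
      rw [h4] at this
      exact absurd this (by norm_num)
    have h2' := p.2.two_le
    have h5 : 5 ≤ (p : ℕ) := by omega
    have h6 := nu_cub_big a p h5
    have h7 : quadraticChar (ZMod (p : ℕ)) (12 * a p - 3) ≤ 1 := by
      rcases quadraticChar_isQuadratic (ZMod (p : ℕ)) (12 * a p - 3) with h | h | h <;> rw [h] <;> norm_num
    have h8 : (nu cub a p : ℤ) < ((p : ℕ) : ℤ) := by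
      have : (5 : ℤ) ≤ ((p : ℕ) : ℤ) := by exact_mod_cast h5
      linarith
    exact_mod_cast h8
  refine ⟨⟨fun hinf => ?_, fun h => ?_⟩, fun h2 h3 => ?_⟩
  · by_contra hcon
    exact hinf (cub_finite a hcon)
  · have hS := key h.1 h.2
    have h1 := count_tendsto cub cub_inj cub_facts a hS (θ := 1 / 2 + 1 / 8) (by norm_num) (hS3 hdeg (1 / 8) (by norm_num))
    intro hfin
    obtain ⟨N, hN⟩ := (h1.eventually (eventually_gt_atTop ((cubSet a).ncard : ℝ))).exists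
    rw [← cubans_eq] at hN
    have h3 : cubans a N ≤ (cubSet a).ncard := by
      unfold cubans
      apply Set.ncard_le_ncard _ hfin
      rintro k ⟨e1, -, e3⟩
      exact ⟨e1, e3⟩
    have h4 : (cubans a N : ℝ) ≤ (cubSet a).ncard := by exact_mod_cast h3
    linarith
  · have hS := key h2 h3
    refine ⟨S / 3, by positivity, ?_, fun ε hε => ?_⟩
    · have h4 : Tendsto (fun z => series cub a z / 3) atTop (𝓝 (S / 3)) := hS1.div_const 3
      refine h4.congr' ?_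
      filter_upwards [eventually_ge_atTop 3] with z hz
      rw [series_cub a h2 h3 z hz]
      ring
    · refine (hS3 hdeg ε hε).congr_left fun N => ?_
      rw [cubans_eq, mainC_eq]
      ring

end Pool.Agent.W2helper14.RB
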