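import Pool.Agent.W2helper64.BQ.Fin2

set_option autoImplicit false

/-!
The Bateman-Horn formula in the random sieve model (engine of helper64, `W2helper64.BQ`) in a form that
is convenient for single systems. The definitions and the comparison are those of the hand-in
`MP_391708_nt.RandomSieveBatemanHorn` of helper64.
-/

namespace Pool.Agent.W2helper14.RB

open Filter MeasureTheory Polynomial Topology

/-- the product `V y = ∏_(p ≤ y, p prime) (1 - 1 / p)` -/
noncomputable def V (y : ℕ) : ℝ := ∏ p ∈ (Finset.Icc 1 y).filter Nat.Prime, (1 - 1 / (p : ℝ))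

/-- the random set: all `n ≥ e ^ 2` outside the chosen class `a p` for every prime `p` with
`V p ≥ 1 / log n` -/
def R (a : (p : Nat.Primes) → ZMod (p : ℕ)) : Set ℕ :=
  {n | Real.exp 2 ≤ n ∧ ∀ p : Nat.Primes, 1 ≤ V (p : ℕ) * Real.log n → ((n : ℕ) : ZMod (p : ℕ)) ≠ a p}

/-- the chosen classes `a p`, `p` prime, are independent and uniform modulo `p` -/
noncomputable def law : Measure ((p : Nat.Primes) → ZMod (p : ℕ)) :=
  Measure.infinitePi fun p : Nat.Primes => ProbabilityTheory.uniformOn (Set.univ : Set (ZMod (p : ℕ)))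

/-- the primes `p` with `m ≤ p ≤ z` -/
def primes (m z : ℕ) : Finset Nat.Primes := (Finset.Icc m z).subtype Nat.Prime

instance (p : Nat.Primes) : Fact (p : ℕ).Prime := ⟨p.2⟩

open Classical in
/-- the number of the residue classes `m` modulo `p` for which one of the values `f i m` lies in the
class `a p` -/
noncomputable def nu {g : ℕ} (f : Fin g → ℤ[X]) (a : (p : Nat.Primes) → ZMod (p : ℕ)) (p : Nat.Primes) : ℕ :=
  ((Finset.range (p : ℕ)).filter fun m : ℕ => ∃ i, (((f i).eval (m : ℤ) : ℤ) : ZMod (p : ℕ)) = a p).card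

/-- the partial products of the singular series of the system `f` -/
noncomputable def series {g : ℕ} (f : Fin g → ℤ[X]) (a : (p : Nat.Primes) → ZMod (p : ℕ)) (z : ℕ) : ℝ :=
  ∏ p ∈ primes 1 z, (1 - (nu f a p : ℝ) / (p : ℕ)) / (1 - 1 / ((p : ℕ) : ℝ)) ^ g

/-- the system `f` has no local obstruction: for every prime `p` some integer `z` has all values
`f i z` outside the class `a p` -/
def Free {g : ℕ} (a : (p : Nat.Primes) → ZMod (p : ℕ)) (f : Fin g → ℤ[X]) : Prop :=
  ∀ p : Nat.Primes, ∃ z : ℤ, ∀ i, (((f i).eval z : ℤ) : ZMod (p : ℕ)) ≠ a p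

open Classical in
/-- the number of `1 ≤ n ≤ x` for which all values `f i n` are in `R` -/
noncomputable def count {g : ℕ} (f : Fin g → ℤ[X]) (a : (p : Nat.Primes) → ZMod (p : ℕ)) (x : ℕ) : ℕ :=
  ((Finset.Icc 1 x).filter fun n : ℕ => ∀ i, ∃ r ∈ R a, (r : ℤ) = (f i).eval (n : ℤ)).card

/-- the sum of `∏_i 1 / log (f i n)` over the `1 ≤ n ≤ x` with all `f i n ≥ 8` -/
noncomputable def mainTerm {g : ℕ} (f : Fin g → ℤ[X]) (x : ℕ) : ℝ :=
  ∑ n ∈ (Finset.Icc 1 x).filter fun n : ℕ => ∀ i, 8 ≤ (f i).eval (n : ℤ),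
    ∏ i, (1 / Real.log (((f i).eval (n : ℤ) : ℤ) : ℝ))

/-! ### the comparison with the library -/

theorem series_eq {g : ℕ} (f : Fin g → ℤ[X]) (a : (p : Nat.Primes) → ZMod (p : ℕ)) (z : ℕ) :
    series f a z = Pool.Agent.W2helper64.BH.PP f a z / Pool.Agent.W2helper64.RS.V z ^ g := by
  rw [Pool.Agent.W2helper64.BH.PP_div]
  unfold series
  refine Finset.prod_congr ?_ fun p _ => ?_
  · ext p
    rw [Pool.Agent.W2helper64.BH.mem_Pr]
    have h : p ∈ primes 1 z ↔ (p : ℕ) ∈ Finset.Icc 1 z := Finset.mem_subtype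
    rw [h, Finset.mem_Icc]
    omega
  · unfold Pool.Agent.W2helper64.BH.FF
    rw [Pool.Agent.W2helper64.BH.nuB_eq]
    congr 4
    unfold nu Pool.Agent.W2helper64.BH.nuR
    congr 1
    ext m
    rw [Pool.Agent.W2helper64.RK.mf', Pool.Agent.W2helper64.RK.mf', Pool.Agent.W2helper64.BH.mem_Im]

theorem nu_lt_iff {g : ℕ} (f : Fin g → ℤ[X]) (a : (p : Nat.Primes) → ZMod (p : ℕ)) (p : Nat.Primes) :
    nu f a p < (p : ℕ) ↔ ∃ z : ℤ, ∀ i, (((f i).eval z : ℤ) : ZMod (p : ℕ)) ≠ a p := by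
  classical
  constructor
  · intro h
    by_contra hcon
    push Not at hcon
    have : nu f a p = (p : ℕ) := by
      unfold nu
      have h1 : (Finset.range (p : ℕ)).filter (fun m : ℕ => ∃ i, (((f i).eval (m : ℤ) : ℤ) : ZMod (p : ℕ)) = a p) =
          Finset.range (p : ℕ) := Finset.filter_true_of_mem fun m _ => hcon (m : ℤ)
      have h2 := congrArg Finset.card h1
      rw [Finset.card_range] at h2
      refine Eq.trans ?_ h2
      congr
    omega
  · rintro ⟨z, hz⟩
    unfold nu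
    have hp0 : (0 : ℤ) < (p : ℕ) := by exact_mod_cast p.2.pos
    have hm0 := Int.emod_nonneg z hp0.ne'
    have hm1 := Int.emod_lt_of_pos z hp0
    set m : ℕ := (z % ((p : ℕ) : ℤ)).toNat with hm
    have hmz : (m : ℤ) = z % ((p : ℕ) : ℤ) := Int.toNat_of_nonneg hm0
    have hmp : m < (p : ℕ) := by omega
    have hval : ∀ i, (((f i).eval (m : ℤ) : ℤ) : ZMod (p : ℕ)) ≠ a p := by
      intro i h
      apply hz i
      rw [← h, ZMod.intCast_eq_intCast_iff]
      have h1 : (z : ℤ) ≡ (m : ℤ) [ZMOD ((p : ℕ) : ℤ)] := by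
        rw [hmz]
        exact (Int.mod_modEq z _).symm
      have h2 : (z : ℤ) - m ∣ (f i).eval z - (f i).eval (m : ℤ) := sub_dvd_eval_sub _ _ _
      have h3 : (((p : ℕ) : ℤ)) ∣ (m : ℤ) - z := h1.dvd
      have h4 : (((p : ℕ) : ℤ)) ∣ (z : ℤ) - m := by
        rw [← neg_sub]; exact h3.neg_right
      exact (Int.modEq_iff_dvd.mpr (by
        rw [← neg_sub]
        exact (h4.trans h2).neg_right))
    refine lt_of_lt_of_eq (Finset.card_lt_card ⟨Finset.filter_subset _ _, fun hsub => ?_⟩) (Finset.card_range _)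
    have := hsub (Finset.mem_range.mpr hmp)
    obtain ⟨i, hi⟩ := (Pool.Agent.W2helper64.RK.mf'.mp this).2
    exact hval i hi

theorem general : ∀ᵐ a ∂law, ∀ (g : ℕ) (f : Fin g → ℤ[X]), Function.Injective f →
    (∀ i, 0 < (f i).natDegree ∧ 0 < (f i).leadingCoeff) →
      ∃ S : ℝ, 0 ≤ S ∧ Tendsto (series f a) atTop (𝓝 S) ∧ (0 < S ↔ Free a f) ∧
        (∀ ε : ℝ, 0 < ε → (fun x : ℕ => (count f a x : ℝ) - S * mainTerm f x) =O[atTop]
          fun x : ℕ => (x : ℝ) ^ (3 / 4 + ε)) ∧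
        ((∀ i, 2 ≤ (f i).natDegree) → ∀ ε : ℝ, 0 < ε →
          (fun x : ℕ => (count f a x : ℝ) - S * mainTerm f x) =O[atTop] fun x : ℕ => (x : ℝ) ^ (1 / 2 + ε)) := by
  show ∀ᵐ a ∂Pool.Agent.W2helper64.RS.law, _
  filter_upwards [Pool.Agent.W2helper64.BQ.ae_final2] with a ha g f hinj hf
  obtain ⟨S, h1, h2, h3, h4, h4'⟩ := ha g f hinj (fun i => (hf i).1) (fun i => (hf i).2)
  have h5 : ∀ x : ℕ, count f a x = Pool.Agent.W2helper64.BH.cnt f a x := by
    intro x
    unfold count Pool.Agent.W2helper64.BH.cnt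
    congr 1
    ext n
    rw [Pool.Agent.W2helper64.RK.mf', Pool.Agent.W2helper64.RK.mf']
    rfl
  have h6 : ∀ x : ℕ, mainTerm f x = Pool.Agent.W2helper64.BH.HH f x := by
    intro x
    unfold mainTerm Pool.Agent.W2helper64.BH.HH
    refine Finset.sum_congr ?_ fun _ _ => rfl
    ext n
    rw [Pool.Agent.W2helper64.RK.mf', Pool.Agent.W2helper64.RK.mf']
  simp only [h5, h6]
  refine ⟨S, h1, ?_, ?_, h4, h4'⟩
  · refine h2.congr fun z => (series_eq f a z).symm
  · rw [h3]
    refine forall_congr' fun p => ?_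
    rw [← nu_lt_iff, Pool.Agent.W2helper64.BH.nuB_eq]
    have : Pool.Agent.W2helper64.BH.nuR f (p : ℕ) (a p) = nu f a p := by
      unfold nu Pool.Agent.W2helper64.BH.nuR
      congr 1
      ext m
      rw [Pool.Agent.W2helper64.RK.mf', Pool.Agent.W2helper64.RK.mf', Pool.Agent.W2helper64.BH.mem_Im]
    rw [this]

end Pool.Agent.W2helper14.RB
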