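import Pool.Agent.W2helper14.RB.Cub
import Pool.Agent.W2helper14.SH.F

set_option autoImplicit false

/-!
Differences of consecutive cubes in the random sieve set, in short intervals.
-/

namespace Pool.Agent.W2helper14.RB

open Filter MeasureTheory Polynomial Topology

theorem cub_ae2 : ∀ᵐ a ∂law,
    ((cubSet a).Infinite ↔ a ⟨2, Nat.prime_two⟩ = 0 ∧ a ⟨3, Nat.prime_three⟩ ≠ 1) ∧
    (a ⟨2, Nat.prime_two⟩ = 0 → a ⟨3, Nat.prime_three⟩ ≠ 1 →
      ∃ h : ℝ, 0 < h ∧ Tendsto (productC a) atTop (𝓝 h) ∧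
        (∀ ε : ℝ, 0 < ε →
          (fun N : ℕ => (cubans a N : ℝ) - 3 * h * mainC N) =O[atTop] fun N : ℕ => (N : ℝ) ^ (1 / 2 + ε)) ∧
        ∀ δ : ℝ, 0 < δ → ∀ U : ℕ, ∀ᶠ y : ℕ in atTop, ∀ H : ℕ, (y : ℝ) ^ δ ≤ H →
          |((cubans a (y + H) : ℝ) - cubans a y) - 3 * h * (mainC (y + H) - mainC y)| ≤
            H / Real.log ((y : ℝ) + H) ^ U) := by
  filter_upwards [cub_ae, Pool.Agent.W2helper14.SH.short_general] with a ha hs
  refine ⟨ha.1, fun h2 h3 => ?_⟩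
  obtain ⟨h, h0, h4, h5⟩ := ha.2 h2 h3
  refine ⟨h, h0, h4, h5, fun δ hδ U => ?_⟩
  have hser : Tendsto (series cub a) atTop (𝓝 (3 * h)) := by
    refine (h4.const_mul 3).congr' ?_
    filter_upwards [eventually_ge_atTop 3] with z hz
    exact (series_cub a h2 h3 z hz).symm
  filter_upwards [hs 1 cub cub_inj cub_facts (3 * h) hser δ hδ U] with y hy H hH
  have := hy H hH
  simp only [cubans_eq, mainC_eq]
  exact this

end Pool.Agent.W2helper14.RB
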