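import Pool.Agent.W2helper64.BQ.Th5
import Pool.Agent.W2helper14.RB.Gen

set_option autoImplicit false

/-!
The Bateman-Horn formula in the random sieve model with a square root error for all systems (engine of
helper64, `W2helper64.BQ.Th5`).
-/

namespace Pool.Agent.W2helper14.RB

open Filter MeasureTheory Polynomial Topology

theorem general3 : ∀ᵐ a ∂law, ∀ (g : ℕ) (f : Fin g → ℤ[X]), Function.Injective f →
    (∀ i, 0 < (f i).natDegree ∧ 0 < (f i).leadingCoeff) →
      ∃ S : ℝ, 0 ≤ S ∧ Tendsto (series f a) atTop (𝓝 S) ∧ (0 < S ↔ Free a f) ∧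
        ∀ ε : ℝ, 0 < ε → (fun x : ℕ => (count f a x : ℝ) - S * mainTerm f x) =O[atTop]
          fun x : ℕ => (x : ℝ) ^ (1 / 2 + ε) := by
  show ∀ᵐ a ∂Pool.Agent.W2helper64.RS.law, _
  filter_upwards [Pool.Agent.W2helper64.BQ.ae_final3] with a ha g f hinj hf
  obtain ⟨S, h1, h2, h3, h4⟩ := ha g f hinj (fun i => (hf i).1) (fun i => (hf i).2)
  have h5 : ∀ x : ℕ, count f a x = Pool.Agent.W2helper64.BH.cnt f a x := by
    intro x
    unfold count Pool.Agent.W2helper64.BH.cnt
    congr 1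
    ext n
    rw [Pool.Agent.W2helper64.RK.mf', Pool.Agent.W2helper64.RK.mf']
    rfl
  have h6 : ∀ x : ℕ, mainTerm f x = Pool.Agent.W2helper64.BH.HH f x := by
    intro x
    unfold mainTerm Pool.Agent.W2helper64.BH.HH
    refine Finset.sum_congr ?_ fun _ _ => rfl
    ext n
    rw [Pool.Agent.W2helper64.RK.mf', Pool.Agent.W2helper64.RK.mf']
  simp only [h5, h6]
  refine ⟨S, h1, ?_, ?_, h4⟩
  · refine h2.congr fun z => (series_eq f a z).symm
  · rw [h3]
    refine forall_congr' fun p => ?_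
    rw [← nu_lt_iff, Pool.Agent.W2helper64.BH.nuB_eq]
    have : Pool.Agent.W2helper64.BH.nuR f (p : ℕ) (a p) = nu f a p := by
      unfold nu Pool.Agent.W2helper64.BH.nuR
      congr 1
      ext m
      rw [Pool.Agent.W2helper64.RK.mf', Pool.Agent.W2helper64.RK.mf', Pool.Agent.W2helper64.BH.mem_Im]
    rw [this]

end Pool.Agent.W2helper14.RB
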