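import Pool.Agent.W2helper14.RB.Gen

set_option autoImplicit false

/-!
Lower bound for the main term of the Bateman-Horn formula; pairs of linear polynomials.
-/

namespace Pool.Agent.W2helper14.RB

open Filter MeasureTheory Polynomial Topology

/-- lower bound of the main term -/
theorem main_lower {g : ℕ} (f : Fin g → ℤ[X]) (hinj : Function.Injective f)
    (hf : ∀ i, 0 < (f i).natDegree ∧ 0 < (f i).leadingCoeff) :
    ∃ c : ℝ, 0 < c ∧ ∀ᶠ N : ℕ in atTop, c * (N : ℝ) ^ (15 / 16 : ℝ) ≤ mainTerm f N := by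
  classical
  set k : ℕ := ∑ i, (f i).natDegree with hk
  have hki : ∀ i, (f i).natDegree ≤ k := fun i =>
    Finset.single_le_sum (f := fun i => (f i).natDegree) (fun _ _ => Nat.zero_le _) (Finset.mem_univ i)
  obtain ⟨n0, hn0⟩ := Pool.Agent.W2helper64.BH.ev_sys f k (fun i => (hf i).1) (fun i => (hf i).2) hki hinj
  have hk1 : (0 : ℝ) < ((k : ℝ) + 1) ^ g := by positivity
  refine ⟨1 / (2 * ((k : ℝ) + 1) ^ g), by positivity, ?_⟩
  filter_upwards [Pool.Agent.W2helper64.BH.ev_pow (16 * g), Pool.Agent.W2helper64.BH.ev_log 1,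
    eventually_ge_atTop (2 * n0 + 4)] with N h1 h2 h3
  have hN0 : (0 : ℝ) < N := by exact_mod_cast (by omega : 0 < N)
  have hL : 0 < Real.log N := by linarith
  -- the power of the logarithm
  have h4 : Real.log N ^ g ≤ (N : ℝ) ^ (1 / 16 : ℝ) := by
    have h5 : (Real.log N ^ g) ^ (16 : ℕ) ≤ (N : ℝ) := by
      rw [← pow_mul, mul_comm]
      exact h1
    have h6 := Real.rpow_le_rpow (by positivity) h5 (by norm_num : (0 : ℝ) ≤ 1 / 16)
    rwa [← Real.rpow_natCast (Real.log N ^ g) 16, ← Real.rpow_mul (by positivity),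
      show ((16 : ℕ) : ℝ) * (1 / 16) = 1 by norm_num, Real.rpow_one] at h6
  -- the sum
  have h7 : ∑ _n ∈ Finset.Ioc n0 N, (1 / (((k : ℝ) + 1) * Real.log N)) ^ g ≤ mainTerm f N := by
    unfold mainTerm
    have hsub : Finset.Ioc n0 N ⊆ (Finset.Icc 1 N).filter fun n : ℕ => ∀ i, 8 ≤ (f i).eval (n : ℤ) := by
      intro n hn
      rw [Finset.mem_Ioc] at hn
      rw [Finset.mem_filter, Finset.mem_Icc]
      exact ⟨⟨by omega, hn.2⟩, fun i => ((hn0 n hn.1.le).1 i).1⟩
    have hsum : ∑ _n ∈ Finset.Ioc n0 N, (1 / (((k : ℝ) + 1) * Real.log N)) ^ g ≤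
        ∑ n ∈ Finset.Ioc n0 N, ∏ i, (1 / Real.log (((f i).eval (n : ℤ) : ℤ) : ℝ)) := by
      refine Finset.sum_le_sum fun n hn => ?_
      rw [Finset.mem_Ioc] at hn
      have e : (1 / (((k : ℝ) + 1) * Real.log N)) ^ g = ∏ _i : Fin g, (1 / (((k : ℝ) + 1) * Real.log N)) := by
        rw [Finset.prod_const, Finset.card_univ, Fintype.card_fin]
      rw [e]
      refine Finset.prod_le_prod (fun i _ => by positivity) fun i _ => ?_
      obtain ⟨h8, -, h9, -⟩ := (hn0 n hn.1.le).2.1 i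
      unfold Pool.Agent.W2helper64.BH.lam at h8 h9
      refine one_div_le_one_div_of_le (by linarith) (h9.trans ?_)
      have hn1 : (0 : ℝ) < n := by exact_mod_cast (by omega : 0 < n)
      have : Real.log n ≤ Real.log N := Real.log_le_log hn1 (by exact_mod_cast hn.2)
      have hk0 : (0 : ℝ) ≤ (k : ℝ) + 1 := by positivity
      exact mul_le_mul_of_nonneg_left this hk0
    refine hsum.trans ?_
    have hsub' : Finset.Ioc n0 N ⊆ Finset.filter (fun n : ℕ => ∀ i, 8 ≤ (f i).eval (n : ℤ)) (Finset.Icc 1 N) := hsub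
    refine (Finset.sum_le_sum_of_subset_of_nonneg hsub' ?_).trans (le_of_eq ?_)
    · intro n hn _
      rw [Finset.mem_filter] at hn
      refine Finset.prod_nonneg fun i _ => ?_
      have h8 : (8 : ℝ) ≤ (((f i).eval (n : ℤ) : ℤ) : ℝ) := by exact_mod_cast hn.2 i
      have : 0 ≤ Real.log (((f i).eval (n : ℤ) : ℤ) : ℝ) := Real.log_nonneg (by linarith)
      positivity
    · refine Finset.sum_congr ?_ fun _ _ => rfl
      ext n
      simp only [Finset.mem_filter]
  refine le_trans ?_ h7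
  rw [Finset.sum_const, Nat.card_Ioc, nsmul_eq_mul, Nat.cast_sub (by omega), one_div_pow, mul_pow]
  have h8 : (n0 : ℝ) ≤ N / 2 := by
    have : ((2 * n0 : ℕ) : ℝ) ≤ N := by exact_mod_cast (by omega : 2 * n0 ≤ N)
    push_cast at this
    linarith
  have h9 : (N : ℝ) ^ (15 / 16 : ℝ) * Real.log N ^ g ≤ N := by
    calc (N : ℝ) ^ (15 / 16 : ℝ) * Real.log N ^ g ≤ (N : ℝ) ^ (15 / 16 : ℝ) * (N : ℝ) ^ (1 / 16 : ℝ) := by gcongr
      _ = N := by
        rw [← Real.rpow_add hN0]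
        norm_num
  have hLg : 0 < Real.log N ^ g := by positivity
  rw [mul_one_div, div_mul_eq_mul_div, one_mul, div_le_div_iff₀ (by positivity) (by positivity)]
  nlinarith

/-- if the series is positive, there are infinitely many solutions -/
theorem count_tendsto {g : ℕ} (f : Fin g → ℤ[X]) (hinj : Function.Injective f)
    (hf : ∀ i, 0 < (f i).natDegree ∧ 0 < (f i).leadingCoeff) (a : (p : Nat.Primes) → ZMod (p : ℕ)) {S : ℝ}
    (hS : 0 < S) {θ : ℝ} (hθ : θ < 15 / 16)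
    (hO : (fun x : ℕ => (count f a x : ℝ) - S * mainTerm f x) =O[atTop] fun x : ℕ => (x : ℝ) ^ θ) :
    Tendsto (fun x : ℕ => (count f a x : ℝ)) atTop atTop := by
  obtain ⟨c, hc, h1⟩ := main_lower f hinj hf
  obtain ⟨C, hC, h2⟩ := hO.exists_pos
  rw [Asymptotics.IsBigOWith] at h2
  have hlit : Tendsto (fun N : ℕ => (N : ℝ) ^ (-(15 / 16 - θ))) atTop (𝓝 0) :=
    (tendsto_rpow_neg_atTop (by linarith)).comp tendsto_natCast_atTop_atTop
  have h3 : ∀ᶠ N : ℕ in atTop, C * (N : ℝ) ^ θ ≤ S * c / 2 * (N : ℝ) ^ (15 / 16 : ℝ) := by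
    filter_upwards [hlit.eventually (ge_mem_nhds (show (0 : ℝ) < S * c / 2 / C by positivity)),
      eventually_ge_atTop 1] with N hN hN1
    have hN0 : (0 : ℝ) < N := by exact_mod_cast hN1
    have e : (N : ℝ) ^ θ = (N : ℝ) ^ (-(15 / 16 - θ)) * (N : ℝ) ^ (15 / 16 : ℝ) := by
      rw [← Real.rpow_add hN0]
      congr 1
      ring
    rw [e]
    calc C * ((N : ℝ) ^ (-(15 / 16 - θ)) * (N : ℝ) ^ (15 / 16 : ℝ)) ≤
        C * (S * c / 2 / C * (N : ℝ) ^ (15 / 16 : ℝ)) := by gcongr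
      _ = _ := by field_simp
  have h5 : Tendsto (fun N : ℕ => S * c / 2 * (N : ℝ) ^ (15 / 16 : ℝ)) atTop atTop := by
    refine Tendsto.const_mul_atTop (by positivity) ?_
    exact (tendsto_rpow_atTop (by norm_num)).comp tendsto_natCast_atTop_atTop
  refine tendsto_atTop_mono' atTop ?_ h5
  filter_upwards [h1, h2, h3] with N e1 e2 e3
  rw [Real.norm_eq_abs, Real.norm_eq_abs, abs_of_nonneg (Real.rpow_nonneg (Nat.cast_nonneg _) _)] at e2
  have e4 := (abs_le.mp e2).1
  have e5 : S * (c * (N : ℝ) ^ (15 / 16 : ℝ)) ≤ S * mainTerm f N := mul_le_mul_of_nonneg_left e1 hS.le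
  linarith

end Pool.Agent.W2helper14.RB
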