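import Pool.Agent.W2helper14.RB.Lin

set_option autoImplicit false

/-!
The equation `A p - B q = c`.
-/

namespace Pool.Agent.W2helper14.RB

open Filter MeasureTheory Polynomial Topology

/-- the pair of linear polynomials `B X + p0`, `A X + q0` -/
noncomputable def lin (A B : ℕ) (p0 q0 : ℤ) : Fin 2 → ℤ[X] :=
  ![C (B : ℤ) * X + C p0, C (A : ℤ) * X + C q0]

theorem lin_eval0 (A B : ℕ) (p0 q0 z : ℤ) : (lin A B p0 q0 0).eval z = B * z + p0 := by simp [lin]

theorem lin_eval1 (A B : ℕ) (p0 q0 z : ℤ) : (lin A B p0 q0 1).eval z = A * z + q0 := by simp [lin]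

theorem lin_deg {A B : ℕ} (hA : 0 < A) (hB : 0 < B) (p0 q0 : ℤ) (i : Fin 2) :
    0 < (lin A B p0 q0 i).natDegree ∧ 0 < (lin A B p0 q0 i).leadingCoeff := by
  have hA' : (A : ℤ) ≠ 0 := by exact_mod_cast hA.ne'
  have hB' : (B : ℤ) ≠ 0 := by exact_mod_cast hB.ne'
  fin_cases i
  · show 0 < (C (B : ℤ) * X + C p0 : ℤ[X]).natDegree ∧ 0 < (C (B : ℤ) * X + C p0 : ℤ[X]).leadingCoeff
    rw [natDegree_linear hB', leadingCoeff_linear hB']
    exact ⟨one_pos, by exact_mod_cast hB⟩
  · show 0 < (C (A : ℤ) * X + C q0 : ℤ[X]).natDegree ∧ 0 < (C (A : ℤ) * X + C q0 : ℤ[X]).leadingCoeff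
    rw [natDegree_linear hA', leadingCoeff_linear hA']
    exact ⟨one_pos, by exact_mod_cast hA⟩

theorem lin_inj {A B : ℕ} {p0 q0 c : ℤ} (h0 : (A : ℤ) * p0 - B * q0 = c) (hc : c ≠ 0) :
    Function.Injective (lin A B p0 q0) := by
  have hne : lin A B p0 q0 0 ≠ lin A B p0 q0 1 := by
    intro h
    have h1 := congrArg (fun P : ℤ[X] => P.eval 0) h
    have h2 := congrArg (fun P : ℤ[X] => P.eval 1) h
    simp only [lin_eval0, lin_eval1] at h1 h2
    have h3 : p0 = q0 := by linarith
    have h4 : (A : ℤ) = B := by linarith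
    apply hc
    rw [← h0, h3, h4]
    ring
  intro i j hij
  fin_cases i <;> fin_cases j
  · rfl
  · exact absurd hij hne
  · exact absurd hij.symm hne
  · rfl

open Classical in
/-- the solutions of `A u - B v = c` modulo `p` outside the class `a p` -/
noncomputable def loc (A B : ℕ) (c : ℤ) (a : (p : Nat.Primes) → ZMod (p : ℕ)) (p : Nat.Primes) : ℕ :=
  (Finset.univ.filter fun uv : ZMod (p : ℕ) × ZMod (p : ℕ) =>
    (A : ZMod (p : ℕ)) * uv.1 - B * uv.2 = c ∧ uv.1 ≠ a p ∧ uv.2 ≠ a p).card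

theorem loc_add {A B : ℕ} (hAB : A.Coprime B) {p0 q0 c : ℤ} (h0 : (A : ℤ) * p0 - B * q0 = c)
    (a : (p : Nat.Primes) → ZMod (p : ℕ)) (p : Nat.Primes) :
    loc A B c a p + nu (lin A B p0 q0) a p = (p : ℕ) := by
  classical
  obtain ⟨r, s, hrs⟩ := Nat.isCoprime_iff_coprime.mpr hAB
  have hrs' : (r : ZMod (p : ℕ)) * A + s * B = 1 := by
    have := congrArg (fun z : ℤ => (z : ZMod (p : ℕ))) hrs
    push_cast at this
    exact this
  have h0' : (A : ZMod (p : ℕ)) * p0 - B * q0 = c := by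
    have := congrArg (fun z : ℤ => (z : ZMod (p : ℕ))) h0
    push_cast at this
    exact this
  have hP : NeZero (p : ℕ) := ⟨p.2.ne_zero⟩
  have key : loc A B c a p = ((Finset.range (p : ℕ)).filter fun m : ℕ =>
      ¬ ∃ i, (((lin A B p0 q0 i).eval (m : ℤ) : ℤ) : ZMod (p : ℕ)) = a p).card := by
    unfold loc
    symm
    refine Finset.card_bij (fun m _ => (((B : ZMod (p : ℕ)) * (m : ZMod (p : ℕ)) + p0,
      (A : ZMod (p : ℕ)) * (m : ZMod (p : ℕ)) + q0) : ZMod (p : ℕ) × ZMod (p : ℕ))) ?_ ?_ ?_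
    · intro m hm
      rw [Finset.mem_filter] at hm
      obtain ⟨-, hm⟩ := hm
      push Not at hm
      have e0 := hm 0
      have e1 := hm 1
      rw [lin_eval0] at e0
      rw [lin_eval1] at e1
      push_cast at e0 e1
      rw [Finset.mem_filter]
      refine ⟨Finset.mem_univ _, ?_, e0, e1⟩
      rw [← h0']
      ring
    · intro m hm l hl h
      rw [Finset.mem_filter, Finset.mem_range] at hm hl
      simp only [Prod.mk.injEq, add_left_inj] at h
      have h1 : (m : ZMod (p : ℕ)) = l := by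
        calc (m : ZMod (p : ℕ)) = (r * A + s * B) * m := by rw [hrs', one_mul]
          _ = r * (A * m) + s * (B * m) := by ring
          _ = r * (A * l) + s * (B * l) := by rw [h.1, h.2]
          _ = (r * A + s * B) * l := by ring
          _ = l := by rw [hrs', one_mul]
      rw [ZMod.natCast_eq_natCast_iff] at h1
      have h3 : m % (p : ℕ) = l % (p : ℕ) := h1
      rwa [Nat.mod_eq_of_lt hm.1, Nat.mod_eq_of_lt hl.1] at h3
    · rintro ⟨u, v⟩ huv
      rw [Finset.mem_filter] at huv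
      obtain ⟨-, h1, h2, h3⟩ := huv
      simp only at h1 h2 h3
      set t : ZMod (p : ℕ) := s * (u - p0) + r * (v - q0) with ht
      have hline : (A : ZMod (p : ℕ)) * (u - p0) = B * (v - q0) := by
        have : (A : ZMod (p : ℕ)) * u - B * v = A * p0 - B * q0 := by rw [h1, h0']
        linear_combination this
      have hu : (B : ZMod (p : ℕ)) * t + p0 = u := by
        rw [ht]
        linear_combination (u - p0) * hrs' - r * hline
      have hv : (A : ZMod (p : ℕ)) * t + q0 = v := by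
        rw [ht]
        linear_combination (v - q0) * hrs' + s * hline
      have htv : ((t.val : ℕ) : ZMod (p : ℕ)) = t := by
        rw [ZMod.natCast_val, ZMod.cast_id', id]
      refine ⟨t.val, ?_, ?_⟩
      · rw [Finset.mem_filter, Finset.mem_range]
        refine ⟨ZMod.val_lt t, ?_⟩
        rintro ⟨i, hi⟩
        fin_cases i
        · have : ((B : ℤ) * (t.val : ℤ) + p0 : ℤ) = (lin A B p0 q0 0).eval (t.val : ℤ) := (lin_eval0 _ _ _ _ _).symm
          apply h2
          rw [← hi]
          show u = (((lin A B p0 q0 0).eval (t.val : ℤ) : ℤ) : ZMod (p : ℕ))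
          rw [← this]
          push_cast
          rw [htv, hu]
        · have : ((A : ℤ) * (t.val : ℤ) + q0 : ℤ) = (lin A B p0 q0 1).eval (t.val : ℤ) := (lin_eval1 _ _ _ _ _).symm
          apply h3
          rw [← hi]
          show v = (((lin A B p0 q0 1).eval (t.val : ℤ) : ℤ) : ZMod (p : ℕ))
          rw [← this]
          push_cast
          rw [htv, hv]
      · simp only [htv, hu, hv]
  have h5 := Finset.card_filter_add_card_filter_not (s := Finset.range (p : ℕ))
    (fun m : ℕ => ∃ i, (((lin A B p0 q0 i).eval (m : ℤ) : ℤ) : ZMod (p : ℕ)) = a p)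
  rw [Finset.card_range] at h5
  have h6 : nu (lin A B p0 q0) a p = ((Finset.range (p : ℕ)).filter fun m : ℕ =>
      ∃ i, (((lin A B p0 q0 i).eval (m : ℤ) : ℤ) : ZMod (p : ℕ)) = a p).card := by
    unfold nu
    congr
  rw [key, h6]
  omega

/-- the local conditions -/
def Adm (A B : ℕ) (c : ℤ) (a : (p : Nat.Primes) → ZMod (p : ℕ)) : Prop :=
  ¬ (Odd A ∧ Odd B ∧ Odd c) ∧
    (∀ p : Nat.Primes, (p : ℕ) ∣ A → (B : ZMod (p : ℕ)) * a p + c ≠ 0) ∧
    ∀ p : Nat.Primes, (p : ℕ) ∣ B → (A : ZMod (p : ℕ)) * a p - c ≠ 0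

theorem adm_iff {A B : ℕ} (hAB : A.Coprime B) (c : ℤ) (a : (p : Nat.Primes) → ZMod (p : ℕ)) :
    (∀ p : Nat.Primes, ∃ u v : ZMod (p : ℕ), (A : ZMod (p : ℕ)) * u - B * v = c ∧ u ≠ a p ∧ v ≠ a p) ↔
      Adm A B c a := by
  constructor
  · intro h
    refine ⟨?_, ?_, ?_⟩
    · rintro ⟨hA, hB, hc⟩
      obtain ⟨u, v, h1, h2, h3⟩ := h ⟨2, Nat.prime_two⟩
      have eA : ((A : ℕ) : ZMod 2) = 1 := (ZMod.natCast_eq_one_iff_odd).mpr hA
      have eB : ((B : ℕ) : ZMod 2) = 1 := (ZMod.natCast_eq_one_iff_odd).mpr hB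
      have ec : ((c : ℤ) : ZMod 2) = 1 := by
        obtain ⟨d, rfl⟩ := hc
        push_cast
        have : (2 : ZMod 2) = 0 := by decide
        rw [this]; ring
      have h1' : ((A : ℕ) : ZMod 2) * u - ((B : ℕ) : ZMod 2) * v = ((c : ℤ) : ZMod 2) := h1
      rw [eA, eB, ec] at h1'
      have key : ∀ x y z : ZMod 2, 1 * x - 1 * y = 1 → x ≠ z → y ≠ z → False := by decide
      exact key u v (a ⟨2, Nat.prime_two⟩) h1' h2 h3
    · intro p hp h4
      obtain ⟨u, v, h1, h2, h3⟩ := h p
      have eA : (A : ZMod (p : ℕ)) = 0 := (ZMod.natCast_eq_zero_iff _ _).mpr hp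
      rw [eA] at h1
      have hB : (B : ZMod (p : ℕ)) ≠ 0 := by
        intro h5
        rw [ZMod.natCast_eq_zero_iff] at h5
        have := Nat.dvd_gcd hp h5
        rw [hAB] at this
        exact p.2.one_lt.ne' (Nat.dvd_one.mp this)
      apply h3
      apply mul_left_cancel₀ hB
      linear_combination -h1 - h4
    · intro p hp h4
      obtain ⟨u, v, h1, h2, h3⟩ := h p
      have eB : (B : ZMod (p : ℕ)) = 0 := (ZMod.natCast_eq_zero_iff _ _).mpr hp
      rw [eB] at h1
      have hA : (A : ZMod (p : ℕ)) ≠ 0 := by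
        intro h5
        rw [ZMod.natCast_eq_zero_iff] at h5
        have := Nat.dvd_gcd h5 hp
        rw [hAB] at this
        exact p.2.one_lt.ne' (Nat.dvd_one.mp this)
      apply h2
      apply mul_left_cancel₀ hA
      linear_combination h1 - h4
  · rintro ⟨hodd, hA, hB⟩ p
    have hne : a p + 1 ≠ a p := by
      intro h
      have : (1 : ZMod (p : ℕ)) = 0 := by linear_combination h
      exact one_ne_zero this
    by_cases hpA : (p : ℕ) ∣ A
    · have eA : (A : ZMod (p : ℕ)) = 0 := (ZMod.natCast_eq_zero_iff _ _).mpr hpA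
      have eB : (B : ZMod (p : ℕ)) ≠ 0 := by
        intro h5
        rw [ZMod.natCast_eq_zero_iff] at h5
        have := Nat.dvd_gcd hpA h5
        rw [hAB] at this
        exact p.2.one_lt.ne' (Nat.dvd_one.mp this)
      refine ⟨a p + 1, -((c : ZMod (p : ℕ)) / B), ?_, hne, ?_⟩
      · rw [eA]
        field_simp
        ring
      · intro h
        apply hA p hpA
        rw [← h]
        field_simp
        ring
    by_cases hpB : (p : ℕ) ∣ B
    · have eB : (B : ZMod (p : ℕ)) = 0 := (ZMod.natCast_eq_zero_iff _ _).mpr hpB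
      have eA : (A : ZMod (p : ℕ)) ≠ 0 := by
        intro h5
        rw [ZMod.natCast_eq_zero_iff] at h5
        exact hpA h5
      refine ⟨(c : ZMod (p : ℕ)) / A, a p + 1, ?_, ?_, hne⟩
      · rw [eB]
        field_simp
        ring
      · intro h
        apply hB p hpB
        rw [← h]
        field_simp
        ring
    have eA : (A : ZMod (p : ℕ)) ≠ 0 := by
      intro h5
      rw [ZMod.natCast_eq_zero_iff] at h5
      exact hpA h5
    have eB : (B : ZMod (p : ℕ)) ≠ 0 := by
      intro h5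
      rw [ZMod.natCast_eq_zero_iff] at h5
      exact hpB h5
    by_cases hp2 : (p : ℕ) = 2
    · obtain ⟨p, hpp⟩ := p
      have hp' : p = 2 := hp2
      subst hp'
      have oA : Odd A := by
        rw [← Nat.not_even_iff_odd, even_iff_two_dvd]
        exact hpA
      have oB : Odd B := by
        rw [← Nat.not_even_iff_odd, even_iff_two_dvd]
        exact hpB
      have oc : ¬ Odd c := fun h => hodd ⟨oA, oB, h⟩
      rw [Int.not_odd_iff_even] at oc
      have eA : ((A : ℕ) : ZMod 2) = 1 := (ZMod.natCast_eq_one_iff_odd).mpr oA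
      have eB : ((B : ℕ) : ZMod 2) = 1 := (ZMod.natCast_eq_one_iff_odd).mpr oB
      have ec : ((c : ℤ) : ZMod 2) = 0 := by
        obtain ⟨d, rfl⟩ := oc
        push_cast
        have : ∀ x : ZMod 2, x + x = 0 := by decide
        exact this _
      refine ⟨a ⟨2, hpp⟩ + 1, a ⟨2, hpp⟩ + 1, ?_, hne, hne⟩
      show ((A : ℕ) : ZMod 2) * (a ⟨2, hpp⟩ + 1) - ((B : ℕ) : ZMod 2) * (a ⟨2, hpp⟩ + 1) = ((c : ℤ) : ZMod 2)
      rw [eA, eB, ec]
      ring
    · have h3 : 2 < (p : ℕ) := lt_of_le_of_ne p.2.two_le (Ne.symm hp2)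
      classical
      have hP : NeZero (p : ℕ) := ⟨p.2.ne_zero⟩
      obtain ⟨u, hu⟩ : ∃ u : ZMod (p : ℕ), u ∉ ({a p, ((B : ZMod (p : ℕ)) * a p + c) / A} : Finset (ZMod (p : ℕ))) := by
        by_contra hcon
        push Not at hcon
        have h4 : (Finset.univ : Finset (ZMod (p : ℕ))) ⊆ {a p, ((B : ZMod (p : ℕ)) * a p + c) / A} := fun u _ => hcon u
        have h5 := Finset.card_le_card h4
        rw [Finset.card_univ, ZMod.card] at h5
        have h6 := Finset.card_le_two (a := a p) (b := ((B : ZMod (p : ℕ)) * a p + c) / A)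
        omega
      rw [Finset.mem_insert, Finset.mem_singleton, not_or] at hu
      refine ⟨u, ((A : ZMod (p : ℕ)) * u - c) / B, ?_, hu.1, ?_⟩
      · field_simp
        ring
      · intro h
        apply hu.2
        rw [eq_div_iff eA, ← h]
        field_simp
        ring

end Pool.Agent.W2helper14.RB
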