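import Pool.Agent.W2helper14.RB.Lin2

set_option autoImplicit false

/-!
The equation `A p - B q = c`: counting the solutions.
-/

namespace Pool.Agent.W2helper14.RB

open Filter MeasureTheory Polynomial Topology

/-- the number of the pairs `(p, q)` of elements of `R` with `A p - B q = c` and `p ≤ x` -/
noncomputable def sols (A B : ℕ) (c : ℤ) (a : (p : Nat.Primes) → ZMod (p : ℕ)) (x : ℕ) : ℕ :=
  {pq : ℕ × ℕ | pq.1 ∈ R a ∧ pq.2 ∈ R a ∧ pq.1 ≤ x ∧ (A : ℤ) * pq.1 - B * pq.2 = c}.ncard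

/-- the sum of `1 / (log p log q)` over all pairs of integers `p, q ≥ 8` with `A p - B q = c`, `p ≤ x` -/
noncomputable def mainS (A B : ℕ) (c : ℤ) (x : ℕ) : ℝ :=
  ∑ᶠ pq ∈ {pq : ℕ × ℕ | 8 ≤ pq.1 ∧ 8 ≤ pq.2 ∧ pq.1 ≤ x ∧ (A : ℤ) * pq.1 - B * pq.2 = c},
    1 / (Real.log pq.1 * Real.log pq.2)

theorem bij {A B : ℕ} (hB : 0 < B) (hAB : A.Coprime B) {p0 q0 c : ℤ}
    (h0 : (A : ℤ) * p0 - B * q0 = c) (hp0 : p0 ≤ 0) (P : ℕ → Prop) (hP : ∀ r, P r → 1 ≤ r) (x : ℕ) :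
    Set.BijOn (fun n : ℕ => (((B : ℤ) * n + p0).toNat, ((A : ℤ) * n + q0).toNat))
      {n : ℕ | (1 ≤ n ∧ n ≤ (((x : ℤ) - p0) / B).toNat) ∧ (∃ r, P r ∧ (r : ℤ) = B * n + p0) ∧
        ∃ r, P r ∧ (r : ℤ) = A * n + q0}
      {pq : ℕ × ℕ | P pq.1 ∧ P pq.2 ∧ pq.1 ≤ x ∧ (A : ℤ) * pq.1 - B * pq.2 = c} := by
  have hB' : (0 : ℤ) < B := by exact_mod_cast hB
  have hxp : (0 : ℤ) ≤ ((x : ℤ) - p0) / B := Int.ediv_nonneg (by
    have : (0 : ℤ) ≤ x := Int.natCast_nonneg x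
    linarith) hB'.le
  refine ⟨?_, ?_, ?_⟩
  · rintro n ⟨⟨h1, h2⟩, ⟨r, hr, hr'⟩, ⟨s, hs, hs'⟩⟩
    have e1 : ((B : ℤ) * n + p0).toNat = r := by rw [← hr']; exact Int.toNat_natCast r
    have e2 : ((A : ℤ) * n + q0).toNat = s := by rw [← hs']; exact Int.toNat_natCast s
    show P _ ∧ P _ ∧ _ ≤ x ∧ _ = c
    simp only [e1, e2]
    refine ⟨hr, hs, ?_, ?_⟩
    · have h3 : (n : ℤ) ≤ ((x : ℤ) - p0) / B := by
        have : (n : ℤ) ≤ ((((x : ℤ) - p0) / B).toNat : ℤ) := by exact_mod_cast h2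
        rwa [Int.toNat_of_nonneg hxp] at this
      have h4 := (Int.le_ediv_iff_mul_le hB').mp h3
      have : (r : ℤ) ≤ x := by rw [hr']; linarith
      exact_mod_cast this
    · rw [hr', hs', ← h0]
      ring
  · rintro n ⟨-, ⟨r, hr, hr'⟩, -⟩ m ⟨-, ⟨s, hs, hs'⟩, -⟩ h
    simp only [Prod.mk.injEq] at h
    have e1 : ((B : ℤ) * n + p0).toNat = r := by rw [← hr']; exact Int.toNat_natCast r
    have e2 : ((B : ℤ) * m + p0).toNat = s := by rw [← hs']; exact Int.toNat_natCast s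
    rw [e1, e2] at h
    have h3 : (B : ℤ) * n = B * m := by
      have : (r : ℤ) = s := by exact_mod_cast h.1
      linarith
    exact_mod_cast mul_left_cancel₀ hB'.ne' h3
  · rintro ⟨p, q⟩ ⟨hp, hq, hpx, hpq⟩
    simp only at hp hq hpx hpq
    have h1 : (A : ℤ) * (p - p0) = B * (q - q0) := by linear_combination hpq - h0
    have h2 : (B : ℤ) ∣ p - p0 := by
      have h3 : (B : ℤ) ∣ A * ((p : ℤ) - p0) := ⟨q - q0, h1⟩
      exact (Nat.isCoprime_iff_coprime.mpr hAB.symm).dvd_of_dvd_mul_left h3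
    obtain ⟨m, hm⟩ := h2
    have hp1 : (1 : ℤ) ≤ p := by exact_mod_cast hP p hp
    have hm1 : 1 ≤ m := by
      by_contra hcon
      push Not at hcon
      have : (B : ℤ) * m ≤ 0 := by nlinarith
      linarith
    have hmA : (A : ℤ) * m = q - q0 := by
      rw [hm] at h1
      have : (B : ℤ) * (A * m) = B * (q - q0) := by rw [← h1]; ring
      exact mul_left_cancel₀ hB'.ne' this
    obtain ⟨n, rfl⟩ : ∃ n : ℕ, (n : ℤ) = m := ⟨m.toNat, Int.toNat_of_nonneg (by linarith)⟩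
    have ep : (B : ℤ) * n + p0 = p := by linarith
    have eq : (A : ℤ) * n + q0 = q := by linarith
    refine ⟨n, ⟨⟨by exact_mod_cast hm1, ?_⟩, ⟨p, hp, ep.symm⟩, ⟨q, hq, eq.symm⟩⟩, ?_⟩
    · have h5 : (n : ℤ) ≤ ((x : ℤ) - p0) / B := by
        rw [Int.le_ediv_iff_mul_le hB']
        have : (p : ℤ) ≤ x := by exact_mod_cast hpx
        linarith
      have h6 : (n : ℤ) ≤ ((((x : ℤ) - p0) / B).toNat : ℤ) := by rwa [Int.toNat_of_nonneg hxp]
      exact_mod_cast h6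
    · simp only [ep, eq, Int.toNat_natCast]

theorem count_eq {A B : ℕ} (hB : 0 < B) (hAB : A.Coprime B) {p0 q0 c : ℤ}
    (h0 : (A : ℤ) * p0 - B * q0 = c) (hp0 : p0 ≤ 0) (a : (p : Nat.Primes) → ZMod (p : ℕ)) (x : ℕ) :
    sols A B c a x = count (lin A B p0 q0) a ((((x : ℤ) - p0) / B).toNat) := by
  classical
  have hP : ∀ r, r ∈ R a → 1 ≤ r := by
    intro r hr
    have h1 : Real.exp 2 ≤ r := hr.1
    have h2 : (1 : ℝ) ≤ Real.exp 2 := Real.one_le_exp (by norm_num)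
    have h3 : (1 : ℝ) ≤ r := h2.trans h1
    exact_mod_cast h3
  have h1 := bij hB hAB h0 hp0 (fun r => r ∈ R a) hP x
  unfold sols
  rw [show {pq : ℕ × ℕ | pq.1 ∈ R a ∧ pq.2 ∈ R a ∧ pq.1 ≤ x ∧ (A : ℤ) * pq.1 - B * pq.2 = c} = _ from h1.image_eq.symm,
    h1.injOn.ncard_image]
  unfold count
  rw [← Set.ncard_coe_finset]
  congr 1
  ext n
  simp only [Set.mem_ofPred_eq, Finset.coe_filter, Finset.mem_Icc, Fin.forall_fin_two, lin_eval0, lin_eval1]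

theorem main_eq {A B : ℕ} (hB : 0 < B) (hAB : A.Coprime B) {p0 q0 c : ℤ}
    (h0 : (A : ℤ) * p0 - B * q0 = c) (hp0 : p0 ≤ 0) (x : ℕ) :
    mainS A B c x = mainTerm (lin A B p0 q0) ((((x : ℤ) - p0) / B).toNat) := by
  classical
  have h1 := bij hB hAB h0 hp0 (fun r => 8 ≤ r) (fun r hr => by omega) x
  unfold mainS
  rw [← finsum_mem_eq_of_bijOn (f := fun n : ℕ => ∏ i, (1 / Real.log (((lin A B p0 q0 i).eval (n : ℤ) : ℤ) : ℝ))) _ h1]
  · unfold mainTerm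
    rw [← finsum_mem_coe_finset]
    congr 1
    ext n
    have hiff : (n ∈ {n : ℕ | (1 ≤ n ∧ n ≤ (((x : ℤ) - p0) / B).toNat) ∧ (∃ r : ℕ, 8 ≤ r ∧ (r : ℤ) = B * n + p0) ∧
        ∃ r : ℕ, 8 ≤ r ∧ (r : ℤ) = A * n + q0}) ↔ (n ∈ ((Finset.filter (fun n : ℕ => ∀ i, 8 ≤ (lin A B p0 q0 i).eval (n : ℤ))
          (Finset.Icc 1 ((((x : ℤ) - p0) / B).toNat)) : Finset ℕ) : Set ℕ)) := by
      simp only [Set.mem_ofPred_eq, Finset.coe_filter, Finset.mem_Icc, Fin.forall_fin_two, lin_eval0, lin_eval1]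
      refine and_congr_right fun _ => and_congr ?_ ?_
      · constructor
        · rintro ⟨r, hr, he⟩
          rw [← he]; exact_mod_cast hr
        · intro h
          refine ⟨((B : ℤ) * n + p0).toNat, by omega, by omega⟩
      · constructor
        · rintro ⟨r, hr, he⟩
          rw [← he]; exact_mod_cast hr
        · intro h
          refine ⟨((A : ℤ) * n + q0).toNat, by omega, by omega⟩
    simp only [hiff]
  · rintro n ⟨-, ⟨r, hr, hr'⟩, ⟨s, hs, hs'⟩⟩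
    have e1 : ((B : ℤ) * n + p0).toNat = r := by rw [← hr']; exact Int.toNat_natCast r
    have e2 : ((A : ℤ) * n + q0).toNat = s := by rw [← hs']; exact Int.toNat_natCast s
    rw [Fin.prod_univ_two, lin_eval0, lin_eval1, e1, e2, ← hr', ← hs']
    push_cast
    exact (one_div_mul_one_div _ _)

end Pool.Agent.W2helper14.RB
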