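import Pool.Agent.W2helper14.RB.Lin3
import Pool.Agent.W2helper14.RB.Gen3

set_option autoImplicit false

/-!
The equation `A p - B q = c`: the main theorem.
-/

namespace Pool.Agent.W2helper14.RB

open Filter MeasureTheory Polynomial Topology

/-- the partial products of the singular series -/
noncomputable def seriesL (A B : ℕ) (c : ℤ) (a : (p : Nat.Primes) → ZMod (p : ℕ)) (z : ℕ) : ℝ :=
  ∏ p ∈ primes 1 z, ((loc A B c a p : ℝ) / (p : ℕ)) / (1 - 1 / ((p : ℕ) : ℝ)) ^ 2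

/-- the solutions in `R` -/
def solSet (A B : ℕ) (c : ℤ) (a : (p : Nat.Primes) → ZMod (p : ℕ)) : Set (ℕ × ℕ) :=
  {pq | pq.1 ∈ R a ∧ pq.2 ∈ R a ∧ (A : ℤ) * pq.1 - B * pq.2 = c}

theorem exists_start {A B : ℕ} (hB : 0 < B) (hAB : A.Coprime B) (c : ℤ) :
    ∃ p0 q0 : ℤ, (A : ℤ) * p0 - B * q0 = c ∧ p0 ≤ 0 := by
  obtain ⟨r, s, hrs⟩ := Nat.isCoprime_iff_coprime.mpr hAB
  have hB' : (1 : ℤ) ≤ B := by exact_mod_cast hB
  refine ⟨c * r - B * |c * r|, -(c * s) - A * |c * r|, ?_, ?_⟩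
  · linear_combination c * hrs
  · have h1 := le_abs_self (c * r)
    have h2 := abs_nonneg (c * r)
    nlinarith

theorem tendsto_N {B : ℕ} (hB : 0 < B) {p0 : ℤ} (hp0 : p0 ≤ 0) :
    Tendsto (fun x : ℕ => (((x : ℤ) - p0) / B).toNat) atTop atTop := by
  have hB' : (0 : ℤ) < B := by exact_mod_cast hB
  rw [tendsto_atTop]
  intro b
  filter_upwards [eventually_ge_atTop (B * b)] with x hx
  have h1 : (b : ℤ) ≤ ((x : ℤ) - p0) / B := by
    rw [Int.le_ediv_iff_mul_le hB']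
    have : ((B * b : ℕ) : ℤ) ≤ x := by exact_mod_cast hx
    push_cast at this
    linarith
  omega

theorem N_le {B : ℕ} (hB : 0 < B) {p0 : ℤ} (hp0 : p0 ≤ 0) :
    ∀ᶠ x : ℕ in atTop, (((((x : ℤ) - p0) / B).toNat : ℕ) : ℝ) ≤ 2 * x := by
  have hB' : (0 : ℤ) < B := by exact_mod_cast hB
  filter_upwards [eventually_ge_atTop p0.natAbs] with x hx
  have h0 : (0 : ℤ) ≤ (x : ℤ) - p0 := by
    have : (0 : ℤ) ≤ x := Int.natCast_nonneg x
    linarith
  have h1 : ((x : ℤ) - p0) / B ≤ (x : ℤ) - p0 := Int.ediv_le_self _ h0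
  have h2 : -p0 ≤ x := by omega
  have h3 : ((((x : ℤ) - p0) / B).toNat : ℤ) ≤ 2 * x := by
    rw [Int.toNat_of_nonneg (Int.ediv_nonneg h0 hB'.le)]
    linarith
  exact_mod_cast h3

theorem finite_of_bounded {A B : ℕ} (hA : 0 < A) (hB : 0 < B) (c : ℤ) (M : ℕ) :
    {pq : ℕ × ℕ | (pq.1 ≤ M ∨ pq.2 ≤ M) ∧ (A : ℤ) * pq.1 - B * pq.2 = c}.Finite := by
  have hA' : (1 : ℤ) ≤ A := by exact_mod_cast hA
  have hB' : (1 : ℤ) ≤ B := by exact_mod_cast hB
  have hsub : {pq : ℕ × ℕ | (pq.1 ≤ M ∨ pq.2 ≤ M) ∧ (A : ℤ) * pq.1 - B * pq.2 = c} ⊆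
      Set.Iic ((A + B) * M + M + c.natAbs) ×ˢ Set.Iic ((A + B) * M + M + c.natAbs) := by
    rintro ⟨p, q⟩ ⟨h1, h2⟩
    simp only at h1 h2
    have hc1 : c ≤ c.natAbs := Int.le_natAbs
    have hc2 : -c ≤ c.natAbs := by
      have := Int.le_natAbs (a := -c)
      rwa [Int.natAbs_neg] at this
    have hp0 : (0 : ℤ) ≤ p := Int.natCast_nonneg p
    have hq0 : (0 : ℤ) ≤ q := Int.natCast_nonneg q
    have hM0 : (0 : ℤ) ≤ M := Int.natCast_nonneg M
    rcases h1 with h1 | h1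
    · have h3 : (p : ℤ) ≤ M := by exact_mod_cast h1
      have h4 : (q : ℤ) ≤ B * q := by nlinarith
      have h5 : (A : ℤ) * p ≤ A * M := by nlinarith
      have hq : (q : ℤ) ≤ (A + B) * M + M + c.natAbs := by nlinarith
      have hp : (p : ℤ) ≤ (A + B) * M + M + c.natAbs := by
        have : (0 : ℤ) ≤ (A + B) * M := by positivity
        have : (0 : ℤ) ≤ c.natAbs := Int.natCast_nonneg _
        linarith
      exact ⟨by exact_mod_cast hp, by exact_mod_cast hq⟩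
    · have h3 : (q : ℤ) ≤ M := by exact_mod_cast h1
      have h4 : (p : ℤ) ≤ A * p := by nlinarith
      have h5 : (B : ℤ) * q ≤ B * M := by nlinarith
      have hp : (p : ℤ) ≤ (A + B) * M + M + c.natAbs := by nlinarith
      have hq : (q : ℤ) ≤ (A + B) * M + M + c.natAbs := by
        have : (0 : ℤ) ≤ (A + B) * M := by positivity
        have : (0 : ℤ) ≤ c.natAbs := Int.natCast_nonneg _
        linarith
      exact ⟨by exact_mod_cast hp, by exact_mod_cast hq⟩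
  exact ((Set.finite_Iic _).prod (Set.finite_Iic _)).subset hsub

theorem V_pos (y : ℕ) : 0 < V y := Pool.Agent.W2helper64.BH.V_pos y

theorem finite_of_not_adm {A B : ℕ} (hA : 0 < A) (hB : 0 < B) (hAB : A.Coprime B) (c : ℤ)
    (a : (p : Nat.Primes) → ZMod (p : ℕ)) (h : ¬ Adm A B c a) : (solSet A B c a).Finite := by
  rw [← adm_iff hAB] at h
  push Not at h
  obtain ⟨w, hw⟩ := h
  set T : ℝ := 1 / V (w : ℕ) with hT
  set M : ℕ := ⌈Real.exp T⌉₊ with hM
  refine (finite_of_bounded hA hB c M).subset ?_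
  rintro ⟨p, q⟩ ⟨hp, hq, hpq⟩
  simp only at hp hq hpq
  refine ⟨?_, hpq⟩
  by_contra hcon
  push Not at hcon
  obtain ⟨h1, h2⟩ := hcon
  have key : ∀ r : ℕ, r ∈ R a → M < r → ((r : ℕ) : ZMod (w : ℕ)) ≠ a w := by
    intro r hr hMr
    apply hr.2 w
    have h3 : Real.exp T ≤ r := (Nat.le_ceil _).trans (by exact_mod_cast hMr.le)
    have h4 : T ≤ Real.log r := by
      rw [Real.le_log_iff_exp_le (lt_of_lt_of_le (Real.exp_pos T) h3)]
      exact h3
    have h5 := V_pos (w : ℕ)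
    calc (1 : ℝ) = V (w : ℕ) * T := by rw [hT]; field_simp
      _ ≤ V (w : ℕ) * Real.log r := by gcongr
  have hline : (A : ZMod (w : ℕ)) * ((p : ℕ) : ZMod (w : ℕ)) - B * ((q : ℕ) : ZMod (w : ℕ)) = c := by
    have := congrArg (fun z : ℤ => (z : ZMod (w : ℕ))) hpq
    push_cast at this
    exact this
  exact key q hq h2 (hw _ _ hline (key p hp h1))

theorem linear_ae : ∀ᵐ a ∂law, ∀ (A B : ℕ) (c : ℤ), 0 < A → 0 < B → A.Coprime B → c ≠ 0 →
    ∃ S : ℝ, 0 ≤ S ∧ Tendsto (seriesL A B c a) atTop (𝓝 S) ∧ (0 < S ↔ Adm A B c a) ∧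
      ((solSet A B c a).Infinite ↔ Adm A B c a) ∧
      ∀ ε : ℝ, 0 < ε → (fun x : ℕ => (sols A B c a x : ℝ) - S * mainS A B c x) =O[atTop]
        fun x : ℕ => (x : ℝ) ^ (1 / 2 + ε) := by
  classical
  filter_upwards [general3] with a ha A B c hA hB hAB hc
  obtain ⟨p0, q0, h0, hp0⟩ := exists_start hB hAB c
  have hinj := lin_inj h0 hc
  obtain ⟨S, hS0, hS1, hS2, hS3⟩ := ha 2 (lin A B p0 q0) hinj (lin_deg hA hB p0 q0)
  have hser : ∀ z, series (lin A B p0 q0) a z = seriesL A B c a z := by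
    intro z
    unfold series seriesL
    refine Finset.prod_congr rfl fun p _ => ?_
    have h1 := loc_add hAB h0 a p
    have h2 : (loc A B c a p : ℝ) + nu (lin A B p0 q0) a p = (p : ℕ) := by exact_mod_cast h1
    have h3 : ((p : ℕ) : ℝ) ≠ 0 := by exact_mod_cast p.2.ne_zero
    congr 1
    rw [eq_div_iff h3, sub_mul, div_mul_cancel₀ _ h3, one_mul]
    linarith
  have hadm : 0 < S ↔ Adm A B c a := by
    rw [hS2, ← adm_iff hAB]
    unfold Free
    refine forall_congr' fun p => ?_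
    rw [← nu_lt_iff]
    have h1 := loc_add hAB h0 a p
    have h2 : nu (lin A B p0 q0) a p < (p : ℕ) ↔ 0 < loc A B c a p := by omega
    rw [h2]
    unfold loc
    rw [Finset.card_pos]
    constructor
    · rintro ⟨⟨u, v⟩, huv⟩
      rw [Finset.mem_filter] at huv
      exact ⟨u, v, huv.2⟩
    · rintro ⟨u, v, huv⟩
      exact ⟨⟨u, v⟩, Finset.mem_filter.mpr ⟨Finset.mem_univ _, huv⟩⟩
  have hO : ∀ ε : ℝ, 0 < ε → (fun x : ℕ => (sols A B c a x : ℝ) - S * mainS A B c x) =O[atTop]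
        fun x : ℕ => (x : ℝ) ^ (1 / 2 + ε) := by
    intro ε hε
    have h1 := (hS3 ε hε).comp_tendsto (tendsto_N hB hp0)
    have h2 : (fun x : ℕ => (((((x : ℤ) - p0) / B).toNat : ℕ) : ℝ) ^ (1 / 2 + ε)) =O[atTop]
        fun x : ℕ => (x : ℝ) ^ (1 / 2 + ε) := by
      apply Asymptotics.IsBigO.of_bound ((2 : ℝ) ^ (1 / 2 + ε))
      filter_upwards [N_le hB hp0] with x hx
      have e1 : 0 ≤ (((((x : ℤ) - p0) / B).toNat : ℕ) : ℝ) := Nat.cast_nonneg _
      rw [Real.norm_eq_abs, Real.norm_eq_abs, abs_of_nonneg (Real.rpow_nonneg e1 _),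
        abs_of_nonneg (Real.rpow_nonneg (Nat.cast_nonneg _) _), ← Real.mul_rpow (by norm_num) (Nat.cast_nonneg _)]
      exact Real.rpow_le_rpow e1 hx (by linarith)
    refine (h1.trans h2).congr_left fun x => ?_
    rw [count_eq hB hAB h0 hp0, main_eq hB hAB h0 hp0]
    rfl
  refine ⟨S, hS0, hS1.congr hser, hadm, ⟨fun hinf => ?_, fun h => ?_⟩, hO⟩
  · by_contra hcon
    exact hinf (finite_of_not_adm hA hB hAB c a hcon)
  · have hS := hadm.mpr h
    have h1 := count_tendsto (lin A B p0 q0) hinj (lin_deg hA hB p0 q0) a hS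
      (θ := 1 / 2 + 1 / 8) (by norm_num) (hS3 (1 / 8) (by norm_num))
    have h2 := h1.comp (tendsto_N hB hp0)
    intro hfin
    obtain ⟨x, hx⟩ := (h2.eventually (eventually_gt_atTop ((solSet A B c a).ncard : ℝ))).exists
    simp only [Function.comp_apply] at hx
    rw [← count_eq hB hAB h0 hp0] at hx
    have h3 : sols A B c a x ≤ (solSet A B c a).ncard := by
      unfold sols
      apply Set.ncard_le_ncard _ hfin
      rintro pq ⟨e1, e2, -, e3⟩
      exact ⟨e1, e2, e3⟩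
    have h4 : (sols A B c a x : ℝ) ≤ (solSet A B c a).ncard := by exact_mod_cast h3
    linarith

end Pool.Agent.W2helper14.RB
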