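import Pool.Agent.W2helper14.RB.Lin4
import Pool.Agent.W2helper14.SH.F

set_option autoImplicit false

/-!
The equation `A p - B q = c` in short intervals.
-/

namespace Pool.Agent.W2helper14.RB

open Filter MeasureTheory Polynomial Topology

/-- the bounds of `⌊(x + P) / B⌋` -/
theorem NB {B : ℕ} (hB : 0 < B) {p0 : ℤ} (hp0 : p0 ≤ 0) (x : ℕ) :
    (B : ℝ) * ((((x : ℤ) - p0) / B).toNat : ℕ) ≤ x + (-p0 : ℝ) ∧
      (x : ℝ) + (-p0 : ℝ) < B * (((((x : ℤ) - p0) / B).toNat : ℕ) + 1) := by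
  have hB' : (0 : ℤ) < B := by exact_mod_cast hB
  have h0 : 0 ≤ ((x : ℤ) - p0) / B := Int.ediv_nonneg (by omega) hB'.le
  have h1 : ((((x : ℤ) - p0) / B).toNat : ℤ) = ((x : ℤ) - p0) / B := Int.toNat_of_nonneg h0
  have h2 := Int.mul_ediv_self_le (x := (x : ℤ) - p0) (k := (B : ℤ)) hB'.ne'
  have h3 := Int.lt_mul_ediv_self_add (x := (x : ℤ) - p0) (k := (B : ℤ)) hB'
  rw [← h1] at h2 h3
  constructor
  · have : (((B : ℤ) * ((((x : ℤ) - p0) / B).toNat : ℤ) : ℤ) : ℝ) ≤ (((x : ℤ) - p0 : ℤ) : ℝ) := by exact_mod_cast h2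
    push_cast at this
    linarith
  · have : ((((x : ℤ) - p0 : ℤ)) : ℝ) < (((B : ℤ) * ((((x : ℤ) - p0) / B).toNat : ℤ) + B : ℤ) : ℝ) := by exact_mod_cast h3
    push_cast at this
    linarith

theorem short_transfer {B : ℕ} (hB : 0 < B) {p0 : ℤ} (hp0 : p0 ≤ 0) (F G : ℕ → ℝ)
    (hs : ∀ δ : ℝ, 0 < δ → ∀ U : ℕ, ∀ᶠ y : ℕ in atTop, ∀ H : ℕ, (y : ℝ) ^ δ ≤ H →
        |(F (y + H) - F y) - (G (y + H) - G y)| ≤ H / Real.log ((y : ℝ) + H) ^ U)
    (hN : Tendsto (fun x : ℕ => (((x : ℤ) - p0) / B).toNat) atTop atTop)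
    (δ : ℝ) (hδ : 0 < δ) (U : ℕ) : ∀ᶠ x : ℕ in atTop, ∀ H : ℕ, (x : ℝ) ^ δ ≤ H →
        |(F ((((x + H : ℕ) : ℤ) - p0) / B).toNat - F (((x : ℤ) - p0) / B).toNat) -
          (G ((((x + H : ℕ) : ℤ) - p0) / B).toNat - G (((x : ℤ) - p0) / B).toNat)| ≤
          H / Real.log ((x : ℝ) + H) ^ U := by
  set N : ℕ → ℕ := fun x => (((x : ℤ) - p0) / B).toNat with hNdef
  set P : ℝ := (-p0 : ℝ) with hP
  have hP0 : 0 ≤ P := by
    rw [hP]
    have : (p0 : ℝ) ≤ 0 := by exact_mod_cast hp0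
    linarith
  have hB1 : (1 : ℝ) ≤ B := by exact_mod_cast hB
  have hbd : ∀ x : ℕ, (B : ℝ) * (N x : ℕ) ≤ x + P ∧ (x : ℝ) + P < B * ((N x : ℕ) + 1) := fun x => NB hB hp0 x
  have hmono : ∀ x y : ℕ, x ≤ y → N x ≤ N y := by
    intro x y hxy
    have h1 := (hbd x).1
    have h2 := (hbd y).2
    have h3 : (x : ℝ) ≤ y := by exact_mod_cast hxy
    have h4 : (B : ℝ) * (N x : ℕ) < B * ((N y : ℕ) + 1) := by linarith
    have h5 : (N x : ℝ) < (N y : ℕ) + 1 := lt_of_mul_lt_mul_left h4 (by linarith)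
    have h6 : N x < N y + 1 := by exact_mod_cast h5
    omega
  have hx2 : Tendsto (fun x : ℕ => (x : ℝ) ^ (δ / 2)) atTop atTop :=
    (tendsto_rpow_atTop (by positivity)).comp tendsto_natCast_atTop_atTop
  have hlog : Tendsto (fun x : ℕ => Real.log (x : ℝ)) atTop atTop :=
    Real.tendsto_log_atTop.comp tendsto_natCast_atTop_atTop
  filter_upwards [hN.eventually (hs (δ / 2) (by positivity) (U + 1)),
    hx2.eventually_ge_atTop (B * ((2 : ℝ) ^ (δ / 2) + 1)),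
    tendsto_natCast_atTop_atTop.eventually (eventually_ge_atTop (P + (2 * B + 1) ^ 2 + 1)),
    hlog.eventually_ge_atTop ((2 : ℝ) ^ (U + 2))] with x h1 h2 h3 h4 H hH
  have h3' : P + (2 * (B : ℝ) + 1) ^ 2 + 1 ≤ (x : ℝ) := h3
  have hx0 : (0 : ℝ) < x := by nlinarith [sq_nonneg (2 * (B : ℝ) + 1)]
  have hxP : P ≤ x := by nlinarith [sq_nonneg (2 * (B : ℝ) + 1)]
  obtain ⟨a1, a2⟩ := hbd x
  obtain ⟨b1, b2⟩ := hbd (x + H)
  push_cast at b1 b2
  have hle := hmono x (x + H) (by omega)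
  obtain ⟨K, hK⟩ := Nat.exists_eq_add_of_le hle
  have hKr : ((N (x + H) : ℕ) : ℝ) = N x + K := by exact_mod_cast hK
  rw [hKr] at b1 b2
  have hNx : (0 : ℝ) ≤ N x := Nat.cast_nonneg _
  have hK0 : (0 : ℝ) ≤ K := Nat.cast_nonneg _
  -- the power
  have hsq : (x : ℝ) ^ δ = (x : ℝ) ^ (δ / 2) * (x : ℝ) ^ (δ / 2) := by
    rw [← Real.rpow_add hx0]
    congr 1
    ring
  have h2δ : (0 : ℝ) < (2 : ℝ) ^ (δ / 2) := by positivity
  have hxδ1 : 1 ≤ (x : ℝ) ^ (δ / 2) := by nlinarith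
  have hHB : (B : ℝ) * ((2 : ℝ) ^ (δ / 2) * (x : ℝ) ^ (δ / 2) + 1) ≤ H := by
    refine le_trans ?_ hH
    rw [hsq]
    calc (B : ℝ) * ((2 : ℝ) ^ (δ / 2) * (x : ℝ) ^ (δ / 2) + 1) ≤
        B * ((2 : ℝ) ^ (δ / 2) * (x : ℝ) ^ (δ / 2) + (x : ℝ) ^ (δ / 2)) := by gcongr
      _ = (B * ((2 : ℝ) ^ (δ / 2) + 1)) * (x : ℝ) ^ (δ / 2) := by ring
      _ ≤ _ := by gcongr
  have hH1 : (1 : ℝ) ≤ H := by
    have : (1 : ℝ) * (0 + 1) ≤ (B : ℝ) * ((2 : ℝ) ^ (δ / 2) * (x : ℝ) ^ (δ / 2) + 1) := by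
      gcongr
      positivity
    linarith
  have hNle : (N x : ℝ) ≤ 2 * x := by
    have : (N x : ℝ) ≤ B * N x := by nlinarith
    linarith
  have hcond : ((N x : ℕ) : ℝ) ^ (δ / 2) ≤ K := by
    have e1 : ((N x : ℕ) : ℝ) ^ (δ / 2) ≤ (2 * x) ^ (δ / 2) := Real.rpow_le_rpow hNx hNle (by positivity)
    rw [Real.mul_rpow (by norm_num) hx0.le] at e1
    refine e1.trans ?_
    have e2 : (B : ℝ) * ((2 : ℝ) ^ (δ / 2) * (x : ℝ) ^ (δ / 2) + 1) < B * (K + 1) := by nlinarith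
    have e3 := lt_of_mul_lt_mul_left e2 (by linarith)
    linarith
  have h5 := h1 K hcond
  rw [← hK] at h5
  refine h5.trans ?_
  have hKH : (K : ℝ) ≤ 2 * H := by
    have : (B : ℝ) * K ≤ H + B := by nlinarith
    nlinarith
  -- the logarithm
  have ht : √((x : ℝ) + H) ≤ (N x : ℝ) + K := by
    set t : ℝ := √((x : ℝ) + H) with htt
    have ht2 : t * t = x + H := Real.mul_self_sqrt (by positivity)
    have ht3 : 2 * (B : ℝ) + 1 ≤ t := by
      apply Real.le_sqrt_of_sq_le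
      nlinarith
    have e1 : t * t < B * (N x + K + 1) := by rw [ht2]; linarith
    have e2 : B * (t + 1) ≤ t * t := by nlinarith
    have e3 : (B : ℝ) * (t + 1) < B * (N x + K + 1) := by linarith
    have e4 := lt_of_mul_lt_mul_left e3 (by linarith)
    linarith
  have hxH1 : (1 : ℝ) < x + H := by nlinarith [sq_nonneg (2 * (B : ℝ) + 1)]
  have hlx : 0 < Real.log ((x : ℝ) + H) := Real.log_pos hxH1
  have hlN : Real.log ((x : ℝ) + H) / 2 ≤ Real.log ((N x : ℝ) + K) := by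
    rw [← Real.log_sqrt (by positivity)]
    exact Real.log_le_log (Real.sqrt_pos.mpr (by positivity)) ht
  have hl4 : (2 : ℝ) ^ (U + 2) ≤ Real.log ((x : ℝ) + H) :=
    h4.trans (Real.log_le_log hx0 (by linarith))
  calc (K : ℝ) / Real.log (((N x : ℕ) : ℝ) + K) ^ (U + 1) ≤
      (2 * H) / (Real.log ((x : ℝ) + H) / 2) ^ (U + 1) := by gcongr
    _ = (2 : ℝ) ^ (U + 2) * (H / Real.log ((x : ℝ) + H) ^ U) / Real.log ((x : ℝ) + H) := by
        rw [div_pow, pow_succ (Real.log ((x : ℝ) + H)) U]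
        field_simp
        ring
    _ ≤ H / Real.log ((x : ℝ) + H) ^ U := by
        rw [div_le_iff₀ hlx, mul_comm]
        exact mul_le_mul_of_nonneg_left hl4 (by positivity)

theorem linear_ae2 : ∀ᵐ a ∂law, ∀ (A B : ℕ) (c : ℤ), 0 < A → 0 < B → A.Coprime B → c ≠ 0 →
    ∃ S : ℝ, 0 ≤ S ∧ Tendsto (seriesL A B c a) atTop (𝓝 S) ∧ (0 < S ↔ Adm A B c a) ∧
      ((solSet A B c a).Infinite ↔ Adm A B c a) ∧
      (∀ ε : ℝ, 0 < ε → (fun x : ℕ => (sols A B c a x : ℝ) - S * mainS A B c x) =O[atTop]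
        fun x : ℕ => (x : ℝ) ^ (1 / 2 + ε)) ∧
      ∀ δ : ℝ, 0 < δ → ∀ U : ℕ, ∀ᶠ x : ℕ in atTop, ∀ H : ℕ, (x : ℝ) ^ δ ≤ H →
        |((sols A B c a (x + H) : ℝ) - sols A B c a x) - S * (mainS A B c (x + H) - mainS A B c x)| ≤
          H / Real.log ((x : ℝ) + H) ^ U := by
  classical
  filter_upwards [linear_ae, Pool.Agent.W2helper14.SH.short_general] with a ha hs A B c hA hB hAB hc
  obtain ⟨S, hS0, hS1, hS2, hS3, hS4⟩ := ha A B c hA hB hAB hc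
  refine ⟨S, hS0, hS1, hS2, hS3, hS4, ?_⟩
  obtain ⟨p0, q0, h0, hp0⟩ := exists_start hB hAB c
  have hinj := lin_inj h0 hc
  have hser : ∀ z, series (lin A B p0 q0) a z = seriesL A B c a z := by
    intro z
    unfold series seriesL
    refine Finset.prod_congr rfl fun p _ => ?_
    have h1 := loc_add hAB h0 a p
    have h2 : (loc A B c a p : ℝ) + nu (lin A B p0 q0) a p = (p : ℕ) := by exact_mod_cast h1
    have h3 : ((p : ℕ) : ℝ) ≠ 0 := by exact_mod_cast p.2.ne_zero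
    congr 1
    rw [eq_div_iff h3, sub_mul, div_mul_cancel₀ _ h3, one_mul]
    linarith
  have hlim : Tendsto (series (lin A B p0 q0) a) atTop (𝓝 S) := hS1.congr fun z => (hser z).symm
  have h1 := hs 2 (lin A B p0 q0) hinj (lin_deg hA hB p0 q0) S hlim
  intro δ hδ U
  have h2 := short_transfer hB hp0 (fun n => (count (lin A B p0 q0) a n : ℝ)) (fun n => S * mainTerm (lin A B p0 q0) n)
    (fun δ hδ U => by
      filter_upwards [h1 δ hδ U] with y hy H hH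
      have := hy H hH
      rw [mul_sub] at this
      exact this) (tendsto_N hB hp0) δ hδ U
  filter_upwards [h2] with x hx H hH
  have := hx H hH
  rw [count_eq hB hAB h0 hp0, count_eq hB hAB h0 hp0, main_eq hB hAB h0 hp0, main_eq hB hAB h0 hp0, mul_sub]
  exact this

end Pool.Agent.W2helper14.RB
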