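import Pool.Agent.W2helper14.RB.Gen3
import Pool.Agent.W2helper14.RB.Cub

set_option autoImplicit false

/-!
The pair `m ^ 2 + 1`, `m ^ 2 + 3` in the random sieve set: the local factors.
-/

namespace Pool.Agent.W2helper14.RB

open Filter MeasureTheory Polynomial Topology

/-- the system consisting of `X ^ 2 + 1` and `X ^ 2 + 3` -/
noncomputable def sq : Fin 2 → ℤ[X] := ![X ^ 2 + C 1, X ^ 2 + C 3]

theorem sq_eval0 (z : ℤ) : (sq 0).eval z = z ^ 2 + 1 := by simp [sq]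

theorem sq_eval1 (z : ℤ) : (sq 1).eval z = z ^ 2 + 3 := by simp [sq]

theorem sq_facts (i : Fin 2) : 0 < (sq i).natDegree ∧ 0 < (sq i).leadingCoeff := by
  have h : ∀ c : ℤ, (X ^ 2 + C c : ℤ[X]).natDegree = 2 ∧ (X ^ 2 + C c : ℤ[X]).leadingCoeff = 1 := by
    intro c
    refine ⟨natDegree_X_pow_add_C, ?_⟩
    exact leadingCoeff_X_pow_add_C (by norm_num)
  have : (sq i).natDegree = 2 ∧ (sq i).leadingCoeff = 1 := by
    fin_cases i
    · exact h 1
    · exact h 3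
  rw [this.1, this.2]
  norm_num

theorem sq_inj : Function.Injective sq := by
  have h01 : sq 0 ≠ sq 1 := by
    intro h
    have := congrArg (fun p : ℤ[X] => p.eval 0) h
    simp only [sq_eval0, sq_eval1] at this
    norm_num at this
  intro i j hij
  fin_cases i <;> fin_cases j
  · rfl
  · exact absurd hij h01
  · exact absurd hij.symm h01
  · rfl

theorem nu_sq (a : (p : Nat.Primes) → ZMod (p : ℕ)) (p : Nat.Primes) :
    nu sq a p = ((Finset.range (p : ℕ)).filter fun m : ℕ =>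
      ((m : ZMod (p : ℕ)) ^ 2 + 1 = a p ∨ (m : ZMod (p : ℕ)) ^ 2 + 3 = a p)).card := by
  classical
  unfold nu
  congr 1
  ext m
  rw [Pool.Agent.W2helper64.RK.mf', Pool.Agent.W2helper64.RK.mf']
  refine and_congr_right fun _ => ?_
  rw [Fin.exists_fin_two, sq_eval0, sq_eval1]
  push_cast
  rfl

theorem nu_sq_two (a : (p : Nat.Primes) → ZMod (p : ℕ)) : nu sq a ⟨2, Nat.prime_two⟩ = 1 := by
  rw [nu_sq]
  have key : ∀ c : ZMod 2, ((Finset.range 2).filter fun m : ℕ =>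
      ((m : ZMod 2) ^ 2 + 1 = c ∨ (m : ZMod 2) ^ 2 + 3 = c)).card = 1 := by
    decide
  exact key (a ⟨2, Nat.prime_two⟩)

theorem nu_sq_three (a : (p : Nat.Primes) → ZMod (p : ℕ)) :
    nu sq a ⟨3, Nat.prime_three⟩ = if a ⟨3, Nat.prime_three⟩ = 1 then 3 else
      if a ⟨3, Nat.prime_three⟩ = 0 then 1 else 2 := by
  rw [nu_sq]
  have key : ∀ c : ZMod 3, ((Finset.range 3).filter fun m : ℕ =>
      ((m : ZMod 3) ^ 2 + 1 = c ∨ (m : ZMod 3) ^ 2 + 3 = c)).card = if c = 1 then 3 else if c = 0 then 1 else 2 := by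
    decide
  exact key (a ⟨3, Nat.prime_three⟩)

/-- the number of the solutions `0 ≤ m < p` of `m ^ 2 = c` -/
theorem card_sqrt (p : Nat.Primes) (hp : 5 ≤ (p : ℕ)) (c : ZMod (p : ℕ)) :
    (((Finset.range (p : ℕ)).filter fun m : ℕ => (m : ZMod (p : ℕ)) ^ 2 = c).card : ℤ) =
      quadraticChar (ZMod (p : ℕ)) c + 1 := by
  classical
  have hchar : ringChar (ZMod (p : ℕ)) ≠ 2 := by
    rw [ZMod.ringChar_zmod_n]
    omega
  have h := quadraticChar_card_sqrts hchar c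
  rw [← h]
  congr 1
  have : NeZero (p : ℕ) := ⟨p.2.ne_zero⟩
  refine Finset.card_bij (fun m _ => ((m : ℕ) : ZMod (p : ℕ))) ?_ ?_ ?_
  · intro m hm
    rw [Finset.mem_filter] at hm
    rw [Set.mem_toFinset]
    exact hm.2
  · intro m hm l hl hml
    rw [Finset.mem_filter, Finset.mem_range] at hm hl
    rw [ZMod.natCast_eq_natCast_iff] at hml
    have h3 : m % (p : ℕ) = l % (p : ℕ) := hml
    rwa [Nat.mod_eq_of_lt hm.1, Nat.mod_eq_of_lt hl.1] at h3
  · intro x hx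
    rw [Set.mem_toFinset] at hx
    have hx' : x ^ 2 = c := hx
    have htv : ((x.val : ℕ) : ZMod (p : ℕ)) = x := by
      rw [ZMod.natCast_val, ZMod.cast_id', id]
    refine ⟨x.val, ?_, htv⟩
    rw [Finset.mem_filter, Finset.mem_range]
    exact ⟨ZMod.val_lt x, by rw [htv]; exact hx'⟩

theorem nu_sq_big (a : (p : Nat.Primes) → ZMod (p : ℕ)) (p : Nat.Primes) (hp : 5 ≤ (p : ℕ)) :
    (nu sq a p : ℤ) = 2 + quadraticChar (ZMod (p : ℕ)) (a p - 1) + quadraticChar (ZMod (p : ℕ)) (a p - 3) := by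
  classical
  have h1 := card_sqrt p hp (a p - 1)
  have h3 := card_sqrt p hp (a p - 3)
  have h2 : (2 : ZMod (p : ℕ)) ≠ 0 := by
    intro h
    apply unit6 p hp
    linear_combination 3 * h
  have hdis : Disjoint ((Finset.range (p : ℕ)).filter fun m : ℕ => (m : ZMod (p : ℕ)) ^ 2 = a p - 1)
      ((Finset.range (p : ℕ)).filter fun m : ℕ => (m : ZMod (p : ℕ)) ^ 2 = a p - 3) := by
    rw [Finset.disjoint_left]
    intro m hm hm'
    rw [Finset.mem_filter] at hm hm'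
    apply h2
    linear_combination hm'.2 - hm.2
  have hun : nu sq a p = (((Finset.range (p : ℕ)).filter fun m : ℕ => (m : ZMod (p : ℕ)) ^ 2 = a p - 1) ∪
      ((Finset.range (p : ℕ)).filter fun m : ℕ => (m : ZMod (p : ℕ)) ^ 2 = a p - 3)).card := by
    rw [nu_sq]
    congr 1
    ext m
    rw [Finset.mem_union, Finset.mem_filter, Finset.mem_filter, Finset.mem_filter]
    constructor
    · rintro ⟨e1, e2 | e2⟩
      · exact Or.inl ⟨e1, by linear_combination e2⟩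
      · exact Or.inr ⟨e1, by linear_combination e2⟩
    · rintro (⟨e1, e2⟩ | ⟨e1, e2⟩)
      · exact ⟨e1, Or.inl (by linear_combination e2)⟩
      · exact ⟨e1, Or.inr (by linear_combination e2)⟩
  rw [hun, Finset.card_union_of_disjoint hdis]
  push_cast
  rw [h1, h3]
  ring

/-- the number `v w` of the classes `m` mod `w` with `m ^ 2 + 1 = a w` or `m ^ 2 + 3 = a w`, for `w ≥ 5` -/
noncomputable def vS (a : (p : Nat.Primes) → ZMod (p : ℕ)) (w : Nat.Primes) : ℤ :=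
  2 + quadraticChar (ZMod (w : ℕ)) (a w - 1) + quadraticChar (ZMod (w : ℕ)) (a w - 3)

/-- the product over the primes `5 ≤ w ≤ z` -/
noncomputable def productS (a : (p : Nat.Primes) → ZMod (p : ℕ)) (z : ℕ) : ℝ :=
  ∏ w ∈ primes 5 z, (((w : ℕ) : ℝ) * (((w : ℕ) : ℝ) - (vS a w : ℝ)) / (((w : ℕ) : ℝ) - 1) ^ 2)

/-- the factor of the primes `2` and `3` -/
noncomputable def kapS (a : (p : Nat.Primes) → ZMod (p : ℕ)) : ℝ :=
  if a ⟨3, Nat.prime_three⟩ = 0 then 3 else 3 / 2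

theorem mem_primes (m z : ℕ) (p : Nat.Primes) : p ∈ primes m z ↔ m ≤ (p : ℕ) ∧ (p : ℕ) ≤ z := by
  have h : p ∈ primes m z ↔ (p : ℕ) ∈ Finset.Icc m z := Finset.mem_subtype
  rw [h, Finset.mem_Icc]

/-- splitting off the primes `2` and `3` -/
theorem prod_split (F : Nat.Primes → ℝ) (z : ℕ) (hz : 3 ≤ z) :
    ∏ p ∈ primes 1 z, F p = F ⟨2, Nat.prime_two⟩ * (F ⟨3, Nat.prime_three⟩ * ∏ p ∈ primes 5 z, F p) := by
  classical
  set q2 : Nat.Primes := ⟨2, Nat.prime_two⟩ with hq2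
  set q3 : Nat.Primes := ⟨3, Nat.prime_three⟩ with hq3
  have hins : primes 1 z = insert q2 (insert q3 (primes 5 z)) := by
    ext p
    rw [Finset.mem_insert, Finset.mem_insert, mem_primes, mem_primes]
    have h2 : 2 ≤ (p : ℕ) := p.2.two_le
    constructor
    · rintro ⟨-, h4⟩
      by_cases e2 : (p : ℕ) = 2
      · exact Or.inl (Subtype.ext e2)
      by_cases e3 : (p : ℕ) = 3
      · exact Or.inr (Or.inl (Subtype.ext e3))
      by_cases e4 : (p : ℕ) = 4
      · have := p.2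
        rw [e4] at this
        exact absurd this (by norm_num)
      exact Or.inr (Or.inr ⟨by omega, h4⟩)
    · rintro (rfl | rfl | h4)
      · exact ⟨by norm_num, by show 2 ≤ z; omega⟩
      · exact ⟨by norm_num, hz⟩
      · exact ⟨by omega, h4.2⟩
  have hnot3 : q3 ∉ primes 5 z := by
    rw [mem_primes]
    intro h
    have : (5 : ℕ) ≤ 3 := h.1
    omega
  have hnot2 : q2 ∉ insert q3 (primes 5 z) := by
    rw [Finset.mem_insert, mem_primes]
    rintro (h | h)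
    · have : (2 : ℕ) = 3 := congrArg Subtype.val h
      omega
    · have : (5 : ℕ) ≤ 2 := h.1
      omega
  rw [hins, Finset.prod_insert hnot2, Finset.prod_insert hnot3]

theorem series_sq (a : (p : Nat.Primes) → ZMod (p : ℕ)) (h3 : a ⟨3, Nat.prime_three⟩ ≠ 1) (z : ℕ) (hz : 3 ≤ z) :
    series sq a z = kapS a * productS a z := by
  classical
  unfold series productS
  rw [prod_split _ z hz, nu_sq_two, nu_sq_three, if_neg h3]
  have e2 : (1 - ((1 : ℕ) : ℝ) / (((⟨2, Nat.prime_two⟩ : Nat.Primes) : ℕ) : ℝ)) /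
      (1 - 1 / (((⟨2, Nat.prime_two⟩ : Nat.Primes) : ℕ) : ℝ)) ^ 2 = 2 := by
    have : (((⟨2, Nat.prime_two⟩ : Nat.Primes) : ℕ) : ℝ) = 2 := by
      norm_num
    rw [this]
    norm_num
  have e3 : (1 - (((if a ⟨3, Nat.prime_three⟩ = 0 then 1 else 2 : ℕ)) : ℝ) / (((⟨3, Nat.prime_three⟩ : Nat.Primes) : ℕ) : ℝ)) /
      (1 - 1 / (((⟨3, Nat.prime_three⟩ : Nat.Primes) : ℕ) : ℝ)) ^ 2 = kapS a / 2 := by
    have : (((⟨3, Nat.prime_three⟩ : Nat.Primes) : ℕ) : ℝ) = 3 := by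
      norm_num
    rw [this]
    unfold kapS
    split_ifs <;> norm_num
  rw [e2, e3]
  have e4 : ∏ p ∈ primes 5 z, (1 - (nu sq a p : ℝ) / (p : ℕ)) / (1 - 1 / ((p : ℕ) : ℝ)) ^ 2 =
      ∏ w ∈ primes 5 z, (((w : ℕ) : ℝ) * (((w : ℕ) : ℝ) - (vS a w : ℝ)) / (((w : ℕ) : ℝ) - 1) ^ 2) := by
    refine Finset.prod_congr rfl fun p hp => ?_
    rw [mem_primes] at hp
    have hbig := nu_sq_big a p hp.1
    have hp3 : (5 : ℝ) ≤ ((p : ℕ) : ℝ) := by exact_mod_cast hp.1
    have hν : (nu sq a p : ℝ) = (vS a p : ℝ) := by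
      unfold vS
      exact_mod_cast hbig
    rw [hν]
    have h1 : ((p : ℕ) : ℝ) ≠ 0 := by linarith
    have h2 : ((p : ℕ) : ℝ) - 1 ≠ 0 := by linarith
    field_simp
  rw [e4]
  ring

theorem nu_sq_lt (a : (p : Nat.Primes) → ZMod (p : ℕ)) (h3 : a ⟨3, Nat.prime_three⟩ ≠ 1) (p : Nat.Primes) :
    nu sq a p < (p : ℕ) := by
  by_cases hp2 : (p : ℕ) = 2
  · obtain rfl : p = ⟨2, Nat.prime_two⟩ := Subtype.ext hp2
    rw [nu_sq_two]
    norm_num
  by_cases hp3 : (p : ℕ) = 3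
  · obtain rfl : p = ⟨3, Nat.prime_three⟩ := Subtype.ext hp3
    rw [nu_sq_three, if_neg h3]
    split_ifs <;> norm_num
  have hp4 : (p : ℕ) ≠ 4 := by
    intro h4
    have := p.2
    rw [h4] at this
    exact absurd this (by norm_num)
  have h2' := p.2.two_le
  have h5 : 5 ≤ (p : ℕ) := by omega
  have h6 := nu_sq_big a p h5
  have hle : ∀ c : ZMod (p : ℕ), quadraticChar (ZMod (p : ℕ)) c ≤ 1 := by
    intro c
    rcases quadraticChar_isQuadratic (ZMod (p : ℕ)) c with h | h | h <;> rw [h] <;> norm_num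
  have h7 := hle (a p - 1)
  have h8 := hle (a p - 3)
  have h9 : (5 : ℤ) ≤ ((p : ℕ) : ℤ) := by exact_mod_cast h5
  have : (nu sq a p : ℤ) < ((p : ℕ) : ℤ) := by linarith
  exact_mod_cast this

end Pool.Agent.W2helper14.RB
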