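import Pool.Agent.W2helper14.RB.Sq
import Pool.Agent.W2helper14.RB.Asy

set_option autoImplicit false

/-!
The pair `m ^ 2 + 1`, `m ^ 2 + 3` in the random sieve set: the theorem.
-/

namespace Pool.Agent.W2helper14.RB

open Filter MeasureTheory Polynomial Topology Asymptotics

/-- `log (n ^ 2 + c) / log n → 2` -/
theorem log_sq (c : ℝ) (hc : 0 ≤ c) :
    Tendsto (fun n : ℕ => Real.log n / Real.log ((n : ℝ) ^ 2 + c)) atTop (𝓝 (1 / 2)) := by
  have hlog : Tendsto (fun n : ℕ => Real.log (n : ℝ)) atTop atTop :=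
    Real.tendsto_log_atTop.comp tendsto_natCast_atTop_atTop
  have h1 : Tendsto (fun n : ℕ => Real.log ((n : ℝ) ^ 2 + c) / Real.log n) atTop (𝓝 2) := by
    have h2 : Tendsto (fun n : ℕ => 2 + Real.log (1 + c) / Real.log (n : ℝ)) atTop (𝓝 (2 + 0)) :=
      tendsto_const_nhds.add (tendsto_const_nhds.div_atTop hlog)
    rw [add_zero] at h2
    refine tendsto_of_tendsto_of_tendsto_of_le_of_le' (tendsto_const_nhds (x := (2 : ℝ))) h2 ?_ ?_
    · filter_upwards [eventually_ge_atTop 3] with n h3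
      have hn : (3 : ℝ) ≤ n := by exact_mod_cast h3
      have hL : 0 < Real.log (n : ℝ) := Real.log_pos (by linarith)
      rw [le_div_iff₀ hL]
      have : 2 * Real.log (n : ℝ) = Real.log ((n : ℝ) ^ 2) := by rw [Real.log_pow]; norm_num
      rw [this]
      exact Real.log_le_log (by positivity) (by linarith)
    · filter_upwards [eventually_ge_atTop 3] with n h3
      have hn : (3 : ℝ) ≤ n := by exact_mod_cast h3
      have hL : 0 < Real.log (n : ℝ) := Real.log_pos (by linarith)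
      rw [div_le_iff₀ hL, add_mul, div_mul_cancel₀ _ hL.ne']
      have : 2 * Real.log (n : ℝ) + Real.log (1 + c) = Real.log ((n : ℝ) ^ 2 * (1 + c)) := by
        rw [Real.log_mul (by positivity) (by positivity), Real.log_pow]; norm_num
      rw [this]
      refine Real.log_le_log (by positivity) ?_
      have h9 : 0 ≤ c * ((n : ℝ) ^ 2 - 1) := mul_nonneg hc (by nlinarith)
      nlinarith
  have h2 := h1.inv₀ (by norm_num)
  rw [← one_div] at h2
  refine h2.congr fun n => ?_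
  rw [inv_div]

theorem tm_sq (n : ℕ) : tm sq n = (1 / Real.log ((n : ℝ) ^ 2 + 1)) * (1 / Real.log ((n : ℝ) ^ 2 + 3)) := by
  unfold tm
  rw [Fin.prod_univ_two, sq_eval0, sq_eval1]
  push_cast
  rfl

theorem main_sq : Tendsto (fun N : ℕ => mainTerm sq N * Real.log N ^ 2 / N) atTop (𝓝 (1 / 4)) := by
  refine main_asymp sq ?_ _ ?_
  · filter_upwards [eventually_ge_atTop 3] with n h3 i
    have hn : (3 : ℤ) ≤ n := by exact_mod_cast h3
    fin_cases i
    · show 8 ≤ (sq 0).eval (n : ℤ)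
      rw [sq_eval0]
      nlinarith
    · show 8 ≤ (sq 1).eval (n : ℤ)
      rw [sq_eval1]
      nlinarith
  · have h := (log_sq 1 (by norm_num)).mul (log_sq 3 (by norm_num))
    rw [show (1 / 2 : ℝ) * (1 / 2) = 1 / 4 by norm_num] at h
    refine h.congr fun n => ?_
    rw [tm_sq]
    ring

/-- the set of the `m ≥ 1` with `m ^ 2 + 1, m ^ 2 + 3 ∈ R` -/
def sqSet (a : (p : Nat.Primes) → ZMod (p : ℕ)) : Set ℕ := {m | 1 ≤ m ∧ m ^ 2 + 1 ∈ R a ∧ m ^ 2 + 3 ∈ R a}

/-- the number of the `1 ≤ m ≤ N` with `m ^ 2 + 1, m ^ 2 + 3 ∈ R` -/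
noncomputable def sqCount (a : (p : Nat.Primes) → ZMod (p : ℕ)) (N : ℕ) : ℕ :=
  {m : ℕ | 1 ≤ m ∧ m ≤ N ∧ m ^ 2 + 1 ∈ R a ∧ m ^ 2 + 3 ∈ R a}.ncard

/-- the number of the `m ≥ 1` with `m ^ 2 + 1, m ^ 2 + 3 ∈ R` and `m ^ 2 + 3 < n` -/
noncomputable def sqQ (a : (p : Nat.Primes) → ZMod (p : ℕ)) (n : ℝ) : ℕ :=
  {m : ℕ | 1 ≤ m ∧ m ^ 2 + 1 ∈ R a ∧ m ^ 2 + 3 ∈ R a ∧ ((m : ℝ) ^ 2 + 3) < n}.ncard

theorem sqCount_eq (a : (p : Nat.Primes) → ZMod (p : ℕ)) (N : ℕ) : sqCount a N = count sq a N := by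
  classical
  unfold sqCount count
  rw [← Set.ncard_coe_finset]
  congr 1
  ext k
  simp only [Set.mem_ofPred_eq, Finset.coe_filter, Finset.mem_Icc]
  rw [and_assoc]
  refine and_congr_right fun _ => and_congr_right fun _ => ?_
  rw [Fin.forall_fin_two, sq_eval0, sq_eval1]
  constructor
  · rintro ⟨h1, h2⟩
    exact ⟨⟨_, h1, by push_cast; ring⟩, ⟨_, h2, by push_cast; ring⟩⟩
  · rintro ⟨⟨r, hr, he⟩, ⟨s, hs, hf⟩⟩
    have e1 : r = k ^ 2 + 1 := by
      have : (r : ℤ) = ((k ^ 2 + 1 : ℕ) : ℤ) := by rw [he]; push_cast; ring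
      exact_mod_cast this
    have e2 : s = k ^ 2 + 3 := by
      have : (s : ℤ) = ((k ^ 2 + 3 : ℕ) : ℤ) := by rw [hf]; push_cast; ring
      exact_mod_cast this
    rw [← e1, ← e2]
    exact ⟨hr, hs⟩

/-- the sum of `1 / (log (m ^ 2 + 1) log (m ^ 2 + 3))` over `3 ≤ m ≤ N` -/
noncomputable def mainS (N : ℕ) : ℝ :=
  ∑ m ∈ Finset.Icc 3 N, 1 / (Real.log ((m : ℝ) ^ 2 + 1) * Real.log ((m : ℝ) ^ 2 + 3))

theorem mainS_eq (N : ℕ) : mainS N = mainTerm sq N := by
  classical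
  unfold mainS mainTerm
  have hset : (Finset.filter (fun n : ℕ => ∀ i, 8 ≤ (sq i).eval (n : ℤ)) (Finset.Icc 1 N)) = Finset.Icc 3 N := by
    ext n
    simp only [Finset.mem_filter, Finset.mem_Icc, Fin.forall_fin_two, sq_eval0, sq_eval1]
    constructor
    · rintro ⟨⟨h1, h2⟩, h3, -⟩
      refine ⟨?_, h2⟩
      by_contra hcon
      have : n = 1 ∨ n = 2 := by omega
      rcases this with rfl | rfl <;> norm_num at h3
    · rintro ⟨h1, h2⟩
      have : (3 : ℤ) ≤ n := by exact_mod_cast h1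
      exact ⟨⟨by omega, h2⟩, by nlinarith, by nlinarith⟩
  refine Finset.sum_congr ?_ fun n _ => ?_
  · rw [← hset]
  · show _ = tm sq n
    rw [tm_sq, one_div_mul_one_div]

/-- the number of the `m ≥ 1` with `m ^ 2 + 3 < n` -/
noncomputable def KK (n : ℝ) : ℕ := ⌈√(n - 3)⌉₊ - 1

theorem sqQ_eq (a : (p : Nat.Primes) → ZMod (p : ℕ)) (n : ℝ) : sqQ a n = sqCount a (KK n) := by
  unfold sqQ sqCount KK
  congr 1
  ext m
  simp only [Set.mem_ofPred_eq]
  have h : 1 ≤ m → ((m : ℝ) ^ 2 + 3 < n ↔ m ≤ ⌈√(n - 3)⌉₊ - 1) := by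
    intro hm
    have h1 : (m : ℝ) ^ 2 + 3 < n ↔ (m : ℝ) < √(n - 3) := by
      rw [Real.lt_sqrt (Nat.cast_nonneg m)]
      constructor <;> intro h <;> linarith
    rw [h1, ← Nat.lt_ceil]
    omega
  constructor
  · rintro ⟨h1, h2, h3, h4⟩
    exact ⟨h1, (h h1).mp h4, h2, h3⟩
  · rintro ⟨h1, h4, h2, h3⟩
    exact ⟨h1, h2, h3, (h h1).mpr h4⟩

theorem KK_div : Tendsto (fun n : ℝ => (KK n : ℝ) / √n) atTop (𝓝 1) := by
  have hs : Tendsto (fun n : ℝ => √n) atTop atTop := Real.tendsto_sqrt_atTop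
  have h1 : Tendsto (fun n : ℝ => √(1 - 3 / n) - 1 / √n) atTop (𝓝 (√(1 - 0) - 0)) := by
    refine Tendsto.sub ?_ (tendsto_const_nhds.div_atTop hs)
    exact (Real.continuous_sqrt.tendsto _).comp
      (tendsto_const_nhds.sub (tendsto_const_nhds.div_atTop tendsto_id))
  rw [sub_zero, sub_zero, Real.sqrt_one] at h1
  refine tendsto_of_tendsto_of_tendsto_of_le_of_le' h1 (tendsto_const_nhds (x := (1 : ℝ))) ?_ ?_
  · filter_upwards [eventually_ge_atTop (4 : ℝ)] with n hn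
    have hsn : 0 < √n := Real.sqrt_pos.mpr (by linarith)
    have e : √(1 - 3 / n) = √(n - 3) / √n := by
      rw [← Real.sqrt_div (by linarith)]
      congr 1
      field_simp
    rw [e, ← sub_div]
    refine div_le_div_of_nonneg_right ?_ hsn.le
    unfold KK
    have h2 : √(n - 3) ≤ (⌈√(n - 3)⌉₊ : ℝ) := Nat.le_ceil _
    have h3 : 1 ≤ ⌈√(n - 3)⌉₊ := Nat.one_le_ceil_iff.mpr (Real.sqrt_pos.mpr (by linarith))
    rw [Nat.cast_sub h3]
    push_cast
    linarith
  · filter_upwards [eventually_ge_atTop (4 : ℝ)] with n hn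
    have hsn : 0 < √n := Real.sqrt_pos.mpr (by linarith)
    rw [div_le_one hsn]
    unfold KK
    have h2 : (⌈√(n - 3)⌉₊ : ℝ) < √(n - 3) + 1 := Nat.ceil_lt_add_one (Real.sqrt_nonneg _)
    have h3 : 1 ≤ ⌈√(n - 3)⌉₊ := Nat.one_le_ceil_iff.mpr (Real.sqrt_pos.mpr (by linarith))
    rw [Nat.cast_sub h3]
    push_cast
    have h4 : √(n - 3) ≤ √n := Real.sqrt_le_sqrt (by linarith)
    linarith

theorem KK_atTop : Tendsto KK atTop atTop := by
  have h1 : Tendsto (fun n : ℝ => (KK n : ℝ) / √n * √n) atTop atTop :=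
    KK_div.pos_mul_atTop one_pos Real.tendsto_sqrt_atTop
  rw [← tendsto_natCast_atTop_iff (R := ℝ)]
  refine h1.congr' ?_
  filter_upwards [eventually_gt_atTop (0 : ℝ)] with n hn
  have hsn : √n ≠ 0 := (Real.sqrt_pos.mpr hn).ne'
  field_simp

theorem log_KK : Tendsto (fun n : ℝ => Real.log n / Real.log (KK n)) atTop (𝓝 2) := by
  have h1 : Tendsto (fun n : ℝ => Real.log ((KK n : ℝ) / √n)) atTop (𝓝 0) := by
    have := (Real.continuousAt_log (show (1 : ℝ) ≠ 0 by norm_num)).tendsto.comp KK_div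
    rw [Real.log_one] at this
    exact this
  have h2 : Tendsto (fun n : ℝ => Real.log ((KK n : ℝ) / √n) / Real.log n + 1 / 2) atTop (𝓝 (0 + 1 / 2)) :=
    (h1.div_atTop Real.tendsto_log_atTop).add_const _
  rw [zero_add] at h2
  have h3 : Tendsto (fun n : ℝ => Real.log (KK n) / Real.log n) atTop (𝓝 (1 / 2)) := by
    refine h2.congr' ?_
    filter_upwards [eventually_gt_atTop (1 : ℝ), KK_atTop.eventually (eventually_ge_atTop 1)] with n hn hK
    have hL : 0 < Real.log n := Real.log_pos hn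
    have hK0 : (KK n : ℝ) ≠ 0 := by
      have : (1 : ℝ) ≤ KK n := by exact_mod_cast hK
      linarith
    have hsn : √n ≠ 0 := (Real.sqrt_pos.mpr (by linarith)).ne'
    rw [Real.log_div hK0 hsn, Real.log_sqrt (by linarith)]
    field_simp
    ring
  have h4 := h3.inv₀ (by norm_num)
  rw [one_div, inv_inv] at h4
  refine h4.congr fun n => ?_
  rw [inv_div]

theorem sqQ_tendsto (a : (p : Nat.Primes) → ZMod (p : ℕ)) (S : ℝ)
    (h : Tendsto (fun N : ℕ => (sqCount a N : ℝ) * Real.log N ^ 2 / N) atTop (𝓝 (S * (1 / 4)))) :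
    Tendsto (fun n : ℝ => Real.log n ^ 2 / √n * sqQ a n) atTop (𝓝 S) := by
  have h1 := (((h.comp KK_atTop).mul KK_div).mul (log_KK.pow 2))
  rw [show S * (1 / 4) * 1 * 2 ^ 2 = S by ring] at h1
  refine h1.congr' ?_
  filter_upwards [eventually_gt_atTop (1 : ℝ), KK_atTop.eventually (eventually_ge_atTop 3)] with n hn hK
  have hK3 : (3 : ℝ) ≤ KK n := by exact_mod_cast hK
  have hLK : Real.log (KK n : ℝ) ≠ 0 := (Real.log_pos (by linarith)).ne'
  have hK0 : (KK n : ℝ) ≠ 0 := by linarith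
  have hsn : √n ≠ 0 := (Real.sqrt_pos.mpr (by linarith)).ne'
  rw [sqQ_eq]
  simp only [Function.comp_apply]
  field_simp

theorem sq_finite (a : (p : Nat.Primes) → ZMod (p : ℕ)) (h3 : a ⟨3, Nat.prime_three⟩ = 1) : (sqSet a).Finite := by
  obtain ⟨M, hM⟩ := R_avoid a ⟨3, Nat.prime_three⟩
  refine (Set.finite_Iic M).subset ?_
  rintro k ⟨-, hk1, hk2⟩
  by_contra hcon
  rw [Set.mem_Iic, not_le] at hcon
  have hb : k ≤ k ^ 2 := Nat.le_self_pow (by norm_num) k
  have e1 := hM _ hk1 (by omega)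
  have e2 := hM _ hk2 (by omega)
  rw [h3] at e1 e2
  have key : ∀ x : ZMod 3, x ^ 2 + 1 ≠ 1 → x ^ 2 + 3 ≠ 1 → False := by decide
  refine key (k : ZMod 3) ?_ ?_
  · intro h
    apply e1
    show (((k ^ 2 + 1 : ℕ)) : ZMod 3) = 1
    push_cast
    exact h
  · intro h
    apply e2
    show (((k ^ 2 + 3 : ℕ)) : ZMod 3) = 1
    push_cast
    exact h

theorem sq_ae : ∀ᵐ a ∂law,
    ((sqSet a).Infinite ↔ a ⟨3, Nat.prime_three⟩ ≠ 1) ∧
    (a ⟨3, Nat.prime_three⟩ ≠ 1 →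
      ∃ S : ℝ, 0 < S ∧ Tendsto (productS a) atTop (𝓝 S) ∧
        Tendsto (fun n : ℝ => Real.log n ^ 2 / √n * sqQ a n) atTop (𝓝 (kapS a * S)) ∧
        ∀ ε : ℝ, 0 < ε →
          (fun N : ℕ => (sqCount a N : ℝ) - kapS a * S * mainS N) =O[atTop] fun N : ℕ => (N : ℝ) ^ (1 / 2 + ε)) := by
  filter_upwards [general3] with a ha
  obtain ⟨S, hS0, hS1, hS2, hS3⟩ := ha 2 sq sq_inj sq_facts
  have hk : 0 < kapS a := by
    unfold kapS
    split_ifs <;> norm_num
  have key : a ⟨3, Nat.prime_three⟩ ≠ 1 → 0 < S := by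
    intro h3
    rw [hS2]
    intro p
    rw [← nu_lt_iff]
    exact nu_sq_lt a h3 p
  refine ⟨⟨fun hinf => ?_, fun h => ?_⟩, fun h3 => ?_⟩
  · intro hcon
    exact hinf (sq_finite a hcon)
  · have hS := key h
    have h1 := count_tendsto sq sq_inj sq_facts a hS (θ := 1 / 2 + 1 / 8) (by norm_num) (hS3 (1 / 8) (by norm_num))
    intro hfin
    obtain ⟨N, hN⟩ := (h1.eventually (eventually_gt_atTop ((sqSet a).ncard : ℝ))).exists
    rw [← sqCount_eq] at hN
    have h3 : sqCount a N ≤ (sqSet a).ncard := by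
      unfold sqCount
      apply Set.ncard_le_ncard _ hfin
      rintro k ⟨e1, -, e3⟩
      exact ⟨e1, e3⟩
    have h4 : (sqCount a N : ℝ) ≤ (sqSet a).ncard := by exact_mod_cast h3
    linarith
  · have hS := key h3
    have eS : kapS a * (S / kapS a) = S := by field_simp
    refine ⟨S / kapS a, by positivity, ?_, ?_, fun ε hε => ?_⟩
    · have h4 : Tendsto (fun z => series sq a z / kapS a) atTop (𝓝 (S / kapS a)) := hS1.div_const _
      refine h4.congr' ?_
      filter_upwards [eventually_ge_atTop 3] with z hz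
      rw [series_sq a h3 z hz]
      field_simp
    · rw [eS]
      refine sqQ_tendsto a S ?_
      simp only [sqCount_eq]
      refine count_asymp sq a S (1 / 4) main_sq ?_
      have := hS3 (1 / 4) (by norm_num)
      rw [show (1 / 2 + 1 / 4 : ℝ) = 3 / 4 by norm_num] at this
      exact this
    · refine (hS3 ε hε).congr_left fun N => ?_
      rw [sqCount_eq, mainS_eq, eS]

end Pool.Agent.W2helper14.RB
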