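import Pool.Agent.W2helper64.RK.Engine
import Pool.Agent.W2helper64.RS.Main

set_option autoImplicit false
set_option linter.unusedSectionVars false

/-!
A square plus an element of the random set.
-/

namespace Pool.Agent.W2helper14.RB

open Finset Filter Topology MeasureTheory Pool.Agent.W2helper64.RS Pool.Agent.W2helper64.RK

/-- the dangerous class for the square `(y + j) ^ 2` below `n` -/
def PhiS (n y : ℕ) (p : Nat.Primes) (j : ℕ) : Finset (ZMod (p : ℕ)) :=
  {(n : ZMod (p : ℕ)) - ((y + j : ℕ) : ZMod (p : ℕ)) ^ 2}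

theorem natCast_injS {p : ℕ} {j l : ℕ} (hj : j < p) (hl : l < p) (h : (j : ZMod p) = (l : ZMod p)) : j = l := by
  rw [ZMod.natCast_eq_natCast_iff] at h
  have h3 : j % p = l % p := h
  rwa [Nat.mod_eq_of_lt hj, Nat.mod_eq_of_lt hl] at h3

theorem card_classS (p : Nat.Primes) (c : ZMod (p : ℕ)) :
    ((range (p : ℕ)).filter (fun j : ℕ => (j : ZMod (p : ℕ)) = c)).card ≤ 1 := by
  rw [card_le_one]
  intro i hi j hj
  rw [Finset.mem_filter, mem_range] at hi hj
  exact natCast_injS hi.1 hj.1 (hi.2.trans hj.2.symm)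

theorem adm_PhiS (n y : ℕ) {F : Finset Nat.Primes} (p : {x // x ∈ F}) :
    Adm 2 p (PhiS n y p) := by
  classical
  have : Fact ((p : Nat.Primes) : ℕ).Prime := ⟨(p : Nat.Primes).2⟩
  have : NeZero ((p : Nat.Primes) : ℕ) := ⟨(p : Nat.Primes).2.ne_zero⟩
  have hcard2 : ∀ r : ZMod ((p : Nat.Primes) : ℕ),
      ((range ((p : Nat.Primes) : ℕ)).filter (fun j => r ∈ PhiS n y p j)).card ≤ 2 := by
    intro r
    by_cases hex : ∃ x : ZMod ((p : Nat.Primes) : ℕ), x ^ 2 = n - r
    · obtain ⟨x, hx⟩ := hex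
      have hsub : (range ((p : Nat.Primes) : ℕ)).filter (fun j => r ∈ PhiS n y p j) ⊆
        (range ((p : Nat.Primes) : ℕ)).filter (fun j : ℕ => (j : ZMod ((p : Nat.Primes) : ℕ)) = x - y) ∪
        (range ((p : Nat.Primes) : ℕ)).filter (fun j : ℕ => (j : ZMod ((p : Nat.Primes) : ℕ)) = -x - y) := by
        intro j hj
        rw [Finset.mem_filter] at hj
        obtain ⟨hj1, hj2⟩ := hj
        unfold PhiS at hj2
        rw [mem_singleton] at hj2
        rw [mem_union, Finset.mem_filter, Finset.mem_filter]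
        have h1 : ((y + j : ℕ) : ZMod ((p : Nat.Primes) : ℕ)) ^ 2 = x ^ 2 := by
          rw [hx, hj2]; ring
        rcases sq_eq_sq_iff_eq_or_eq_neg.mp h1 with h | h
        · left
          refine ⟨hj1, ?_⟩
          push_cast at h
          linear_combination h
        · right
          refine ⟨hj1, ?_⟩
          push_cast at h
          linear_combination h
      refine (card_le_card hsub).trans ((card_union_le _ _).trans ?_)
      have h1 := card_classS (p : Nat.Primes) (x - y)
      have h2 := card_classS (p : Nat.Primes) (-x - y)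
      omega
    · have : (range ((p : Nat.Primes) : ℕ)).filter (fun j => r ∈ PhiS n y p j) = ∅ := by
        rw [filter_eq_empty_iff]
        intro j _ hj2
        apply hex
        unfold PhiS at hj2
        rw [mem_singleton] at hj2
        refine ⟨((y + j : ℕ) : ZMod ((p : Nat.Primes) : ℕ)), ?_⟩
        rw [hj2]; ring
      rw [this, card_empty]
      omega
  refine ⟨fun j => ?_, fun j => ?_, hcard2, fun r => ?_⟩
  · unfold PhiS
    have : ((y + j : ℕ) : ZMod ((p : Nat.Primes) : ℕ)) =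
        ((y + j % ((p : Nat.Primes) : ℕ) : ℕ) : ZMod ((p : Nat.Primes) : ℕ)) := by
      push_cast
      rw [ZMod.natCast_mod]
    rw [this]
  · unfold PhiS
    rw [card_singleton]
    omega
  · by_contra hcon
    push Not at hcon
    have hall : (range ((p : Nat.Primes) : ℕ)).filter (fun j => r ∈ PhiS n y p j) =
        range ((p : Nat.Primes) : ℕ) := by
      rw [filter_eq_self]
      exact fun j _ => hcon j
    have h1 := hcard2 r
    rw [hall, card_range] at h1
    have hp2 : ((p : Nat.Primes) : ℕ) = 2 := le_antisymm h1 (p : Nat.Primes).2.two_le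
    have h3 : ∀ j, ((y + j : ℕ) : ZMod ((p : Nat.Primes) : ℕ)) ^ 2 = n - r := by
      intro j
      have h4 := hcon j
      unfold PhiS at h4
      rw [mem_singleton] at h4
      rw [h4]; ring
    have h5 := h3 0
    have h6 := h3 1
    rw [← h5] at h6
    have h20 : (2 : ZMod ((p : Nat.Primes) : ℕ)) = 0 := by
      have : ((2 : ℕ) : ZMod ((p : Nat.Primes) : ℕ)) = 0 := by
        rw [ZMod.natCast_eq_zero_iff, hp2]
      exact_mod_cast this
    have h7 : (1 : ZMod ((p : Nat.Primes) : ℕ)) = 0 := by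
      push_cast at h6
      linear_combination h6 - (y : ZMod ((p : Nat.Primes) : ℕ)) * h20
    exact one_ne_zero h7

theorem ae_sqp : ∃ C : ℝ, 2 ≤ C ∧ ∀ᵐ a ∂law, ∀ᶠ n : ℕ in atTop, ∀ y : ℕ,
    ((y : ℝ) + Real.log n ^ C) ^ 2 + 8 ≤ n →
      ∃ m : ℕ, y < m ∧ (m : ℝ) ≤ y + Real.log n ^ C ∧ m ^ 2 ≤ n ∧ n - m ^ 2 ∈ R a := by
  obtain ⟨C, hC, hE⟩ := law_engine 2 (by norm_num)
  refine ⟨C, hC, ?_⟩
  have hlog : Tendsto (fun x : ℕ => Real.log (x : ℝ)) atTop atTop :=
    Real.tendsto_log_atTop.comp tendsto_natCast_atTop_atTop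
  have hb := bc (fun N : ℕ => ⋃ y ∈ (range (N + 1) : Finset ℕ),
      {a | Bad (PX (1 * Real.log N)) (PhiS N y) ⌊Real.log N ^ C⌋₊ a}) 2 (by norm_num) (by
    filter_upwards [hlog.eventually (hE 1 le_rfl), eventually_ge_atTop 1] with N hx hN1
    have hN0 : (1 : ℝ) ≤ N := by exact_mod_cast hN1
    calc law (⋃ y ∈ range (N + 1), {a | Bad (PX (1 * Real.log N)) (PhiS N y) ⌊Real.log N ^ C⌋₊ a})
        ≤ ∑ y ∈ range (N + 1), law {a | Bad (PX (1 * Real.log N)) (PhiS N y) ⌊Real.log N ^ C⌋₊ a} :=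
          measure_biUnion_finset_le _ _
      _ ≤ ∑ y ∈ range (N + 1), ENNReal.ofReal (Real.exp (-(4 * Real.log N))) :=
          Finset.sum_le_sum fun y _ => hx (PhiS N y) (fun p => adm_PhiS N y p)
      _ = ENNReal.ofReal ((N + 1 : ℕ) * Real.exp (-(4 * Real.log N))) := by
          rw [sum_const, nsmul_eq_mul, card_range,
            ENNReal.ofReal_mul (by positivity), ENNReal.ofReal_natCast]
      _ ≤ _ := by
          apply ENNReal.ofReal_le_ofReal
          have h1 : Real.exp (-(4 * Real.log N)) = 1 / (N : ℝ) ^ 4 := by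
            rw [Real.exp_neg, one_div]
            congr 1
            rw [← Real.exp_log (by linarith : (0 : ℝ) < N), Real.log_exp, ← Real.exp_nat_mul]
            norm_num
          rw [h1]
          push_cast
          rw [mul_one_div, mul_one_div, div_le_div_iff₀ (by positivity) (by positivity)]
          have h2 : ((N : ℝ) + 1) ≤ 2 * N := by linarith
          have h3 : (N : ℝ) ≤ N ^ 2 := by nlinarith
          calc ((N : ℝ) + 1) * N ^ 2 ≤ 2 * N * N ^ 2 := mul_le_mul_of_nonneg_right h2 (by positivity)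
            _ ≤ 2 * N ^ 2 * N ^ 2 := by
                apply mul_le_mul_of_nonneg_right _ (by positivity)
                linarith
            _ = 2 * N ^ 4 := by ring)
  filter_upwards [hb] with a ha
  filter_upwards [ha, eventually_ge_atTop 3] with N hN hN3 y hyN
  have hl : 0 ≤ Real.log (N : ℝ) := Real.log_nonneg (by exact_mod_cast (by omega : 1 ≤ N))
  have hlC : 0 ≤ Real.log (N : ℝ) ^ C := Real.rpow_nonneg hl _
  have hy0 : (0 : ℝ) ≤ y := Nat.cast_nonneg _
  have hnb : ¬ Bad (PX (1 * Real.log N)) (PhiS N y) ⌊Real.log N ^ C⌋₊ a := by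
    intro hbad
    apply hN
    simp only [Set.mem_iUnion, exists_prop]
    refine ⟨y, ?_, hbad⟩
    rw [mem_range]
    have h1 : (y : ℝ) ^ 2 ≤ N := by nlinarith
    have h2 : y ^ 2 ≤ N := by exact_mod_cast h1
    nlinarith
  unfold Bad at hnb
  push Not at hnb
  obtain ⟨j, hj, hjn⟩ := hnb
  rw [Finset.mem_Icc] at hj
  have hjle : (j : ℝ) ≤ Real.log N ^ C :=
    (by exact_mod_cast hj.2 : (j : ℝ) ≤ ((⌊Real.log N ^ C⌋₊ : ℕ) : ℝ)).trans (Nat.floor_le (by positivity))
  have hrN : (y + j) ^ 2 + 8 ≤ N := by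
    have h1 : ((y : ℝ) + j) ^ 2 ≤ ((y : ℝ) + Real.log N ^ C) ^ 2 := by
      apply pow_le_pow_left₀ (by positivity)
      linarith
    have : (((y + j) ^ 2 + 8 : ℕ) : ℝ) ≤ N := by push_cast; linarith
    exact_mod_cast this
  have e1 : Real.exp 2 ≤ 8 := by
    have : Real.exp 2 = Real.exp 1 * Real.exp 1 := by rw [← Real.exp_add]; norm_num
    rw [this]
    have := Real.exp_one_lt_d9
    have := Real.exp_pos 1
    nlinarith
  have hmem : ∀ s : ℕ, 8 ≤ s → s ≤ N → ∀ p : Nat.Primes, 1 ≤ V (p : ℕ) * Real.log s →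
      p ∈ PX (1 * Real.log N) := by
    intro s hs hsN p hp
    rw [mem_PX, one_mul]
    refine hp.trans (mul_le_mul_of_nonneg_left ?_ (V_nonneg _))
    exact Real.log_le_log (by exact_mod_cast (by omega : 0 < s)) (by exact_mod_cast hsN)
  have h8 : 8 ≤ N - (y + j) ^ 2 := by omega
  refine ⟨y + j, by omega, by push_cast; linarith, by omega, ⟨?_, fun p hp heq => ?_⟩⟩
  · exact e1.trans (by exact_mod_cast h8)
  · refine hjn p (hmem _ h8 (by omega) p hp) ?_
    unfold PhiS
    rw [← heq, Nat.cast_sub (by omega), Nat.cast_pow]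
    exact mem_singleton_self _

end Pool.Agent.W2helper14.RB
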