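import Pool.Agent.W2helper14.RB.SqA

set_option autoImplicit false

/-!
The pair `n`, `n (n + 1) / 2 + 1` in the random sieve set.
-/

namespace Pool.Agent.W2helper14.RB

open Filter MeasureTheory Polynomial Topology Asymptotics

/-- the system for `n = 2 m + e` -/
noncomputable def tri (e : ℤ) : Fin 2 → ℤ[X] := ![C 2 * X + C e, C 2 * X ^ 2 + C (2 * e + 1) * X + C (1 + e)]

theorem tri_eval0 (e z : ℤ) : (tri e 0).eval z = 2 * z + e := by simp [tri]

theorem tri_eval1 (e z : ℤ) : (tri e 1).eval z = 2 * z ^ 2 + (2 * e + 1) * z + (1 + e) := by simp [tri]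

theorem tri_facts (e : ℤ) (i : Fin 2) : 0 < (tri e i).natDegree ∧ 0 < (tri e i).leadingCoeff := by
  fin_cases i
  · show 0 < (C 2 * X + C e : ℤ[X]).natDegree ∧ 0 < (C 2 * X + C e : ℤ[X]).leadingCoeff
    rw [natDegree_linear (by norm_num), leadingCoeff_linear (by norm_num)]
    norm_num
  · show 0 < (C 2 * X ^ 2 + C (2 * e + 1) * X + C (1 + e) : ℤ[X]).natDegree ∧
      0 < (C 2 * X ^ 2 + C (2 * e + 1) * X + C (1 + e) : ℤ[X]).leadingCoeff
    rw [natDegree_quadratic (by norm_num), leadingCoeff_quadratic (by norm_num)]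
    norm_num

theorem tri_inj (e : ℤ) : Function.Injective (tri e) := by
  have h01 : tri e 0 ≠ tri e 1 := by
    intro h
    have := congrArg (fun p : ℤ[X] => p.eval 0) h
    simp only [tri_eval0, tri_eval1] at this
    linarith
  intro i j hij
  fin_cases i <;> fin_cases j
  · rfl
  · exact absurd hij h01
  · exact absurd hij.symm h01
  · rfl

theorem nu_tri (e : ℤ) (a : (p : Nat.Primes) → ZMod (p : ℕ)) (p : Nat.Primes) :
    nu (tri e) a p = ((Finset.range (p : ℕ)).filter fun m : ℕ =>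
      (2 * (m : ZMod (p : ℕ)) + e = a p ∨
        2 * (m : ZMod (p : ℕ)) ^ 2 + (2 * e + 1) * m + (1 + e) = a p)).card := by
  classical
  unfold nu
  congr 1
  ext m
  rw [Pool.Agent.W2helper64.RK.mf', Pool.Agent.W2helper64.RK.mf']
  refine and_congr_right fun _ => ?_
  rw [Fin.exists_fin_two, tri_eval0, tri_eval1]
  push_cast
  rfl

/-- the number of the classes `n` modulo `w` with `n = a w` or `n (n + 1) / 2 + 1 = a w`, for `w ≥ 3` -/
noncomputable def vT (a : (p : Nat.Primes) → ZMod (p : ℕ)) (w : Nat.Primes) : ℤ :=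
  2 + quadraticChar (ZMod (w : ℕ)) (8 * a w - 7) - if a w ^ 2 - a w + 2 = 0 then 1 else 0

theorem two_ne (p : Nat.Primes) (hp : 3 ≤ (p : ℕ)) : (2 : ZMod (p : ℕ)) ≠ 0 := by
  intro h
  have h1 : ((2 : ℕ) : ZMod (p : ℕ)) = 0 := by exact_mod_cast h
  rw [ZMod.natCast_eq_zero_iff] at h1
  have := Nat.le_of_dvd (by norm_num) h1
  omega

theorem cast_inj' {p : Nat.Primes} {m l : ℕ} (hm : m < (p : ℕ)) (hl : l < (p : ℕ))
    (h : (m : ZMod (p : ℕ)) = l) : m = l := by
  rw [ZMod.natCast_eq_natCast_iff] at h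
  have h3 : m % (p : ℕ) = l % (p : ℕ) := h
  rwa [Nat.mod_eq_of_lt hm, Nat.mod_eq_of_lt hl] at h3

theorem nu_tri_big (e : ℤ) (he : e * e = e) (a : (p : Nat.Primes) → ZMod (p : ℕ)) (p : Nat.Primes) (hp : 3 ≤ (p : ℕ)) :
    (nu (tri e) a p : ℤ) = vT a p := by
  classical
  have h2 := two_ne p hp
  have : NeZero (p : ℕ) := ⟨p.2.ne_zero⟩
  have hee : (e : ZMod (p : ℕ)) * e = e := by exact_mod_cast congrArg (fun z : ℤ => (z : ZMod (p : ℕ))) he
  have h4 : (4 : ZMod (p : ℕ)) ≠ 0 := by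
    have : (4 : ZMod (p : ℕ)) = 2 * 2 := by norm_num
    rw [this]
    exact mul_ne_zero h2 h2
  have h8 : (8 : ZMod (p : ℕ)) ≠ 0 := by
    have : (8 : ZMod (p : ℕ)) = 2 * 4 := by norm_num
    rw [this]
    exact mul_ne_zero h2 h4
  have hval : ∀ x : ZMod (p : ℕ), ((x.val : ℕ) : ZMod (p : ℕ)) = x := fun x => by
    rw [ZMod.natCast_val, ZMod.cast_id', id]
  set A : Finset ℕ := (Finset.range (p : ℕ)).filter fun m : ℕ => 2 * (m : ZMod (p : ℕ)) + e = a p with hA
  set B : Finset ℕ := (Finset.range (p : ℕ)).filter fun m : ℕ =>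
    2 * (m : ZMod (p : ℕ)) ^ 2 + (2 * e + 1) * m + (1 + e) = a p with hB
  have hAB : nu (tri e) a p = (A ∪ B).card := by
    rw [nu_tri]
    congr 1
    ext m
    rw [hA, hB, Finset.mem_union, Finset.mem_filter, Finset.mem_filter, Finset.mem_filter]
    tauto
  have hAone : ∀ m : ℕ, m ∈ A ↔ m = ((a p - e) / 2 : ZMod (p : ℕ)).val := by
    intro m
    rw [hA, Finset.mem_filter, Finset.mem_range]
    constructor
    · rintro ⟨e1, e2⟩
      refine cast_inj' e1 (ZMod.val_lt _) ?_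
      rw [hval]
      rw [← e2]
      field_simp
      ring
    · rintro rfl
      refine ⟨ZMod.val_lt _, ?_⟩
      rw [hval]
      field_simp
      ring
  have hAcard : A.card = 1 := by
    rw [Finset.card_eq_one]
    refine ⟨((a p - e) / 2 : ZMod (p : ℕ)).val, ?_⟩
    ext m
    rw [hAone, Finset.mem_singleton]
  have hBcard : (B.card : ℤ) = quadraticChar (ZMod (p : ℕ)) (8 * a p - 7) + 1 := by
    have hchar : ringChar (ZMod (p : ℕ)) ≠ 2 := by
      rw [ZMod.ringChar_zmod_n]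
      omega
    have h := quadraticChar_card_sqrts hchar (8 * a p - 7)
    rw [← h]
    congr 1
    refine Finset.card_bij (fun m _ => (4 * ((m : ℕ) : ZMod (p : ℕ)) + 2 * e + 1)) ?_ ?_ ?_
    · intro m hm
      rw [hB, Finset.mem_filter] at hm
      rw [Set.mem_toFinset]
      show (4 * ((m : ℕ) : ZMod (p : ℕ)) + 2 * e + 1) ^ 2 = 8 * a p - 7
      rw [← hm.2]
      linear_combination 4 * hee
    · intro m hm l hl hml
      rw [hB, Finset.mem_filter, Finset.mem_range] at hm hl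
      refine cast_inj' hm.1 hl.1 ?_
      apply mul_left_cancel₀ h4
      linear_combination hml
    · intro x hx
      rw [Set.mem_toFinset] at hx
      have hx' : x ^ 2 = 8 * a p - 7 := hx
      set t : ZMod (p : ℕ) := (x - 2 * e - 1) / 4 with ht
      have htx : 4 * t + 2 * e + 1 = x := by
        rw [ht]
        field_simp
        ring
      refine ⟨t.val, ?_, by rw [hval, htx]⟩
      rw [hB, Finset.mem_filter, Finset.mem_range]
      refine ⟨ZMod.val_lt t, ?_⟩
      rw [hval]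
      apply mul_left_cancel₀ h8
      rw [← htx] at hx'
      linear_combination hx' - 4 * hee
  have hinter : (A ∩ B).card = if a p ^ 2 - a p + 2 = 0 then 1 else 0 := by
    set m0 : ℕ := ((a p - e) / 2 : ZMod (p : ℕ)).val with hm0
    have hm0v : 2 * (m0 : ZMod (p : ℕ)) + e = a p := by
      rw [hm0, hval]
      field_simp
      ring
    have hiff : m0 ∈ B ↔ a p ^ 2 - a p + 2 = 0 := by
      rw [hB, Finset.mem_filter, Finset.mem_range]
      constructor
      · rintro ⟨-, h⟩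
        rw [← hm0v] at h ⊢
        linear_combination 2 * h + hee
      · intro h
        refine ⟨by rw [hm0]; exact ZMod.val_lt _, ?_⟩
        rw [← hm0v] at h ⊢
        apply mul_left_cancel₀ h2
        linear_combination h - hee
    split_ifs with hif
    · rw [Finset.card_eq_one]
      refine ⟨m0, ?_⟩
      ext m
      rw [Finset.mem_inter, hAone, Finset.mem_singleton]
      constructor
      · exact fun h => h.1
      · rintro rfl
        exact ⟨rfl, hiff.mpr hif⟩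
    · rw [Finset.card_eq_zero]
      ext m
      rw [Finset.mem_inter, hAone]
      constructor
      · rintro ⟨rfl, h⟩
        exact absurd (hiff.mp h) hif
      · intro h
        exact absurd h (Finset.notMem_empty _)
  have hunion := Finset.card_union_add_card_inter A B
  have h9 : ((A ∪ B).card : ℤ) = A.card + B.card - (A ∩ B).card := by
    have : ((A ∪ B).card : ℤ) + (A ∩ B).card = A.card + B.card := by exact_mod_cast hunion
    linarith
  rw [hAB, h9, hAcard, hBcard, hinter]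
  unfold vT
  push_cast
  ring

theorem nu_tri_two (e : ℤ) (he : e = 0 ∨ e = 1) (a : (p : Nat.Primes) → ZMod (p : ℕ))
    (h : (e : ZMod 2) ≠ a ⟨2, Nat.prime_two⟩) : nu (tri e) a ⟨2, Nat.prime_two⟩ = 1 := by
  rw [nu_tri]
  have key0 : ∀ c : ZMod 2, ((0 : ℤ) : ZMod 2) ≠ c → ((Finset.range 2).filter fun m : ℕ =>
      (2 * (m : ZMod 2) + ((0 : ℤ) : ZMod 2) = c ∨ 2 * (m : ZMod 2) ^ 2 + (2 * ((0 : ℤ) : ZMod 2) + 1) * m + (1 + ((0 : ℤ) : ZMod 2)) = c)).card = 1 := by
    decide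
  have key1 : ∀ c : ZMod 2, ((1 : ℤ) : ZMod 2) ≠ c → ((Finset.range 2).filter fun m : ℕ =>
      (2 * (m : ZMod 2) + ((1 : ℤ) : ZMod 2) = c ∨ 2 * (m : ZMod 2) ^ 2 + (2 * ((1 : ℤ) : ZMod 2) + 1) * m + (1 + ((1 : ℤ) : ZMod 2)) = c)).card = 1 := by
    decide
  rcases he with rfl | rfl
  · exact key0 (a ⟨2, Nat.prime_two⟩) h
  · exact key1 (a ⟨2, Nat.prime_two⟩) h

theorem vT_three (a : (p : Nat.Primes) → ZMod (p : ℕ)) (h3 : a ⟨3, Nat.prime_three⟩ ≠ 1) :
    vT a ⟨3, Nat.prime_three⟩ ≤ 2 := by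
  unfold vT
  have key : ∀ c : ZMod 3, c ≠ 1 → quadraticChar (ZMod 3) (8 * c - 7) ≤ 0 := by decide
  have h := key (a ⟨3, Nat.prime_three⟩) h3
  have h' : quadraticChar (ZMod ((⟨3, Nat.prime_three⟩ : Nat.Primes) : ℕ)) (8 * a ⟨3, Nat.prime_three⟩ - 7) ≤ 0 := h
  split_ifs <;> linarith

theorem nu_tri_lt (e : ℤ) (he : e = 0 ∨ e = 1) (a : (p : Nat.Primes) → ZMod (p : ℕ))
    (h : (e : ZMod 2) ≠ a ⟨2, Nat.prime_two⟩) (h3 : a ⟨3, Nat.prime_three⟩ ≠ 1) (p : Nat.Primes) :
    nu (tri e) a p < (p : ℕ) := by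
  have hee : e * e = e := by rcases he with rfl | rfl <;> norm_num
  by_cases hp2 : (p : ℕ) = 2
  · obtain rfl : p = ⟨2, Nat.prime_two⟩ := Subtype.ext hp2
    rw [nu_tri_two e he a h]
    norm_num
  have h2' := p.2.two_le
  have h33 : 3 ≤ (p : ℕ) := by omega
  have h6 := nu_tri_big e hee a p h33
  by_cases hp3 : (p : ℕ) = 3
  · obtain rfl : p = ⟨3, Nat.prime_three⟩ := Subtype.ext hp3
    have h7 := vT_three a h3
    have : (nu (tri e) a ⟨3, Nat.prime_three⟩ : ℤ) < 3 := by linarith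
    exact_mod_cast this
  have hp4 : (p : ℕ) ≠ 4 := by
    intro h4
    have := p.2
    rw [h4] at this
    exact absurd this (by norm_num)
  have h5 : 5 ≤ (p : ℕ) := by omega
  have h7 : quadraticChar (ZMod (p : ℕ)) (8 * a p - 7) ≤ 1 := by
    rcases quadraticChar_isQuadratic (ZMod (p : ℕ)) (8 * a p - 7) with h | h | h <;> rw [h] <;> norm_num
  have h9 : (5 : ℤ) ≤ ((p : ℕ) : ℤ) := by exact_mod_cast h5
  have h10 : vT a p ≤ 3 := by
    unfold vT
    split_ifs <;> linarith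
  have : (nu (tri e) a p : ℤ) < ((p : ℕ) : ℤ) := by linarith
  exact_mod_cast this

/-- the product over the primes `3 ≤ w ≤ z` -/
noncomputable def productT (a : (p : Nat.Primes) → ZMod (p : ℕ)) (z : ℕ) : ℝ :=
  ∏ w ∈ primes 3 z, (((w : ℕ) : ℝ) * (((w : ℕ) : ℝ) - (vT a w : ℝ)) / (((w : ℕ) : ℝ) - 1) ^ 2)

theorem series_tri (e : ℤ) (he : e = 0 ∨ e = 1) (a : (p : Nat.Primes) → ZMod (p : ℕ))
    (h : (e : ZMod 2) ≠ a ⟨2, Nat.prime_two⟩) (z : ℕ) (hz : 2 ≤ z) : series (tri e) a z = 2 * productT a z := by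
  classical
  have hee : e * e = e := by rcases he with rfl | rfl <;> norm_num
  unfold series productT
  set q2 : Nat.Primes := ⟨2, Nat.prime_two⟩ with hq2
  have hins : primes 1 z = insert q2 (primes 3 z) := by
    ext p
    rw [Finset.mem_insert, mem_primes, mem_primes]
    have h2 : 2 ≤ (p : ℕ) := p.2.two_le
    constructor
    · rintro ⟨-, h4⟩
      by_cases e2 : (p : ℕ) = 2
      · exact Or.inl (Subtype.ext e2)
      exact Or.inr ⟨by omega, h4⟩
    · rintro (rfl | h4)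
      · exact ⟨by norm_num, hz⟩
      · exact ⟨by omega, h4.2⟩
  have hnot2 : q2 ∉ primes 3 z := by
    rw [mem_primes]
    rintro h
    have : (3 : ℕ) ≤ 2 := h.1
    omega
  rw [hins, Finset.prod_insert hnot2, hq2, nu_tri_two e he a h]
  have e2 : (1 - ((1 : ℕ) : ℝ) / (((⟨2, Nat.prime_two⟩ : Nat.Primes) : ℕ) : ℝ)) /
      (1 - 1 / (((⟨2, Nat.prime_two⟩ : Nat.Primes) : ℕ) : ℝ)) ^ 2 = 2 := by
    have : (((⟨2, Nat.prime_two⟩ : Nat.Primes) : ℕ) : ℝ) = 2 := by
      norm_num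
    rw [this]
    norm_num
  rw [e2]
  congr 1
  refine Finset.prod_congr rfl fun p hp => ?_
  rw [mem_primes] at hp
  have hbig := nu_tri_big e hee a p hp.1
  have hp3 : (3 : ℝ) ≤ ((p : ℕ) : ℝ) := by exact_mod_cast hp.1
  have hν : (nu (tri e) a p : ℝ) = (vT a p : ℝ) := by exact_mod_cast hbig
  rw [hν]
  have h1 : ((p : ℕ) : ℝ) ≠ 0 := by linarith
  have h2 : ((p : ℕ) : ℝ) - 1 ≠ 0 := by linarith
  field_simp

end Pool.Agent.W2helper14.RB
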