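import Pool.Agent.W2helper14.RB.Tri

set_option autoImplicit false

/-!
The pair `n`, `n (n + 1) / 2 + 1` in the random sieve set: the theorem.
-/

namespace Pool.Agent.W2helper14.RB

open Filter MeasureTheory Polynomial Topology Asymptotics

/-- `log n / log F(n) → 1 / k` when `F n` is of the size `n ^ k` -/
theorem log_size (F : ℕ → ℝ) (k : ℕ) (hk : 0 < k) (c : ℝ) (hc : 1 ≤ c)
    (h : ∀ᶠ n : ℕ in atTop, (n : ℝ) ^ k ≤ F n ∧ F n ≤ (n : ℝ) ^ k * c) :
    Tendsto (fun n : ℕ => Real.log n / Real.log (F n)) atTop (𝓝 (1 / k)) := by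
  have hlog : Tendsto (fun n : ℕ => Real.log (n : ℝ)) atTop atTop :=
    Real.tendsto_log_atTop.comp tendsto_natCast_atTop_atTop
  have hk0 : (0 : ℝ) < k := by exact_mod_cast hk
  have h1 : Tendsto (fun n : ℕ => Real.log (F n) / Real.log n) atTop (𝓝 k) := by
    have h2 : Tendsto (fun n : ℕ => k + Real.log c / Real.log (n : ℝ)) atTop (𝓝 (k + 0)) :=
      tendsto_const_nhds.add (tendsto_const_nhds.div_atTop hlog)
    rw [add_zero] at h2
    refine tendsto_of_tendsto_of_tendsto_of_le_of_le' (tendsto_const_nhds (x := (k : ℝ))) h2 ?_ ?_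
    · filter_upwards [h, eventually_ge_atTop 3] with n hF h3
      have hn : (3 : ℝ) ≤ n := by exact_mod_cast h3
      have hL : 0 < Real.log (n : ℝ) := Real.log_pos (by linarith)
      rw [le_div_iff₀ hL]
      have : k * Real.log (n : ℝ) = Real.log ((n : ℝ) ^ k) := by rw [Real.log_pow]
      rw [this]
      exact Real.log_le_log (by positivity) hF.1
    · filter_upwards [h, eventually_ge_atTop 3] with n hF h3
      have hn : (3 : ℝ) ≤ n := by exact_mod_cast h3
      have hL : 0 < Real.log (n : ℝ) := Real.log_pos (by linarith)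
      rw [div_le_iff₀ hL, add_mul, div_mul_cancel₀ _ hL.ne']
      have : k * Real.log (n : ℝ) + Real.log c = Real.log ((n : ℝ) ^ k * c) := by
        rw [Real.log_mul (by positivity) (by positivity), Real.log_pow]
      rw [this]
      refine Real.log_le_log ?_ hF.2
      exact lt_of_lt_of_le (by positivity) hF.1
  have h2 := h1.inv₀ hk0.ne'
  rw [← one_div] at h2
  refine h2.congr fun n => ?_
  rw [inv_div]

/-- the set of the `n` with `n, n (n + 1) / 2 + 1 ∈ R` -/
def triSet (a : (p : Nat.Primes) → ZMod (p : ℕ)) : Set ℕ := {n | n ∈ R a ∧ n * (n + 1) / 2 + 1 ∈ R a}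

/-- the number of the `n ≤ x` with `n, n (n + 1) / 2 + 1 ∈ R` -/
noncomputable def triCount (a : (p : Nat.Primes) → ZMod (p : ℕ)) (x : ℕ) : ℕ :=
  {n : ℕ | n ≤ x ∧ n ∈ R a ∧ n * (n + 1) / 2 + 1 ∈ R a}.ncard

/-- the sum of `1 / (log n log (n (n + 1) / 2 + 1))` over the `8 ≤ n ≤ x` outside the class `a 2` modulo `2` -/
noncomputable def mainT (a : (p : Nat.Primes) → ZMod (p : ℕ)) (x : ℕ) : ℝ :=
  ∑ n ∈ (Finset.Icc 8 x).filter (fun n : ℕ => (n : ZMod 2) ≠ a ⟨2, Nat.prime_two⟩),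
    1 / (Real.log n * Real.log ((n : ℝ) * (n + 1) / 2 + 1))

theorem V_two : V 2 = 1 / 2 := by
  unfold V
  have : (Finset.Icc 1 2).filter Nat.Prime = {2} := by decide
  rw [this, Finset.prod_singleton]
  norm_num

/-- all elements of `R` avoid the class `a 2` -/
theorem R_two (a : (p : Nat.Primes) → ZMod (p : ℕ)) {n : ℕ} (hn : n ∈ R a) :
    (n : ZMod 2) ≠ a ⟨2, Nat.prime_two⟩ := by
  apply hn.2 ⟨2, Nat.prime_two⟩
  show 1 ≤ V 2 * Real.log n
  rw [V_two]
  have h1 : Real.exp 2 ≤ n := hn.1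
  have h2 : 2 ≤ Real.log n := by
    rw [Real.le_log_iff_exp_le (lt_of_lt_of_le (Real.exp_pos 2) h1)]
    exact h1
  linarith

theorem R_ge {a : (p : Nat.Primes) → ZMod (p : ℕ)} {n : ℕ} (hn : n ∈ R a) : 7 < n := by
  have h1 : Real.exp 2 ≤ n := hn.1
  have h2 : (7 : ℝ) < Real.exp 2 := by
    have : Real.exp 2 = Real.exp 1 * Real.exp 1 := by rw [← Real.exp_add]; norm_num
    rw [this]
    have := Real.exp_one_gt_d9
    nlinarith
  exact_mod_cast lt_of_lt_of_le h2 h1

theorem parity {e n : ℕ} (he : e = 0 ∨ e = 1) {c : ZMod 2} (h : (e : ZMod 2) ≠ c) : (n : ZMod 2) ≠ c ↔ n % 2 = e := by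
  have key : ∀ x y z : ZMod 2, x ≠ z → y ≠ z → x = y := by decide
  constructor
  · intro h1
    have h2 := key _ _ _ h1 h
    rw [ZMod.natCast_eq_natCast_iff] at h2
    have h3 : n % 2 = e % 2 := h2
    omega
  · intro h1 h2
    apply h
    rw [← h2, ZMod.natCast_eq_natCast_iff]
    show e % 2 = n % 2
    omega

theorem tri_nat {e : ℕ} (he : e = 0 ∨ e = 1) (m : ℕ) :
    (2 * m + e) * (2 * m + e + 1) / 2 + 1 = 2 * m ^ 2 + (2 * e + 1) * m + (1 + e) := by
  have h : (2 * m + e) * (2 * m + e + 1) = 2 * (2 * m ^ 2 + (2 * e + 1) * m + e) := by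
    rcases he with rfl | rfl <;> ring
  rw [h, Nat.mul_div_cancel_left _ (by norm_num)]
  ring

theorem triCount_eq {e : ℕ} (he : e = 0 ∨ e = 1) (a : (p : Nat.Primes) → ZMod (p : ℕ))
    (h : (e : ZMod 2) ≠ a ⟨2, Nat.prime_two⟩) (x : ℕ) : triCount a x = count (tri e) a ((x - e) / 2) := by
  classical
  have h1 : {n : ℕ | n ≤ x ∧ n ∈ R a ∧ n * (n + 1) / 2 + 1 ∈ R a} = (fun m : ℕ => 2 * m + e) ''
      {m : ℕ | (1 ≤ m ∧ m ≤ (x - e) / 2) ∧ 2 * m + e ∈ R a ∧ 2 * m ^ 2 + (2 * e + 1) * m + (1 + e) ∈ R a} := by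
    ext n
    simp only [Set.mem_image, Set.mem_ofPred_eq]
    constructor
    · rintro ⟨h1, h2, h3⟩
      have h4 := (parity he h).mp (R_two a h2)
      have h5 := R_ge h2
      have e1 : 2 * (n / 2) + e = n := by omega
      refine ⟨n / 2, ⟨⟨by omega, by omega⟩, ?_, ?_⟩, e1⟩
      · rw [e1]; exact h2
      · rw [← tri_nat he, e1]; exact h3
    · rintro ⟨m, ⟨⟨h1, h2⟩, h3, h4⟩, rfl⟩
      refine ⟨by omega, h3, ?_⟩
      rw [tri_nat he]
      exact h4
  unfold triCount
  rw [h1, Set.ncard_image_of_injective _ (fun x y hxy => by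
    have : 2 * x + e = 2 * y + e := hxy
    omega)]
  unfold count
  rw [← Set.ncard_coe_finset]
  congr 1
  ext m
  simp only [Set.mem_ofPred_eq, Finset.coe_filter, Finset.mem_Icc]
  refine and_congr_right fun _ => ?_
  rw [Fin.forall_fin_two, tri_eval0, tri_eval1]
  constructor
  · rintro ⟨h1, h2⟩
    exact ⟨⟨_, h1, by push_cast; ring⟩, ⟨_, h2, by push_cast; ring⟩⟩
  · rintro ⟨⟨r, hr, hre⟩, ⟨s, hs, hse⟩⟩
    have e1 : r = 2 * m + e := by
      have : (r : ℤ) = ((2 * m + e : ℕ) : ℤ) := by rw [hre]; push_cast; ring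
      exact_mod_cast this
    have e2 : s = 2 * m ^ 2 + (2 * e + 1) * m + (1 + e) := by
      have : (s : ℤ) = ((2 * m ^ 2 + (2 * e + 1) * m + (1 + e) : ℕ) : ℤ) := by rw [hse]; push_cast; ring
      exact_mod_cast this
    rw [← e1, ← e2]
    exact ⟨hr, hs⟩

theorem mainT_eq {e : ℕ} (he : e = 0 ∨ e = 1) (a : (p : Nat.Primes) → ZMod (p : ℕ))
    (h : (e : ZMod 2) ≠ a ⟨2, Nat.prime_two⟩) (x : ℕ) : mainT a x = mainTerm (tri e) ((x - e) / 2) := by
  classical
  unfold mainT mainTerm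
  refine Finset.sum_nbij' (fun n => n / 2) (fun m => 2 * m + e) ?_ ?_ ?_ ?_ ?_
  · intro n hn
    rw [Finset.mem_filter, Finset.mem_Icc] at hn
    obtain ⟨⟨h1, h2⟩, h3⟩ := hn
    have h4 := (parity he h).mp h3
    simp only [Finset.mem_filter, Finset.mem_Icc, Fin.forall_fin_two, tri_eval0, tri_eval1]
    have e1 : 2 * (n / 2) + e = n := by omega
    have h5 : 3 ≤ n / 2 := by omega
    refine ⟨⟨by omega, by omega⟩, ?_, ?_⟩
    · have : (8 : ℤ) ≤ ((2 * (n / 2) + e : ℕ) : ℤ) := by rw [e1]; exact_mod_cast h1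
      push_cast at this
      exact this
    · have h6 : (3 : ℤ) ≤ ((n / 2 : ℕ) : ℤ) := by exact_mod_cast h5
      have h7 : (0 : ℤ) ≤ (e : ℤ) := Int.natCast_nonneg e
      nlinarith
  · intro m hm
    simp only [Finset.mem_filter, Finset.mem_Icc, Fin.forall_fin_two, tri_eval0, tri_eval1] at hm
    obtain ⟨⟨h1, h2⟩, h3, -⟩ := hm
    have h4 : 8 ≤ 2 * m + e := by exact_mod_cast h3
    rw [Finset.mem_filter, Finset.mem_Icc]
    refine ⟨⟨h4, by omega⟩, ?_⟩
    rw [parity he h]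
    omega
  · intro n hn
    rw [Finset.mem_filter, Finset.mem_Icc] at hn
    have h4 := (parity he h).mp hn.2
    omega
  · intro m hm
    omega
  · intro n hn
    rw [Finset.mem_filter, Finset.mem_Icc] at hn
    have h4 := (parity he h).mp hn.2
    have e1 : 2 * (n / 2) + e = n := by omega
    rw [Fin.prod_univ_two, tri_eval0, tri_eval1, one_div_mul_one_div]
    have hn' : (n : ℝ) = 2 * ((n / 2 : ℕ) : ℝ) + e := by exact_mod_cast e1.symm
    set m : ℕ := n / 2 with hm
    rw [hn']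
    push_cast
    congr 3
    rcases he with rfl | rfl
    · push_cast; ring
    · push_cast; ring

theorem main_tri {e : ℕ} (he : e = 0 ∨ e = 1) :
    Tendsto (fun N : ℕ => mainTerm (tri e) N * Real.log N ^ 2 / N) atTop (𝓝 (1 / 2)) := by
  have he1 : (e : ℝ) ≤ 1 := by rcases he with rfl | rfl <;> norm_num
  have he0 : (0 : ℝ) ≤ e := Nat.cast_nonneg e
  refine main_asymp (tri e) ?_ _ ?_
  · filter_upwards [eventually_ge_atTop 4] with n h3
    rw [Fin.forall_fin_two, tri_eval0, tri_eval1]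
    have hn : (4 : ℤ) ≤ n := by exact_mod_cast h3
    have h7 : (0 : ℤ) ≤ (e : ℤ) := Int.natCast_nonneg e
    exact ⟨by linarith, by nlinarith⟩
  · have h1 := log_size (fun n : ℕ => 2 * (n : ℝ) + e) 1 one_pos 3 (by norm_num) (by
      filter_upwards [eventually_ge_atTop 3] with n h3
      have hn : (3 : ℝ) ≤ n := by exact_mod_cast h3
      rw [pow_one]
      constructor <;> linarith)
    have h2 := log_size (fun n : ℕ => 2 * (n : ℝ) ^ 2 + (2 * e + 1) * n + (1 + e)) 2 two_pos 6 (by norm_num) (by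
      filter_upwards [eventually_ge_atTop 3] with n h3
      have hn : (3 : ℝ) ≤ n := by exact_mod_cast h3
      constructor
      · nlinarith [mul_nonneg he0 (by linarith : (0 : ℝ) ≤ n)]
      · have : (2 * (e : ℝ) + 1) * n ≤ 3 * n := by nlinarith
        nlinarith)
    have h := h1.mul h2
    rw [show (1 / ((1 : ℕ) : ℝ)) * (1 / ((2 : ℕ) : ℝ)) = 1 / 2 by norm_num] at h
    refine h.congr fun n => ?_
    unfold tm
    rw [Fin.prod_univ_two, tri_eval0, tri_eval1]
    push_cast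
    ring

theorem MM_atTop (e : ℕ) : Tendsto (fun x : ℕ => (x - e) / 2) atTop atTop := by
  refine tendsto_atTop_mono (f := fun x : ℕ => x / 2 - e) (fun x => by omega) ?_
  exact (tendsto_sub_atTop_nat e).comp (Nat.tendsto_div_const_atTop (by norm_num))

theorem MM_div {e : ℕ} (he : e = 0 ∨ e = 1) :
    Tendsto (fun x : ℕ => (((x - e) / 2 : ℕ) : ℝ) / x) atTop (𝓝 (1 / 2)) := by
  have h1 : Tendsto (fun x : ℕ => 1 / 2 - 1 / (x : ℝ)) atTop (𝓝 (1 / 2 - 0)) :=
    tendsto_const_nhds.sub tendsto_one_div_atTop_nhds_zero_nat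
  rw [sub_zero] at h1
  refine tendsto_of_tendsto_of_tendsto_of_le_of_le' h1 (tendsto_const_nhds (x := (1 / 2 : ℝ))) ?_ ?_
  · filter_upwards [eventually_ge_atTop 4] with x hx
    have hx0 : (0 : ℝ) < x := by exact_mod_cast (by omega : 0 < x)
    rw [le_div_iff₀ hx0, sub_mul, div_mul_cancel₀ _ hx0.ne']
    have : x ≤ 2 * ((x - e) / 2) + 2 := by omega
    have : (x : ℝ) ≤ 2 * (((x - e) / 2 : ℕ) : ℝ) + 2 := by exact_mod_cast this
    linarith
  · filter_upwards [eventually_ge_atTop 4] with x hx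
    have hx0 : (0 : ℝ) < x := by exact_mod_cast (by omega : 0 < x)
    rw [div_le_iff₀ hx0]
    have : 2 * ((x - e) / 2) ≤ x := by omega
    have : 2 * (((x - e) / 2 : ℕ) : ℝ) ≤ x := by exact_mod_cast this
    linarith

theorem MM_log {e : ℕ} (he : e = 0 ∨ e = 1) :
    Tendsto (fun x : ℕ => Real.log x / Real.log (((x - e) / 2 : ℕ) : ℝ)) atTop (𝓝 1) := by
  have hlog : Tendsto (fun n : ℕ => Real.log (n : ℝ)) atTop atTop :=
    Real.tendsto_log_atTop.comp tendsto_natCast_atTop_atTop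
  have h1 : Tendsto (fun x : ℕ => Real.log ((((x - e) / 2 : ℕ) : ℝ) / x)) atTop (𝓝 (Real.log (1 / 2))) :=
    (Real.continuousAt_log (show (1 / 2 : ℝ) ≠ 0 by norm_num)).tendsto.comp (MM_div he)
  have h2 : Tendsto (fun x : ℕ => Real.log ((((x - e) / 2 : ℕ) : ℝ) / x) / Real.log x + 1) atTop (𝓝 (0 + 1)) :=
    (h1.div_atTop hlog).add_const _
  rw [zero_add] at h2
  have h4 := h2.inv₀ one_ne_zero
  rw [inv_one] at h4
  refine h4.congr' ?_
  filter_upwards [eventually_ge_atTop 8] with x hx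
  have hx0 : (1 : ℝ) < x := by exact_mod_cast (by omega : 1 < x)
  have hM : (((x - e) / 2 : ℕ) : ℝ) ≠ 0 := by
    have : 1 ≤ (x - e) / 2 := by omega
    have : (1 : ℝ) ≤ (((x - e) / 2 : ℕ) : ℝ) := by exact_mod_cast this
    linarith
  have hL : Real.log (x : ℝ) ≠ 0 := (Real.log_pos hx0).ne'
  rw [Real.log_div hM (by linarith), sub_div, div_self hL, sub_add_cancel, inv_div]

theorem tri_finite (a : (p : Nat.Primes) → ZMod (p : ℕ)) (h3 : a ⟨3, Nat.prime_three⟩ = 1) : (triSet a).Finite := by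
  obtain ⟨M, hM⟩ := R_avoid a ⟨3, Nat.prime_three⟩
  refine (Set.finite_Iic M).subset ?_
  rintro k ⟨hk1, hk2⟩
  by_contra hcon
  rw [Set.mem_Iic, not_le] at hcon
  have h7 := R_ge hk1
  have hb : k ≤ k * (k + 1) / 2 + 1 := by
    have : k * 2 ≤ k * (k + 1) := Nat.mul_le_mul_left k (by omega)
    omega
  have e1 := hM _ hk1 (by omega)
  have e2 := hM _ hk2 (by omega)
  rw [h3] at e1 e2
  have key : ∀ x y : ZMod 3, 2 * y = x * (x + 1) → x ≠ 1 → y + 1 ≠ 1 → False := by decide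
  refine key (k : ZMod 3) ((k * (k + 1) / 2 : ℕ) : ZMod 3) ?_ e1 ?_
  · have h8 : 2 * (k * (k + 1) / 2) = k * (k + 1) :=
      Nat.mul_div_cancel' (Nat.even_mul_succ_self k).two_dvd
    have h9 := congrArg (fun z : ℕ => (z : ZMod 3)) h8
    push_cast at h9
    exact_mod_cast h9
  · intro h
    apply e2
    show (((k * (k + 1) / 2 + 1 : ℕ)) : ZMod 3) = 1
    push_cast
    exact h

theorem tri_ae : ∀ᵐ a ∂law,
    ((triSet a).Infinite ↔ a ⟨3, Nat.prime_three⟩ ≠ 1) ∧
    (a ⟨3, Nat.prime_three⟩ ≠ 1 →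
      ∃ S : ℝ, 0 < S ∧ Tendsto (productT a) atTop (𝓝 S) ∧
        Tendsto (fun x : ℕ => (triCount a x : ℝ) * Real.log x ^ 2 / x) atTop (𝓝 (S / 2)) ∧
        ∀ ε : ℝ, 0 < ε →
          (fun x : ℕ => (triCount a x : ℝ) - 2 * S * mainT a x) =O[atTop] fun x : ℕ => (x : ℝ) ^ (1 / 2 + ε)) := by
  filter_upwards [general3] with a ha
  -- the parity
  obtain ⟨e, he, h⟩ : ∃ e : ℕ, (e = 0 ∨ e = 1) ∧ (e : ZMod 2) ≠ a ⟨2, Nat.prime_two⟩ := by
    have key : ∀ c : ZMod 2, ((0 : ℕ) : ZMod 2) ≠ c ∨ ((1 : ℕ) : ZMod 2) ≠ c := by decide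
    rcases key (a ⟨2, Nat.prime_two⟩) with h | h
    · exact ⟨0, Or.inl rfl, h⟩
    · exact ⟨1, Or.inr rfl, h⟩
  have heZ : ((e : ℤ) = 0 ∨ (e : ℤ) = 1) := by
    rcases he with rfl | rfl
    · exact Or.inl rfl
    · exact Or.inr rfl
  have hZ : (((e : ℤ)) : ZMod 2) ≠ a ⟨2, Nat.prime_two⟩ := by
    rw [Int.cast_natCast]
    exact h
  obtain ⟨S, hS0, hS1, hS2, hS3⟩ := ha 2 (tri e) (tri_inj e) (tri_facts e)
  have key : a ⟨3, Nat.prime_three⟩ ≠ 1 → 0 < S := by
    intro h3
    rw [hS2]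
    intro p
    rw [← nu_lt_iff]
    exact nu_tri_lt e heZ a hZ h3 p
  have hasy : Tendsto (fun x : ℕ => (triCount a x : ℝ) * Real.log x ^ 2 / x) atTop (𝓝 (S / 2 / 2)) := by
    have h1 := count_asymp (tri e) a S (1 / 2) (main_tri he) (by
      have := hS3 (1 / 4) (by norm_num)
      rw [show (1 / 2 + 1 / 4 : ℝ) = 3 / 4 by norm_num] at this
      exact this)
    have h2 := ((h1.comp (MM_atTop e)).mul ((MM_log he).pow 2)).mul (MM_div he)
    rw [show S * (1 / 2) * 1 ^ 2 * (1 / 2) = S / 2 / 2 by ring] at h2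
    refine h2.congr' ?_
    filter_upwards [eventually_ge_atTop 12] with x hx
    have hx0 : (1 : ℝ) < x := by exact_mod_cast (by omega : 1 < x)
    have hM : (1 : ℝ) < (((x - e) / 2 : ℕ) : ℝ) := by
      have : 1 < (x - e) / 2 := by omega
      exact_mod_cast this
    have hL : Real.log (((x - e) / 2 : ℕ) : ℝ) ≠ 0 := (Real.log_pos hM).ne'
    have hM0 : (((x - e) / 2 : ℕ) : ℝ) ≠ 0 := by linarith
    have hx1 : (x : ℝ) ≠ 0 := by linarith
    rw [triCount_eq he a h]
    simp only [Function.comp_apply]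
    field_simp
  refine ⟨⟨fun hinf => ?_, fun h3 => ?_⟩, fun h3 => ?_⟩
  · intro hcon
    exact hinf (tri_finite a hcon)
  · have hS := key h3
    intro hfin
    have hzero : Tendsto (fun x : ℕ => (triCount a x : ℝ) * Real.log x ^ 2 / x) atTop (𝓝 0) := by
      have hz : Tendsto (fun x : ℕ => ((triSet a).ncard : ℝ) * (Real.log x ^ 2 / x)) atTop (𝓝 0) := by
        have h5 : Tendsto (fun x : ℝ => Real.log x ^ 2 / (1 * x + 0)) atTop (𝓝 0) :=
          Real.tendsto_pow_log_div_mul_add_atTop 1 0 2 one_ne_zero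
        have h6 := (h5.comp tendsto_natCast_atTop_atTop).const_mul ((triSet a).ncard : ℝ)
        rw [mul_zero] at h6
        refine h6.congr fun x => ?_
        simp only [Function.comp_apply, one_mul, add_zero]
      refine squeeze_zero (fun x => by positivity) (fun x => ?_) hz
      have h3 : triCount a x ≤ (triSet a).ncard := by
        unfold triCount
        apply Set.ncard_le_ncard _ hfin
        rintro k ⟨-, e2, e3⟩
        exact ⟨e2, e3⟩
      have h4 : (triCount a x : ℝ) ≤ (triSet a).ncard := by exact_mod_cast h3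
      rw [mul_div_assoc]
      have : 0 ≤ Real.log (x : ℝ) ^ 2 / x := by positivity
      exact mul_le_mul_of_nonneg_right h4 this
    have := tendsto_nhds_unique hasy hzero
    linarith
  · have hS := key h3
    refine ⟨S / 2, by positivity, ?_, hasy, fun ε hε => ?_⟩
    · have h4 : Tendsto (fun z => series (tri e) a z / 2) atTop (𝓝 (S / 2)) := hS1.div_const _
      refine h4.congr' ?_
      filter_upwards [eventually_ge_atTop 2] with z hz
      rw [series_tri e heZ a hZ z hz]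
      ring
    · have h5 := (hS3 ε hε).comp_tendsto (MM_atTop e)
      have h6 : ((fun x : ℕ => (x : ℝ) ^ (1 / 2 + ε)) ∘ fun x : ℕ => (x - e) / 2) =O[atTop]
          fun x : ℕ => (x : ℝ) ^ (1 / 2 + ε) := by
        refine IsBigO.of_bound 1 (Eventually.of_forall fun x => ?_)
        simp only [Function.comp_apply]
        rw [one_mul, Real.norm_of_nonneg (by positivity), Real.norm_of_nonneg (by positivity)]
        refine Real.rpow_le_rpow (by positivity) ?_ (by positivity)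
        exact_mod_cast (by omega : (x - e) / 2 ≤ x)
      refine (h5.trans h6).congr_left fun x => ?_
      simp only [Function.comp_apply]
      rw [triCount_eq he a h, mainT_eq he a h]
      ring

end Pool.Agent.W2helper14.RB
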